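import Mathlib

/-!
# Definitions for MP_5dc868_al: Ext vanishing, the dual `D(A)`, dominant dimension
-/

namespace Pool.Agent.Lib.P5dc868

open CategoryTheory Abelian

/-- `Ext^i_R(M, Y) = 0` for all `i ≥ 1`. -/
def ExtZero (R : Type) [Ring R] (M Y : Type) [AddCommGroup M] [Module R M] [AddCommGroup Y]
    [Module R Y] : Prop :=
  ∀ i : ℕ, 1 ≤ i → Subsingleton (Ext (ModuleCat.of R M) (ModuleCat.of R Y) i)

/-- The dual `D(A) = Hom_K(A, K)` of a `K`-algebra `A`. -/
def DL (K A : Type) [Field K] [Ring A] [Algebra K A] : Type := A →ₗ[K] K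

section DL
variable (K A : Type) [Field K] [Ring A] [Algebra K A]

noncomputable instance : AddCommGroup (DL K A) := inferInstanceAs (AddCommGroup (A →ₗ[K] K))

noncomputable instance : Module K (DL K A) := inferInstanceAs (Module K (A →ₗ[K] K))

instance : FunLike (DL K A) A K := inferInstanceAs (FunLike (A →ₗ[K] K) A K)

variable {K A}

/-- The left `A`-module structure of `D(A)`: `(a φ)(x) = φ(x a)`. -/
noncomputable instance : Module A (DL K A) where
  smul a φ := (show A →ₗ[K] K from φ) ∘ₗ LinearMap.mulRight K a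
  one_smul φ := by
    apply LinearMap.ext
    intro x
    exact congrArg (show A →ₗ[K] K from φ) (mul_one x)
  mul_smul a b φ := by
    apply LinearMap.ext
    intro x
    exact congrArg (show A →ₗ[K] K from φ) (mul_assoc x a b).symm
  smul_zero a := by
    apply LinearMap.ext
    intro x
    rfl
  smul_add a φ ψ := by
    apply LinearMap.ext
    intro x
    rfl
  add_smul a b φ := by
    apply LinearMap.ext
    intro x
    exact (congrArg (show A →ₗ[K] K from φ) (mul_add x a b)).trans
      (map_add (show A →ₗ[K] K from φ) _ _)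
  zero_smul φ := by
    apply LinearMap.ext
    intro x
    exact (congrArg (show A →ₗ[K] K from φ) (mul_zero x)).trans
      (map_zero (show A →ₗ[K] K from φ))

theorem DL.smul_apply (a : A) (φ : DL K A) (x : A) : (a • φ) x = φ (x * a) := rfl

theorem DL.add_apply (φ ψ : DL K A) (x : A) : (φ + ψ) x = φ x + ψ x := rfl

theorem DL.ksmul_apply (c : K) (φ : DL K A) (x : A) : (c • φ) x = c * φ x := rfl

theorem DL.map_add (φ : DL K A) (x y : A) : φ (x + y) = φ x + φ y :=
  LinearMap.map_add (show A →ₗ[K] K from φ) x y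

theorem DL.map_smul (φ : DL K A) (c : K) (x : A) : φ (c • x) = c * φ x :=
  LinearMap.map_smul (show A →ₗ[K] K from φ) c x

theorem DL.ext {φ ψ : DL K A} (h : ∀ x, φ x = ψ x) : φ = ψ := DFunLike.ext φ ψ h

instance : IsScalarTower K A (DL K A) where
  smul_assoc c a φ := by
    apply DL.ext
    intro x
    rw [DL.smul_apply, DL.ksmul_apply, DL.smul_apply, mul_smul_comm, DL.map_smul]

instance [FiniteDimensional K A] : FiniteDimensional K (DL K A) :=
  inferInstanceAs (FiniteDimensional K (A →ₗ[K] K))

end DL

/-- The dominant dimension of `A` is infinite: the left regular module has a coresolution by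
modules that are projective and injective (and finitely generated). -/
def DomDimInf (A : Type) [Ring A] : Prop :=
  ∃ (J : ℕ → Type) (_ : ∀ n, AddCommGroup (J n)) (_ : ∀ n, Module A (J n))
    (ε : A →ₗ[A] J 0) (d : ∀ n, J n →ₗ[A] J (n + 1)),
    (∀ n, Module.Finite A (J n) ∧ Module.Projective A (J n) ∧ Module.Injective A (J n)) ∧
    Function.Injective ε ∧ (∀ x : J 0, d 0 x = 0 ↔ ∃ a, ε a = x) ∧
    ∀ n (x : J (n + 1)), d (n + 1) x = 0 ↔ ∃ y, d n y = x

end Pool.Agent.Lib.P5dc868
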