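import Mathlib
import Pool.Agent.Lib.P5dc868.Defs

/-!
# Frobenius algebras and endomorphism algebras of generators (MP_5dc868_al)

`S` is a finite-dimensional algebra with a nondegenerate functional `lam` and Nakayama
endomorphism `σ`: `lam (s t) = lam (t σ(s))`. `X` is a finite-dimensional `S`-module with `S` as a
direct summand, `A = End_S(X)`.
-/

namespace Pool.Agent.Lib.P5dc868

/-- `lam` is a Frobenius functional of `S` with Nakayama endomorphism `σ`. -/
structure Frob (K S : Type) [Field K] [Ring S] [Algebra K S] (lam : S →ₗ[K] K) (σ : S →+* S) :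
    Prop where
  nondeg : ∀ t : S, (∀ s, lam (s * t) = 0) → t = 0
  nak : ∀ s t : S, lam (s * t) = lam (t * σ s)

variable {K S : Type} [Field K] [Ring S] [Algebra K S] [FiniteDimensional K S]
  {lam : S →ₗ[K] K} {σ : S →+* S}
  {X : Type} [AddCommGroup X] [Module K X] [Module S X] [IsScalarTower K S X]

/-- `h ↦ lam ∘ h` is injective on `Hom_S(X, S)`. -/
theorem Frob.hom_ext (hF : Frob K S lam σ) {h h' : X →ₗ[S] S} (H : ∀ x, lam (h x) = lam (h' x)) :
    h = h' := by
  apply LinearMap.ext
  intro x
  rw [← sub_eq_zero]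
  apply hF.nondeg
  intro s
  have e : s * (h x - h' x) = h (s • x) - h' (s • x) := by
    rw [map_smul, map_smul, smul_eq_mul, smul_eq_mul, mul_sub]
  rw [e, map_sub, H, sub_self]

namespace FrobAux

/-- the pairing `t ↦ lam (· t)` -/
noncomputable def pair (lam : S →ₗ[K] K) : S →ₗ[K] (S →ₗ[K] K) :=
  (LinearMap.mul K S).flip.compr₂ lam


theorem pair_surj (hF : Frob K S lam σ) : Function.Surjective (pair lam) := by
  have hinj : Function.Injective (pair lam) := by
    rw [← LinearMap.ker_eq_bot, LinearMap.ker_eq_bot']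
    intro t ht
    apply hF.nondeg
    intro s
    exact LinearMap.congr_fun ht s
  have hd : Module.finrank K S = Module.finrank K (S →ₗ[K] K) :=
    (Subspace.dual_finrank_eq (K := K) (V := S)).symm
  exact (LinearMap.injective_iff_surjective_of_finrank_eq_finrank hd).1 hinj

end FrobAux

/-- Every `K`-linear functional on an `S`-module is `lam ∘ h`, `h` in `Hom_S(X, S)`. -/
theorem Frob.exists_hom (hF : Frob K S lam σ) (ψ : X →ₗ[K] K) :
    ∃ h : X →ₗ[S] S, ∀ x, lam (h x) = ψ x := by
  have hex : ∀ x : X, ∃ t : S, ∀ s : S, lam (s * t) = ψ (s • x) := by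
    intro x
    let ρ : S →ₗ[K] K :=
      { toFun := fun s => ψ (s • x)
        map_add' := fun s s' => by rw [add_smul, map_add]
        map_smul' := fun c s => by rw [smul_assoc, map_smul, RingHom.id_apply] }
    obtain ⟨t, ht⟩ := FrobAux.pair_surj hF ρ
    exact ⟨t, fun s => LinearMap.congr_fun ht s⟩
  choose t ht using hex
  have huniq : ∀ u v : S, (∀ s, lam (s * u) = lam (s * v)) → u = v := by
    intro u v huv
    rw [← sub_eq_zero]
    apply hF.nondeg
    intro s
    rw [mul_sub, map_sub, huv, sub_self]
  refine ⟨{ toFun := t, map_add' := ?_, map_smul' := ?_ }, ?_⟩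
  · intro x y
    apply huniq
    intro s
    rw [ht, mul_add, map_add, ht, ht, smul_add, map_add]
  · intro r x
    apply huniq
    intro s
    rw [ht, RingHom.id_apply, smul_eq_mul, ← mul_assoc, ht, mul_smul]
  · intro x
    have h1 := ht x 1
    rw [one_mul, one_smul] at h1
    exact h1

/-- Elements of `X` are separated by `lam ∘ h`. -/
theorem Frob.sep (hF : Frob K S lam σ) {x y : X} (H : ∀ h : X →ₗ[S] S, lam (h x) = lam (h y)) :
    x = y := by
  rw [← sub_eq_zero, ← Module.forall_dual_apply_eq_zero_iff K]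
  intro ψ
  obtain ⟨h, hh⟩ := hF.exists_hom ψ
  rw [map_sub, ← hh x, ← hh y, H h, sub_self]

/-- Every `K`-linear functional on `Hom_S(X, S)` is `h ↦ lam (h z)` for some `z` in `X`. -/
theorem Frob.repr [FiniteDimensional K X] (hF : Frob K S lam σ) (Θ : (X →ₗ[S] S) →ₗ[K] K) :
    ∃ z : X, ∀ h : X →ₗ[S] S, lam (h z) = Θ h := by
  let Ψ : (X →ₗ[S] S) →ₗ[K] Module.Dual K X :=
    { toFun := fun h => lam ∘ₗ h.restrictScalars K
      map_add' := fun h h' => by
        apply LinearMap.ext
        intro x
        change lam (h x + h' x) = lam (h x) + lam (h' x)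
        exact map_add lam _ _
      map_smul' := fun c h => by
        apply LinearMap.ext
        intro x
        change lam (c • h x) = c • lam (h x)
        exact map_smul lam c _ }
  have hbij : Function.Bijective Ψ := by
    constructor
    · intro h h' hh
      exact hF.hom_ext (fun x => LinearMap.congr_fun hh x)
    · intro ψ
      obtain ⟨h, hh⟩ := hF.exists_hom ψ
      exact ⟨h, LinearMap.ext hh⟩
  let E := LinearEquiv.ofBijective Ψ hbij
  refine ⟨(Module.evalEquiv K X).symm (Θ ∘ₗ E.symm.toLinearMap), fun h => ?_⟩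
  have h1 := Module.apply_evalEquiv_symm_apply (R := K) (M := X) (E h) (Θ ∘ₗ E.symm.toLinearMap)
  have h2 : (Θ ∘ₗ E.symm.toLinearMap) (E h) = Θ h := by
    rw [LinearMap.comp_apply]
    exact congrArg Θ (E.symm_apply_apply h)
  rw [h2] at h1
  exact h1

/-- `S` is left selfinjective. -/
theorem Frob.left_injective (hF : Frob K S lam σ) : Module.Injective S S := by
  constructor
  intro A B _ _ _ _ f hf g
  letI : Module K A := Module.compHom A (algebraMap K S)
  letI : Module K B := Module.compHom B (algebraMap K S)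
  haveI : IsScalarTower K S A := ⟨fun c s a => by
    change (c • s) • a = algebraMap K S c • (s • a)
    rw [Algebra.smul_def, mul_smul]⟩
  haveI : IsScalarTower K S B := ⟨fun c s a => by
    change (c • s) • a = algebraMap K S c • (s • a)
    rw [Algebra.smul_def, mul_smul]⟩
  obtain ⟨r, hr⟩ := LinearMap.exists_leftInverse_of_injective (f.restrictScalars K)
    (LinearMap.ker_eq_bot.2 hf)
  obtain ⟨h, hh⟩ := hF.exists_hom (X := B) ((lam ∘ₗ g.restrictScalars K) ∘ₗ r)
  have hfg : h ∘ₗ f = g := by
    apply hF.hom_ext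
    intro a
    have h1 : r (f a) = a := LinearMap.congr_fun hr a
    rw [LinearMap.comp_apply, hh (f a)]
    change lam (g (r (f a))) = lam (g a)
    rw [h1]
  exact ⟨h, fun a => LinearMap.congr_fun hfg a⟩

end Pool.Agent.Lib.P5dc868
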