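import Mathlib
import Pool.Agent.Lib.P5dc868.Defs
import Pool.Agent.Lib.P5dc868.Frob

/-!
# The 3-fold trivial extension of a finite-dimensional algebra (MP_5dc868_al)

Positions `0, 1, 2` (cyclic), elements `(b, q)`, `b_j` in `B` at position `j` and `q_j` in `D(B)`
from position `j` to position `j + 1`; the product of two `q`'s is `0`.
-/

namespace Pool.Agent.Lib.P5dc868

/-- The 3-fold trivial extension of `B`. -/
@[ext]
structure Cyc (K B : Type) [Field K] [Ring B] [Algebra K B] : Type where
  /-- diagonal entries -/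
  b : Fin 3 → B
  /-- entries of `D(B)` from position `j` to position `j + 1` -/
  q : Fin 3 → (B →ₗ[K] K)

namespace Cyc

variable {K B : Type} [Field K] [Ring B] [Algebra K B]

/-- left action on `D(B)`: `(a φ)(x) = φ(x a)` -/
def lact (a : B) (φ : B →ₗ[K] K) : B →ₗ[K] K := φ ∘ₗ LinearMap.mulRight K a

/-- right action on `D(B)`: `(φ a)(x) = φ(a x)` -/
def ract (φ : B →ₗ[K] K) (a : B) : B →ₗ[K] K := φ ∘ₗ LinearMap.mulLeft K a

@[simp] theorem lact_apply (a : B) (φ : B →ₗ[K] K) (x : B) : lact a φ x = φ (x * a) := rfl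

@[simp] theorem ract_apply (φ : B →ₗ[K] K) (a : B) (x : B) : ract φ a x = φ (a * x) := rfl

instance : Zero (Cyc K B) := ⟨⟨0, 0⟩⟩
instance : One (Cyc K B) := ⟨⟨1, 0⟩⟩
instance : Add (Cyc K B) := ⟨fun s t => ⟨s.b + t.b, s.q + t.q⟩⟩
instance : Neg (Cyc K B) := ⟨fun s => ⟨-s.b, -s.q⟩⟩
instance : Sub (Cyc K B) := ⟨fun s t => ⟨s.b - t.b, s.q - t.q⟩⟩
instance : SMul ℕ (Cyc K B) := ⟨fun n s => ⟨n • s.b, n • s.q⟩⟩
instance : SMul ℤ (Cyc K B) := ⟨fun n s => ⟨n • s.b, n • s.q⟩⟩
instance : SMul K (Cyc K B) := ⟨fun c s => ⟨c • s.b, c • s.q⟩⟩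
instance : Mul (Cyc K B) :=
  ⟨fun s t => ⟨fun j => s.b j * t.b j, fun j => lact (s.b (j + 1)) (t.q j) + ract (s.q j) (t.b j)⟩⟩

@[simp] theorem zero_b : (0 : Cyc K B).b = 0 := rfl
@[simp] theorem zero_q : (0 : Cyc K B).q = 0 := rfl
@[simp] theorem one_b : (1 : Cyc K B).b = 1 := rfl
@[simp] theorem one_q : (1 : Cyc K B).q = 0 := rfl
@[simp] theorem add_b (s t : Cyc K B) : (s + t).b = s.b + t.b := rfl
@[simp] theorem add_q (s t : Cyc K B) : (s + t).q = s.q + t.q := rfl
@[simp] theorem neg_b (s : Cyc K B) : (-s).b = -s.b := rfl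
@[simp] theorem neg_q (s : Cyc K B) : (-s).q = -s.q := rfl
@[simp] theorem sub_b (s t : Cyc K B) : (s - t).b = s.b - t.b := rfl
@[simp] theorem sub_q (s t : Cyc K B) : (s - t).q = s.q - t.q := rfl
@[simp] theorem smul_b (c : K) (s : Cyc K B) : (c • s).b = c • s.b := rfl
@[simp] theorem smul_q (c : K) (s : Cyc K B) : (c • s).q = c • s.q := rfl
@[simp] theorem mul_b (s t : Cyc K B) (j : Fin 3) : (s * t).b j = s.b j * t.b j := rfl
theorem mul_q (s t : Cyc K B) (j : Fin 3) :
    (s * t).q j = lact (s.b (j + 1)) (t.q j) + ract (s.q j) (t.b j) := rfl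
@[simp] theorem mul_q_apply (s t : Cyc K B) (j : Fin 3) (x : B) :
    (s * t).q j x = t.q j (x * s.b (j + 1)) + s.q j (t.b j * x) := rfl

/-- the two families of entries -/
def toProd (s : Cyc K B) : (Fin 3 → B) × (Fin 3 → (B →ₗ[K] K)) := (s.b, s.q)

theorem toProd_injective : Function.Injective (toProd : Cyc K B → _) := by
  intro s t h
  exact Cyc.ext (congrArg Prod.fst h) (congrArg Prod.snd h)

instance : AddCommGroup (Cyc K B) :=
  toProd_injective.addCommGroup _ rfl (fun _ _ => rfl) (fun _ => rfl) (fun _ _ => rfl)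
    (fun _ _ => rfl) (fun _ _ => rfl)

theorem ext' {s t : Cyc K B} (hb : ∀ j, s.b j = t.b j) (hq : ∀ j x, s.q j x = t.q j x) : s = t :=
  Cyc.ext (funext hb) (funext fun j => LinearMap.ext (hq j))

instance : Ring (Cyc K B) where
  __ := (inferInstance : AddCommGroup (Cyc K B))
  left_distrib s t u := by
    refine ext' (fun j => by simp [mul_add]) (fun j x => ?_)
    simp [add_mul]
    abel
  right_distrib s t u := by
    refine ext' (fun j => by simp [add_mul]) (fun j x => ?_)
    simp [mul_add]
    abel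
  zero_mul s := ext' (fun j => by simp) (fun j x => by simp)
  mul_zero s := ext' (fun j => by simp) (fun j x => by simp)
  mul_assoc s t u := by
    refine ext' (fun j => by simp [mul_assoc]) (fun j x => ?_)
    simp [mul_assoc, add_assoc]
  one_mul s := ext' (fun j => by simp) (fun j x => by simp)
  mul_one s := ext' (fun j => by simp) (fun j x => by simp)

instance : Module K (Cyc K B) where
  one_smul s := ext' (fun j => by simp) (fun j x => by simp)
  mul_smul c d s := ext' (fun j => by simp [mul_smul]) (fun j x => by simp [mul_assoc])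
  smul_zero c := ext' (fun j => by simp) (fun j x => by simp)
  smul_add c s t := ext' (fun j => by simp) (fun j x => by simp [mul_add])
  add_smul c d s := ext' (fun j => by simp [add_smul]) (fun j x => by simp [add_mul])
  zero_smul s := ext' (fun j => by simp) (fun j x => by simp)

instance : Algebra K (Cyc K B) :=
  Algebra.ofModule
    (fun c s t => ext' (fun j => by simp) (fun j x => by simp [mul_add]))
    (fun c s t => ext' (fun j => by simp) (fun j x => by simp [mul_add]))

/-- `Cyc K B` as a vector space -/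
def linProd : Cyc K B →ₗ[K] (Fin 3 → B) × (Fin 3 → (B →ₗ[K] K)) where
  toFun := toProd
  map_add' _ _ := rfl
  map_smul' _ _ := rfl

instance [FiniteDimensional K B] : FiniteDimensional K (Cyc K B) :=
  Module.Finite.of_injective (linProd : Cyc K B →ₗ[K] _) toProd_injective

/-- the Frobenius functional -/
def lam : Cyc K B →ₗ[K] K where
  toFun s := ∑ j, s.q j 1
  map_add' s t := by simp [Finset.sum_add_distrib]
  map_smul' c s := by simp [Finset.mul_sum]

theorem lam_apply (s : Cyc K B) : lam s = ∑ j, s.q j 1 := rfl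

/-- the Nakayama automorphism: the cyclic shift -/
def shift : Cyc K B →+* Cyc K B where
  toFun s := ⟨fun j => s.b (j + 1), fun j => s.q (j + 1)⟩
  map_one' := rfl
  map_mul' s t := ext' (fun j => rfl) (fun j x => rfl)
  map_zero' := rfl
  map_add' s t := ext' (fun j => rfl) (fun j x => rfl)

@[simp] theorem shift_b (s : Cyc K B) (j : Fin 3) : (shift s).b j = s.b (j + 1) := rfl
@[simp] theorem shift_q (s : Cyc K B) (j : Fin 3) : (shift s).q j = s.q (j + 1) := rfl

theorem shift_cube (s : Cyc K B) : shift (shift (shift s)) = s :=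
  ext' (fun j => by simp [show j + 1 + 1 + 1 = j from by revert j; decide])
    (fun j x => by simp [show j + 1 + 1 + 1 = j from by revert j; decide])

theorem shift_bijective : Function.Bijective (shift : Cyc K B →+* Cyc K B) := by
  constructor
  · intro s t h
    rw [← shift_cube s, h, shift_cube]
  · intro s
    exact ⟨shift (shift s), shift_cube s⟩

theorem frob : Frob K (Cyc K B) lam shift where
  nondeg t h := by
    have hval : ∀ s : Cyc K B, ∑ j, (t.q j (s.b (j + 1)) + s.q j (t.b j)) = 0 := by
      intro s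
      have := h s
      rw [lam_apply] at this
      simpa using this
    refine ext' (fun j => ?_) (fun j x => ?_)
    · refine (Module.forall_dual_apply_eq_zero_iff K (t.b j)).1 (fun φ => ?_)
      have := hval ⟨0, Pi.single j φ⟩
      simpa [Pi.single_apply, apply_ite, ite_apply, Finset.sum_ite_eq] using this
    · have := hval ⟨Pi.single (j + 1) x, 0⟩
      simpa [Pi.single_apply, apply_ite] using this
  nak s t := by
    rw [lam_apply, lam_apply]
    simp only [mul_q_apply, one_mul, mul_one, shift_b, shift_q, Fin.sum_univ_three]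
    simp only [show (0 : Fin 3) + 1 = 1 from rfl, show (1 : Fin 3) + 1 = 2 from rfl,
      show (2 : Fin 3) + 1 = 0 from rfl]
    ring

end Cyc

end Pool.Agent.Lib.P5dc868
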