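import Mathlib
import Pool.Agent.Lib.P5dc868.Cyc

/-!
# Modules over the 3-fold trivial extension induced from position 0 (MP_5dc868_al)

`Ind K B M` is `M` at position `0`, `D Hom_B(M, B) = D(B) ⊗ M` at position `1` and `0` at
position `2`.
-/

namespace Pool.Agent.Lib.P5dc868

/-- `M` at position `0`, `D Hom_B(M, B)` at position `1`. -/
@[ext]
structure Ind (K B M : Type) [Field K] [Ring B] [Algebra K B] [AddCommGroup M] [Module B M] :
    Type where
  /-- entry at position `0` -/
  fst : M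
  /-- entry at position `1` -/
  snd : (M →ₗ[B] B) →ₗ[K] K

namespace Ind

variable {K B M M' M'' : Type} [Field K] [Ring B] [Algebra K B] [AddCommGroup M] [Module B M]
  [AddCommGroup M'] [Module B M'] [AddCommGroup M''] [Module B M'']

/-- the left action of `B` on `D Hom_B(M, B)`: `(a v)(f) = v(f a)`, `(f a)(y) = f(y) a` -/
def vact (a : B) (v : (M →ₗ[B] B) →ₗ[K] K) : (M →ₗ[B] B) →ₗ[K] K where
  toFun f := v (f.smulRight a)
  map_add' f g := by
    rw [← map_add]
    congr 1
    ext y
    simp [add_mul]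
  map_smul' c f := by
    rw [RingHom.id_apply, ← map_smul]
    congr 1
    ext y
    simp

@[simp] theorem vact_apply (a : B) (v : (M →ₗ[B] B) →ₗ[K] K) (f : M →ₗ[B] B) :
    vact a v f = v (f.smulRight a) := rfl

/-- `q ⋆ m : f ↦ q (f m)` -/
def star (q : B →ₗ[K] K) (m : M) : (M →ₗ[B] B) →ₗ[K] K where
  toFun f := q (f m)
  map_add' f g := by simp
  map_smul' c f := by simp

@[simp] theorem star_apply (q : B →ₗ[K] K) (m : M) (f : M →ₗ[B] B) : star q m f = q (f m) := rfl

instance : Zero (Ind K B M) := ⟨⟨0, 0⟩⟩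
instance : Add (Ind K B M) := ⟨fun s t => ⟨s.fst + t.fst, s.snd + t.snd⟩⟩
instance : Neg (Ind K B M) := ⟨fun s => ⟨-s.fst, -s.snd⟩⟩
instance : Sub (Ind K B M) := ⟨fun s t => ⟨s.fst - t.fst, s.snd - t.snd⟩⟩
instance : SMul ℕ (Ind K B M) := ⟨fun n s => ⟨n • s.fst, n • s.snd⟩⟩
instance : SMul ℤ (Ind K B M) := ⟨fun n s => ⟨n • s.fst, n • s.snd⟩⟩
instance : SMul (Cyc K B) (Ind K B M) :=
  ⟨fun s x => ⟨s.b 0 • x.fst, vact (s.b 1) x.snd + star (s.q 0) x.fst⟩⟩

@[simp] theorem zero_fst : (0 : Ind K B M).fst = 0 := rfl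
@[simp] theorem zero_snd : (0 : Ind K B M).snd = 0 := rfl
@[simp] theorem add_fst (s t : Ind K B M) : (s + t).fst = s.fst + t.fst := rfl
@[simp] theorem add_snd (s t : Ind K B M) : (s + t).snd = s.snd + t.snd := rfl
@[simp] theorem neg_fst (s : Ind K B M) : (-s).fst = -s.fst := rfl
@[simp] theorem neg_snd (s : Ind K B M) : (-s).snd = -s.snd := rfl
@[simp] theorem smul_fst (s : Cyc K B) (x : Ind K B M) : (s • x).fst = s.b 0 • x.fst := rfl
theorem smul_snd (s : Cyc K B) (x : Ind K B M) :
    (s • x).snd = vact (s.b 1) x.snd + star (s.q 0) x.fst := rfl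
@[simp] theorem smul_snd_apply (s : Cyc K B) (x : Ind K B M) (f : M →ₗ[B] B) :
    (s • x).snd f = x.snd (f.smulRight (s.b 1)) + s.q 0 (f x.fst) := rfl

/-- the two entries -/
def toProd (x : Ind K B M) : M × ((M →ₗ[B] B) →ₗ[K] K) := (x.fst, x.snd)

theorem toProd_injective : Function.Injective (toProd : Ind K B M → _) := by
  intro s t h
  exact Ind.ext (congrArg Prod.fst h) (congrArg Prod.snd h)

instance : AddCommGroup (Ind K B M) :=
  toProd_injective.addCommGroup _ rfl (fun _ _ => rfl) (fun _ => rfl) (fun _ _ => rfl)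
    (fun _ _ => rfl) (fun _ _ => rfl)

theorem ext' {x y : Ind K B M} (h1 : x.fst = y.fst) (h2 : ∀ f, x.snd f = y.snd f) : x = y :=
  Ind.ext h1 (LinearMap.ext h2)

theorem smulRight_smulRight (f : M →ₗ[B] B) (a b : B) :
    (f.smulRight a).smulRight b = f.smulRight (a * b) := by
  ext y
  simp [mul_assoc]

theorem smulRight_one (f : M →ₗ[B] B) : f.smulRight (1 : B) = f := by
  ext y
  simp

theorem smulRight_add (f : M →ₗ[B] B) (a b : B) :
    f.smulRight (a + b) = f.smulRight a + f.smulRight b := by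
  ext y
  simp [mul_add]

theorem smulRight_zero (f : M →ₗ[B] B) : f.smulRight (0 : B) = 0 := by
  ext y
  simp

theorem zero_smulRight (a : B) : (0 : M →ₗ[B] B).smulRight a = 0 := by
  ext y
  simp

instance : Module (Cyc K B) (Ind K B M) where
  one_smul x := ext' (by simp) (fun f => by simp [smulRight_one])
  mul_smul s t x := ext' (by simp [mul_smul]) (fun f => by
    simp [smulRight_smulRight, add_assoc])
  smul_zero s := ext' (by simp) (fun f => by simp)
  smul_add s x y := ext' (by simp) (fun f => by simp; abel)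
  add_smul s t x := ext' (by simp [add_smul]) (fun f => by
    simp [smulRight_add]; abel)
  zero_smul x := ext' (by simp) (fun f => by simp [smulRight_zero])

noncomputable instance : Module K (Ind K B M) :=
  Module.compHom _ (algebraMap K (Cyc K B))

theorem ksmul_def (c : K) (x : Ind K B M) : c • x = algebraMap K (Cyc K B) c • x := rfl

instance : IsScalarTower K (Cyc K B) (Ind K B M) where
  smul_assoc c s x := by
    rw [ksmul_def, Algebra.smul_def, mul_smul]

/-- functoriality -/
def map (g : M →ₗ[B] M') : Ind K B M →ₗ[Cyc K B] Ind K B M' where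
  toFun x := ⟨g x.fst, x.snd ∘ₗ LinearMap.lcomp K B g⟩
  map_add' x y := ext' (by simp) (fun f => by simp)
  map_smul' s x := ext' (by simp) (fun f => by
    simp
    rfl)

@[simp] theorem map_fst (g : M →ₗ[B] M') (x : Ind K B M) : (map g x).fst = g x.fst := rfl
@[simp] theorem map_snd_apply (g : M →ₗ[B] M') (x : Ind K B M) (f : M' →ₗ[B] B) :
    (map g x).snd f = x.snd (f ∘ₗ g) := rfl

theorem map_comp (g : M →ₗ[B] M') (g' : M' →ₗ[B] M'') (x : Ind K B M) :
    map g' (map g x) = map (g' ∘ₗ g) x :=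
  ext' rfl (fun f => rfl)

/-- An `S`-linear map restricted to position `0`. -/
def res0 (g : Ind K B M →ₗ[Cyc K B] Ind K B M') : M →ₗ[B] M' where
  toFun m := (g ⟨m, 0⟩).fst
  map_add' m m' := by
    have : (⟨m + m', 0⟩ : Ind K B M) = ⟨m, 0⟩ + ⟨m', 0⟩ := ext' rfl (fun f => by simp)
    rw [this, map_add]
    rfl
  map_smul' b m := by
    have : (⟨b • m, 0⟩ : Ind K B M) = (⟨fun _ => b, 0⟩ : Cyc K B) • ⟨m, 0⟩ :=
      ext' rfl (fun f => by simp)
    rw [this, map_smul]
    rfl

end Ind

end Pool.Agent.Lib.P5dc868
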