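import Mathlib
import Pool.Agent.Lib.P5dc868.Ind

/-!
# Exactness of induction from position 0 (MP_5dc868_al)
-/

namespace Pool.Agent.Lib.P5dc868

namespace Ind

variable {K B M M' M'' : Type} [Field K] [Ring B] [Algebra K B] [AddCommGroup M] [Module B M]
  [AddCommGroup M'] [Module B M'] [AddCommGroup M''] [Module B M'']

/-- a surjection induces a surjection -/
theorem map_surjective (g : M →ₗ[B] M') (hg : Function.Surjective g) :
    Function.Surjective (map g : Ind K B M →ₗ[Cyc K B] Ind K B M') := by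
  intro y
  obtain ⟨m, hm⟩ := hg y.fst
  have hinj : LinearMap.ker (LinearMap.lcomp K B g : (M' →ₗ[B] B) →ₗ[K] (M →ₗ[B] B)) = ⊥ := by
    refine LinearMap.ker_eq_bot'.2 (fun f hf => ?_)
    ext z
    obtain ⟨t, rfl⟩ := hg z
    exact LinearMap.congr_fun hf t
  obtain ⟨L, hL⟩ := LinearMap.exists_leftInverse_of_injective _ hinj
  refine ⟨⟨m, y.snd ∘ₗ L⟩, ext' hm (fun f => ?_)⟩
  have h1 : L (f ∘ₗ g) = f := LinearMap.congr_fun hL f
  rw [map_snd_apply, LinearMap.comp_apply, h1]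

/-- exactness: if `M → M' → M''` is exact and `Hom(M'', B) → Hom(M', B) → Hom(M, B)` is exact,
then `Ind M → Ind M' → Ind M''` is exact. -/
theorem map_exact (g : M →ₗ[B] M') (g' : M' →ₗ[B] M'')
    (h : ∀ x, g' x = 0 ↔ ∃ y, g y = x)
    (hB : ∀ f : M' →ₗ[B] B, (∀ y, f (g y) = 0) → ∃ f' : M'' →ₗ[B] B, ∀ x, f' (g' x) = f x)
    (x : Ind K B M') : map g' x = 0 ↔ ∃ y, map g y = x := by
  constructor
  · intro hx
    have hx1 : g' x.fst = 0 := congrArg Ind.fst hx
    have hx2 : ∀ f' : M'' →ₗ[B] B, x.snd (f' ∘ₗ g') = 0 := by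
      intro f'
      have h1 := congrArg (fun z : Ind K B M'' => z.snd f') hx
      simpa using h1
    obtain ⟨m, hm⟩ := (h x.fst).1 hx1
    have hmem : x.snd ∈ LinearMap.range (LinearMap.dualMap
        (LinearMap.lcomp K B g : (M' →ₗ[B] B) →ₗ[K] (M →ₗ[B] B))) := by
      rw [LinearMap.range_dualMap_eq_dualAnnihilator_ker, Submodule.mem_dualAnnihilator]
      intro f hf
      obtain ⟨f', hf'⟩ := hB f (fun y => LinearMap.congr_fun (LinearMap.mem_ker.1 hf) y)
      have h2 : f = f' ∘ₗ g' := by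
        ext z
        exact (hf' z).symm
      rw [h2]
      exact hx2 f'
    obtain ⟨w, hw⟩ := hmem
    refine ⟨⟨m, w⟩, ext' hm (fun f => ?_)⟩
    rw [map_snd_apply]
    exact LinearMap.congr_fun hw f
  · rintro ⟨y, rfl⟩
    rw [map_comp]
    have h0 : g' ∘ₗ g = 0 := by
      ext z
      exact (h (g z)).2 ⟨z, rfl⟩
    rw [h0]
    refine ext' rfl (fun f => ?_)
    rw [map_snd_apply, LinearMap.comp_zero, map_zero]
    rfl

end Ind

end Pool.Agent.Lib.P5dc868
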