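import Mathlib
import Pool.Agent.Lib.P5dc868.Ind
import Pool.Agent.Lib.P5dc868.IndA

/-!
# Induced modules: maps and projectivity (MP_5dc868_al)
-/

namespace Pool.Agent.Lib.P5dc868

namespace Ind

variable {K B M M' M'' : Type} [Field K] [Ring B] [Algebra K B] [AddCommGroup M] [Module B M]
  [AddCommGroup M'] [Module B M'] [AddCommGroup M''] [Module B M'']

namespace IndBAux

/-- the idempotent of position `0` -/
def e0 (K B : Type) [Field K] [Ring B] [Algebra K B] : Cyc K B := ⟨Pi.single 0 1, 0⟩

theorem e0_smul (m : M) : e0 K B • (⟨m, 0⟩ : Ind K B M) = ⟨m, 0⟩ := by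
  refine ext' ?_ fun f => ?_
  · rw [smul_fst]
    change (Pi.single 0 1 : Fin 3 → B) 0 • m = m
    rw [Pi.single_eq_same, one_smul]
  · rw [smul_snd_apply]
    change (0 : (M →ₗ[B] B) →ₗ[K] K) _ + (0 : B →ₗ[K] K) _ = (0 : (M →ₗ[B] B) →ₗ[K] K) f
    simp

theorem e0_snd (x : Ind K B M) : (e0 K B • x).snd = 0 := by
  refine LinearMap.ext fun f => ?_
  rw [smul_snd_apply]
  change x.snd (f.smulRight ((Pi.single 0 1 : Fin 3 → B) 1)) + (0 : B →ₗ[K] K) _ = 0
  have h : (Pi.single 0 1 : Fin 3 → B) 1 = 0 := Pi.single_eq_of_ne (by decide) _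
  rw [h, smulRight_zero, map_zero, LinearMap.zero_apply, add_zero]

/-- the coordinates of `v` -/
def vc {k : ℕ} (v : ((Fin k → B) →ₗ[B] B) →ₗ[K] K) (i : Fin k) : B →ₗ[K] K where
  toFun b := v ((LinearMap.proj (R := B) (φ := fun _ : Fin k => B) i).smulRight b)
  map_add' a b := by
    rw [smulRight_add, map_add]
  map_smul' c b := by
    rw [RingHom.id_apply, ← map_smul]
    congr 1
    ext y
    simp

theorem vc_apply {k : ℕ} (v : ((Fin k → B) →ₗ[B] B) →ₗ[K] K) (i : Fin k) (b : B) :
    vc v i b = v ((LinearMap.proj (R := B) (φ := fun _ : Fin k => B) i).smulRight b) := rfl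

theorem vc_sum {k : ℕ} (v : ((Fin k → B) →ₗ[B] B) →ₗ[K] K) (f : (Fin k → B) →ₗ[B] B) :
    ∑ i, vc v i (f (Pi.single i 1)) = v f := by
  simp only [vc_apply]
  rw [← map_sum]
  congr 1
  refine LinearMap.ext fun y => ?_
  rw [LinearMap.sum_apply]
  have h1 : y = ∑ i, y i • (Pi.single i 1 : Fin k → B) := by
    funext j
    rw [Finset.sum_apply, Finset.sum_eq_single j]
    · rw [Pi.smul_apply, Pi.single_eq_same, smul_eq_mul, mul_one]
    · intro i _ hi
      rw [Pi.smul_apply, Pi.single_eq_of_ne hi.symm, smul_zero]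
    · intro h
      exact absurd (Finset.mem_univ j) h
  conv_rhs => rw [h1, map_sum]
  refine Finset.sum_congr rfl fun i _ => ?_
  rw [LinearMap.smulRight_apply, LinearMap.proj_apply, map_smul]

/-- the map to a free module -/
def toFree (k : ℕ) : Ind K B (Fin k → B) →ₗ[Cyc K B] (Fin k → Cyc K B) where
  toFun x i := ⟨Pi.single 0 (x.fst i), Pi.single 0 (vc x.snd i)⟩
  map_add' x y := by
    funext i
    refine Cyc.ext ?_ ?_
    · change (Pi.single 0 ((x + y).fst i) : Fin 3 → B) =
        Pi.single 0 (x.fst i) + Pi.single 0 (y.fst i)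
      rw [← Pi.single_add]
      rfl
    · change (Pi.single 0 (vc (x + y).snd i) : Fin 3 → (B →ₗ[K] K)) =
        Pi.single 0 (vc x.snd i) + Pi.single 0 (vc y.snd i)
      rw [← Pi.single_add]
      rfl
  map_smul' s x := by
    funext i
    refine Cyc.ext' (fun j => ?_) (fun j b => ?_)
    · change (Pi.single 0 ((s • x).fst i) : Fin 3 → B) j =
        s.b j * (Pi.single 0 (x.fst i) : Fin 3 → B) j
      rcases eq_or_ne j 0 with rfl | hj
      · rw [Pi.single_eq_same, Pi.single_eq_same]
        rfl
      · rw [Pi.single_eq_of_ne hj, Pi.single_eq_of_ne hj, mul_zero]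
    · change (Pi.single 0 (vc (s • x).snd i) : Fin 3 → (B →ₗ[K] K)) j b =
        (Pi.single 0 (vc x.snd i) : Fin 3 → (B →ₗ[K] K)) j (b * s.b (j + 1)) +
          s.q j ((Pi.single 0 (x.fst i) : Fin 3 → B) j * b)
      rcases eq_or_ne j 0 with rfl | hj
      · rw [Pi.single_eq_same, Pi.single_eq_same, Pi.single_eq_same, vc_apply, vc_apply,
          smul_snd_apply, smulRight_smulRight]
        rfl
      · rw [Pi.single_eq_of_ne hj, Pi.single_eq_of_ne hj, Pi.single_eq_of_ne hj, zero_mul,
          map_zero, LinearMap.zero_apply, LinearMap.zero_apply, add_zero]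

/-- the map from a free module -/
def ofFree (k : ℕ) : (Fin k → Cyc K B) →ₗ[Cyc K B] Ind K B (Fin k → B) where
  toFun s := ∑ i, s i • (⟨Pi.single i 1, 0⟩ : Ind K B (Fin k → B))
  map_add' s t := by
    rw [← Finset.sum_add_distrib]
    exact Finset.sum_congr rfl fun i _ => add_smul _ _ _
  map_smul' c s := by
    rw [RingHom.id_apply, Finset.smul_sum]
    exact Finset.sum_congr rfl fun i _ => mul_smul _ _ _

theorem sum_fst {ι : Type} (t : Finset ι) (F : ι → Ind K B M) :
    (∑ i ∈ t, F i).fst = ∑ i ∈ t, (F i).fst := by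
  classical
  induction t using Finset.induction_on with
  | empty => rfl
  | insert a t ha ih => rw [Finset.sum_insert ha, Finset.sum_insert ha, add_fst, ih]

theorem sum_snd {ι : Type} (t : Finset ι) (F : ι → Ind K B M) :
    (∑ i ∈ t, F i).snd = ∑ i ∈ t, (F i).snd := by
  classical
  induction t using Finset.induction_on with
  | empty => rfl
  | insert a t ha ih => rw [Finset.sum_insert ha, Finset.sum_insert ha, add_snd, ih]

theorem of_to (k : ℕ) (x : Ind K B (Fin k → B)) : ofFree k (toFree k x) = x := by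
  refine ext' ?_ fun f => ?_
  · change (∑ i, toFree k x i • (⟨Pi.single i 1, 0⟩ : Ind K B (Fin k → B))).fst = _
    rw [sum_fst]
    funext j
    rw [Finset.sum_apply, Finset.sum_eq_single j]
    · change ((Pi.single 0 (x.fst j) : Fin 3 → B) 0 • (Pi.single j 1 : Fin k → B)) j = _
      rw [Pi.single_eq_same, Pi.smul_apply, Pi.single_eq_same, smul_eq_mul, mul_one]
    · intro i _ hi
      change ((Pi.single 0 (x.fst i) : Fin 3 → B) 0 • (Pi.single i 1 : Fin k → B)) j = _
      rw [Pi.smul_apply, Pi.single_eq_of_ne hi.symm, smul_zero]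
    · intro h
      exact absurd (Finset.mem_univ j) h
  · change (∑ i, toFree k x i • (⟨Pi.single i 1, 0⟩ : Ind K B (Fin k → B))).snd f = _
    rw [sum_snd, LinearMap.sum_apply, ← vc_sum x.snd f]
    refine Finset.sum_congr rfl fun i _ => ?_
    rw [smul_snd_apply]
    change (0 : ((Fin k → B) →ₗ[B] B) →ₗ[K] K) _ +
      (Pi.single 0 (vc x.snd i) : Fin 3 → (B →ₗ[K] K)) 0 (f (Pi.single i 1)) = _
    rw [Pi.single_eq_same, LinearMap.zero_apply, zero_add]

end IndBAux

open IndBAux

theorem res0_apply (g : Ind K B M →ₗ[Cyc K B] Ind K B M') (m : M) :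
    g ⟨m, 0⟩ = ⟨res0 g m, 0⟩ := by
  have h1 : g ⟨m, 0⟩ = e0 K B • g ⟨m, 0⟩ := by
    rw [← map_smul, e0_smul]
  refine ext' rfl fun f => ?_
  rw [h1, e0_snd]

/-- An `S`-linear map between induced modules is induced, if the source is induced from a free
module. -/
theorem eq_map {k : ℕ} (g : Ind K B (Fin k → B) →ₗ[Cyc K B] Ind K B M) : g = map (res0 g) := by
  refine LinearMap.ext fun x => ?_
  rw [← of_to k x]
  change g (∑ i, toFree k x i • (⟨Pi.single i 1, 0⟩ : Ind K B (Fin k → B))) =
    map (res0 g) (∑ i, toFree k x i • (⟨Pi.single i 1, 0⟩ : Ind K B (Fin k → B)))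
  rw [map_sum, map_sum]
  refine Finset.sum_congr rfl fun i _ => ?_
  rw [_root_.map_smul, _root_.map_smul, res0_apply]
  congr 1

/-- `Ind` of a free module is projective. -/
theorem projective (k : ℕ) : Module.Projective (Cyc K B) (Ind K B (Fin k → B)) :=
  Module.Projective.of_split (toFree k) (ofFree k) (LinearMap.ext fun x => of_to k x)

/-- `Ind` of a free module is finitely generated. -/
theorem finite (k : ℕ) : Module.Finite (Cyc K B) (Ind K B (Fin k → B)) :=
  Module.Finite.of_surjective (ofFree k) fun x => ⟨toFree k x, of_to k x⟩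

/-- `Ind` of a finitely generated module is finitely generated. -/
theorem finite' [Module.Finite B M] : Module.Finite (Cyc K B) (Ind K B M) := by
  obtain ⟨k, f, hf⟩ := Module.Finite.exists_fin' B M
  have := finite (K := K) (B := B) k
  exact Module.Finite.of_surjective (map f) (map_surjective f hf)

/-- If `Ind M` is projective, then `M` is projective. -/
theorem projective_of_ind (h : Module.Projective (Cyc K B) (Ind K B M)) :
    Module.Projective B M := by
  have hs : Function.Surjective (Finsupp.linearCombination B (id : M → M)) :=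
    Finsupp.linearCombination_id_surjective B M
  obtain ⟨t, ht⟩ := Module.projective_lifting_property
    (map (Finsupp.linearCombination B (id : M → M)) :
      Ind K B (M →₀ B) →ₗ[Cyc K B] Ind K B M) LinearMap.id (map_surjective _ hs)
  refine Module.Projective.of_split (res0 t) (Finsupp.linearCombination B (id : M → M))
    (LinearMap.ext fun m => ?_)
  have h1 := congrArg Ind.fst (LinearMap.congr_fun ht (⟨m, 0⟩ : Ind K B M))
  exact h1

/-- A map from `Ind` of a free module to an induced module that is semilinear with respect to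
the shift is zero. -/
theorem semilinear_zero {k : ℕ} (g : Ind K B (Fin k → B) →ₛₗ[Cyc.shift (K := K) (B := B)] Ind K B M) :
    g = 0 := by
  have h0 : ∀ m : Fin k → B, g ⟨m, 0⟩ = 0 := by
    intro m
    have h1 : g ⟨m, 0⟩ = Cyc.shift (e0 K B) • g ⟨m, 0⟩ := by
      rw [← LinearMap.map_smulₛₗ, e0_smul]
    rw [h1]
    refine ext' ?_ fun f => ?_
    · rw [smul_fst, Cyc.shift_b]
      change (Pi.single 0 1 : Fin 3 → B) 1 • _ = (0 : M)
      rw [Pi.single_eq_of_ne (by decide), zero_smul]
    · rw [smul_snd_apply, Cyc.shift_b, Cyc.shift_q]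
      change _ + (0 : B →ₗ[K] K) _ = (0 : (M →ₗ[B] B) →ₗ[K] K) f
      have h2 : (e0 K B).b (1 + 1) = 0 := by
        change (Pi.single 0 1 : Fin 3 → B) (1 + 1) = 0
        exact Pi.single_eq_of_ne (by decide) _
      rw [h2, smulRight_zero, map_zero, LinearMap.zero_apply, LinearMap.zero_apply, add_zero]
  refine LinearMap.ext fun x => ?_
  rw [← of_to k x]
  change g (∑ i, toFree k x i • (⟨Pi.single i 1, 0⟩ : Ind K B (Fin k → B))) = 0
  rw [map_sum]
  refine Finset.sum_eq_zero fun i _ => ?_
  rw [LinearMap.map_smulₛₗ, h0, smul_zero]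

end Ind

end Pool.Agent.Lib.P5dc868
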