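import Mathlib
import Pool.Agent.Lib.P5dc868.Defs

/-!
# Ext vanishing and resolutions (MP_5dc868_al)
-/

namespace Pool.Agent.Lib.P5dc868

open CategoryTheory Abelian

variable {R : Type} [Ring R]

/-- Dimension shift: `0 → ker π → P → M → 0`, `P` projective, `Ext^i(M, Y) = 0` for `i ≥ 1`. -/
theorem ExtZero.ker {M P Y : Type} [AddCommGroup M] [Module R M] [AddCommGroup P] [Module R P]
    [AddCommGroup Y] [Module R Y] [Module.Projective R P] (π : P →ₗ[R] M)
    (hπ : Function.Surjective π) (h : ExtZero R M Y) : ExtZero R (LinearMap.ker π) Y := by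
  intro i hi
  obtain ⟨j, rfl⟩ : ∃ j, i = j + 1 := ⟨i - 1, by omega⟩
  refine subsingleton_of_forall_eq 0 fun x₁ => ?_
  have hS := LinearMap.shortExact_shortComplexKer hπ
  have hsub : Subsingleton (Ext (ModuleCat.of R M) (ModuleCat.of R Y) (1 + (j + 1))) :=
    h _ (by omega)
  obtain ⟨x₂, hx₂⟩ := Ext.contravariant_sequence_exact₁ hS (ModuleCat.of R Y) x₁
    (n₁ := 1 + (j + 1)) rfl (Subsingleton.elim _ _)
  have h2 : x₂ = 0 := Ext.eq_zero_of_projective x₂
  rw [← hx₂, h2, Ext.comp_zero]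

/-- Extension of maps from the first syzygy if `Ext^1` vanishes. -/
theorem ExtZero.extend {M P Y : Type} [AddCommGroup M] [Module R M] [AddCommGroup P]
    [Module R P] [AddCommGroup Y] [Module R Y] (π : P →ₗ[R] M)
    (hπ : Function.Surjective π) (h : ExtZero R M Y) (f : LinearMap.ker π →ₗ[R] Y) :
    ∃ g : P →ₗ[R] Y, ∀ x : LinearMap.ker π, g x = f x := by
  have hS := LinearMap.shortExact_shortComplexKer hπ
  have hsub : Subsingleton (Ext (ModuleCat.of R M) (ModuleCat.of R Y) (1 + 0)) :=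
    h _ (by omega)
  obtain ⟨x₂, hx₂⟩ := Ext.contravariant_sequence_exact₁ hS (ModuleCat.of R Y)
    (Ext.mk₀ (ModuleCat.ofHom f)) (n₁ := 1 + 0) rfl (Subsingleton.elim _ _)
  obtain ⟨g, rfl⟩ := (Ext.mk₀_bijective _ _).2 x₂
  rw [Ext.mk₀_comp_mk₀] at hx₂
  have h3 := (Ext.mk₀_bijective _ _).1 hx₂
  refine ⟨g.hom, fun x => ?_⟩
  have h4 := congrArg (fun φ => φ.hom x) h3
  simpa using h4

private theorem res_aux {Y : Type} [AddCommGroup Y] [Module R Y] (i : ℕ) :
    ∀ {M : Type} [AddCommGroup M] [Module R M]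
    (P : ℕ → Type) [∀ n, AddCommGroup (P n)] [∀ n, Module R (P n)]
    (_ : ∀ n, Module.Projective R (P n)) (ε : P 0 →ₗ[R] M) (d : ∀ n, P (n + 1) →ₗ[R] P n)
    (_ : Function.Surjective ε) (_ : ∀ x : P 0, ε x = 0 ↔ ∃ y, d 0 y = x)
    (_ : ∀ n (x : P (n + 1)), d n x = 0 ↔ ∃ y, d (n + 1) y = x)
    (_ : ∀ n (f : P (n + 1) →ₗ[R] Y), (∀ y, f (d (n + 1) y) = 0) →
      ∃ g : P n →ₗ[R] Y, ∀ x, g (d n x) = f x),
    Subsingleton (Ext (ModuleCat.of R M) (ModuleCat.of R Y) (i + 1)) := by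
  induction i with
  | zero =>
    intro M _ _ P _ _ hP ε d hε h0 hd hY
    have hS := LinearMap.shortExact_shortComplexKer hε
    refine subsingleton_of_forall_eq 0 fun x₃ => ?_
    have := hP 0
    obtain ⟨x₁, hx₁⟩ := Ext.contravariant_sequence_exact₃ hS (ModuleCat.of R Y) x₃
      (n₀ := 0) (Ext.eq_zero_of_projective _) (by omega)
    obtain ⟨f, rfl⟩ := (Ext.mk₀_bijective _ _).2 x₁
    let c : P 1 →ₗ[R] LinearMap.ker ε := (d 0).codRestrict (LinearMap.ker ε)
      (fun x => (h0 _).2 ⟨x, rfl⟩)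
    obtain ⟨g, hg⟩ := hY 0 (f.hom ∘ₗ c) (fun y => by
      have : c (d 1 y) = 0 := Subtype.ext ((hd 0 _).2 ⟨y, rfl⟩)
      simp [this])
    have hfg : f = ModuleCat.ofHom (LinearMap.ker ε).subtype ≫ ModuleCat.ofHom g := by
      ext x
      obtain ⟨y, hy⟩ := (h0 x.1).1 x.2
      have hx : x = c y := Subtype.ext hy.symm
      have h5 := hg y
      rw [hx]
      exact h5.symm
    rw [← hx₁, hfg, ← Ext.mk₀_comp_mk₀]
    exact hS.extClass_comp_assoc _
  | succ i ih =>
    intro M _ _ P _ _ hP ε d hε h0 hd hY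
    have hS := LinearMap.shortExact_shortComplexKer hε
    refine subsingleton_of_forall_eq 0 fun x₃ => ?_
    have := hP 0
    obtain ⟨x₁, hx₁⟩ := Ext.contravariant_sequence_exact₃ hS (ModuleCat.of R Y) x₃
      (n₀ := i + 1) (Ext.eq_zero_of_projective _) (by omega)
    let c : P 1 →ₗ[R] LinearMap.ker ε := (d 0).codRestrict (LinearMap.ker ε)
      (fun x => (h0 _).2 ⟨x, rfl⟩)
    have hsub : Subsingleton (Ext (ModuleCat.of R (LinearMap.ker ε)) (ModuleCat.of R Y)
        (i + 1)) := by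
      refine ih (fun n => P (n + 1)) (fun n => hP (n + 1)) c (fun n => d (n + 1)) ?_ ?_ ?_ ?_
      · intro x
        obtain ⟨y, hy⟩ := (h0 x.1).1 x.2
        exact ⟨y, Subtype.ext hy⟩
      · intro x
        rw [← hd 0 x]
        exact ⟨fun h => congrArg Subtype.val h, fun h => Subtype.ext h⟩
      · exact fun n x => hd (n + 1) x
      · exact fun n f hf => hY (n + 1) f hf
    have h1 : x₁ = 0 := Subsingleton.elim _ _
    rw [← hx₁, h1, Ext.comp_zero]

/-- `Ext^i(M, Y) = 0` for `i ≥ 1` from a projective resolution `P` of `M` with `Hom(P, Y)` exact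
in positive degrees. -/
theorem extZero_of_res {M Y : Type} [AddCommGroup M] [Module R M] [AddCommGroup Y] [Module R Y]
    (P : ℕ → Type) [∀ n, AddCommGroup (P n)] [∀ n, Module R (P n)]
    (hP : ∀ n, Module.Projective R (P n)) (ε : P 0 →ₗ[R] M) (d : ∀ n, P (n + 1) →ₗ[R] P n)
    (hε : Function.Surjective ε) (h0 : ∀ x : P 0, ε x = 0 ↔ ∃ y, d 0 y = x)
    (hd : ∀ n (x : P (n + 1)), d n x = 0 ↔ ∃ y, d (n + 1) y = x)
    (hY : ∀ n (f : P (n + 1) →ₗ[R] Y), (∀ y, f (d (n + 1) y) = 0) →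
      ∃ g : P n →ₗ[R] Y, ∀ x, g (d n x) = f x) : ExtZero R M Y := by
  intro i hi
  obtain ⟨j, rfl⟩ : ∃ j, i = j + 1 := ⟨i - 1, by omega⟩
  exact res_aux j P hP ε d hε h0 hd hY

/-- `Ext^i(M, Y) = 0` for `i ≥ 1` if `Y` is injective. -/
theorem extZero_of_injective {M Y : Type} [AddCommGroup M] [Module R M] [AddCommGroup Y]
    [Module R Y] (h : Module.Injective R Y) : ExtZero R M Y := by
  intro i hi
  obtain ⟨j, rfl⟩ : ∃ j, i = j + 1 := ⟨i - 1, by omega⟩
  have := (Module.injective_iff_injective_object R Y).1 h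
  exact subsingleton_of_forall_eq 0 fun x => Ext.eq_zero_of_injective x

end Pool.Agent.Lib.P5dc868
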