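import Mathlib
import Pool.Agent.Lib.P5dc868.Defs
import Pool.Agent.Lib.P5dc868.ExtA

/-!
# Free resolutions over finite-dimensional algebras (MP_5dc868_al)
-/

namespace Pool.Agent.Lib.P5dc868

namespace ResAux

variable (B : Type) [Ring B]

/-- A submodule of a finitely generated free module. -/
structure St where
  k : ℕ
  S : Submodule B (Fin k → B)

variable {B}

theorem exists_surj [IsNoetherianRing B] (s : St B) :
    ∃ (k : ℕ) (f : (Fin k → B) →ₗ[B] s.S), Function.Surjective f :=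
  Module.Finite.exists_fin' B s.S

/-- The number of generators. -/
noncomputable def nk [IsNoetherianRing B] (s : St B) : ℕ := (exists_surj s).choose

/-- The covering map. -/
noncomputable def F [IsNoetherianRing B] (s : St B) : (Fin (nk s) → B) →ₗ[B] s.S :=
  (exists_surj s).choose_spec.choose

theorem F_surj [IsNoetherianRing B] (s : St B) : Function.Surjective (F s) :=
  (exists_surj s).choose_spec.choose_spec

/-- The next syzygy. -/
noncomputable def next [IsNoetherianRing B] (s : St B) : St B := ⟨nk s, LinearMap.ker (F s)⟩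

/-- The syzygies. -/
noncomputable def seq [IsNoetherianRing B] (s : St B) : ℕ → St B
  | 0 => s
  | n + 1 => next (seq s n)

/-- The differentials. -/
noncomputable def dd [IsNoetherianRing B] (s : St B) (n : ℕ) :
    (Fin (seq s (n + 1)).k → B) →ₗ[B] (Fin (seq s n).k → B) :=
  (seq s n).S.subtype ∘ₗ F (seq s n)

theorem mem_iff [IsNoetherianRing B] (s : St B) (n : ℕ) (x : Fin (seq s n).k → B) :
    x ∈ (seq s n).S ↔ ∃ y, dd s n y = x := by
  constructor
  · intro hx
    obtain ⟨y, hy⟩ := F_surj (seq s n) ⟨x, hx⟩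
    exact ⟨y, congrArg Subtype.val hy⟩
  · rintro ⟨y, rfl⟩
    exact (F (seq s n) y).2

theorem dd_zero_iff [IsNoetherianRing B] (s : St B) (n : ℕ) (x : Fin (seq s (n + 1)).k → B) :
    dd s n x = 0 ↔ x ∈ (seq s (n + 1)).S := by
  have h : ∀ x : Fin (nk (seq s n)) → B,
      ((seq s n).S.subtype ∘ₗ F (seq s n)) x = 0 ↔ x ∈ LinearMap.ker (F (seq s n)) := by
    intro x
    rw [LinearMap.mem_ker]
    exact ⟨fun h => Subtype.ext h, fun h => congrArg Subtype.val h⟩
  exact h x

/-- extension from the `n`-th syzygy -/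
def Ext1 [IsNoetherianRing B] (s : St B) (n : ℕ) (Y : Type) [AddCommGroup Y] [Module B Y] : Prop :=
  ∀ f : (seq s n).S →ₗ[B] Y, ∃ g : (Fin (seq s n).k → B) →ₗ[B] Y, ∀ x : (seq s n).S, g x = f x

theorem ext_all [IsNoetherianRing B] (s : St B) (Y : Type) [AddCommGroup Y] [Module B Y]
    (h0 : ExtZero B s.S Y) (h1 : Ext1 s 0 Y) (n : ℕ) :
    ExtZero B (seq s n).S Y ∧ Ext1 s n Y := by
  induction n with
  | zero => exact ⟨h0, h1⟩
  | succ n ih =>
    exact ⟨ExtZero.ker (F (seq s n)) (F_surj _) ih.1,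
      fun f => ExtZero.extend (F (seq s n)) (F_surj _) ih.1 f⟩

theorem factor_aux {P S Y : Type} [AddCommGroup P] [Module B P] [AddCommGroup S] [Module B S]
    [AddCommGroup Y] [Module B Y] (F : P →ₗ[B] S) (hF : Function.Surjective F) (f : P →ₗ[B] Y)
    (hker : ∀ x, F x = 0 → f x = 0) : ∃ f' : S →ₗ[B] Y, ∀ x, f' (F x) = f x := by
  have hk : LinearMap.ker F ≤ LinearMap.ker f := fun x hx =>
    LinearMap.mem_ker.2 (hker x (LinearMap.mem_ker.1 hx))
  refine ⟨(Submodule.liftQ (LinearMap.ker F) f hk) ∘ₗ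
    ((F.quotKerEquivOfSurjective hF).symm : S →ₗ[B] _), fun x => ?_⟩
  have h3 : (F.quotKerEquivOfSurjective hF).symm (F x) = Submodule.Quotient.mk x := by
    rw [LinearEquiv.symm_apply_eq]
    rfl
  change (Submodule.liftQ (LinearMap.ker F) f hk) ((F.quotKerEquivOfSurjective hF).symm (F x)) =
    f x
  rw [h3]
  exact Submodule.liftQ_apply _ _ _

theorem factor [IsNoetherianRing B] (s : St B) (Y : Type) [AddCommGroup Y] [Module B Y] (n : ℕ)
    (h : Ext1 s n Y) (f : (Fin (seq s (n + 1)).k → B) →ₗ[B] Y)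
    (hf : ∀ y, f (dd s (n + 1) y) = 0) :
    ∃ g : (Fin (seq s n).k → B) →ₗ[B] Y, ∀ x, g (dd s n x) = f x := by
  have hker : ∀ x : Fin (seq s (n + 1)).k → B, F (seq s n) x = 0 → f x = 0 := by
    intro x hx
    obtain ⟨y, hy⟩ := (mem_iff s (n + 1) x).1 hx
    rw [← hy]
    exact hf y
  obtain ⟨f', hf'⟩ := factor_aux (F (seq s n)) (F_surj _) f hker
  obtain ⟨g, hg⟩ := h f'
  exact ⟨g, fun x => (hg (F (seq s n) x)).trans (hf' x)⟩

end ResAux

/-- Every finitely generated module over a finite-dimensional algebra has a resolution by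
finitely generated free modules, and `Hom` of it into `Y` is exact in positive degrees if
`Ext^i(M, Y) = 0` for all `i ≥ 1`. -/
theorem exists_res (K : Type) [Field K] {B : Type} [Ring B] [Algebra K B] [FiniteDimensional K B]
    (M : Type) [AddCommGroup M] [Module B M] [Module.Finite B M] :
    ∃ (k : ℕ → ℕ) (ε : (Fin (k 0) → B) →ₗ[B] M)
      (d : ∀ n, (Fin (k (n + 1)) → B) →ₗ[B] (Fin (k n) → B)),
      Function.Surjective ε ∧ (∀ x, ε x = 0 ↔ ∃ y, d 0 y = x) ∧
      (∀ n x, d n x = 0 ↔ ∃ y, d (n + 1) y = x) ∧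
      ∀ (Y : Type) [AddCommGroup Y] [Module B Y], ExtZero B M Y →
        ∀ n (f : (Fin (k (n + 1)) → B) →ₗ[B] Y), (∀ y, f (d (n + 1) y) = 0) →
          ∃ g : (Fin (k n) → B) →ₗ[B] Y, ∀ x, g (d n x) = f x := by
  have hK : IsNoetherian K B := inferInstance
  have hB : IsNoetherianRing B := isNoetherian_of_tower K hK
  obtain ⟨k0, ε, hε⟩ := Module.Finite.exists_fin' B M
  let s : ResAux.St B := ⟨k0, LinearMap.ker ε⟩
  refine ⟨fun n => (ResAux.seq s n).k, ε, ResAux.dd s, hε, ?_, ?_, ?_⟩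
  · intro x
    exact ResAux.mem_iff s 0 x
  · intro n x
    exact (ResAux.dd_zero_iff s n x).trans (ResAux.mem_iff s (n + 1) x)
  · intro Y _ _ hY n f hf
    have h0 : ExtZero B s.S Y := ExtZero.ker ε hε hY
    have h1 : ResAux.Ext1 s 0 Y := fun f => ExtZero.extend ε hε hY f
    exact ResAux.factor s Y n (ResAux.ext_all s Y h0 h1 n).2 f hf

end Pool.Agent.Lib.P5dc868
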