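import Mathlib
import Pool.Agent.Lib.P5dc868.IndB
import Pool.Agent.Lib.P5dc868.Res

/-!
# The resolution of an induced module (MP_5dc868_al)

`B` is a finite-dimensional algebra, `M` is a finitely generated module with
`Ext^i(M, M) = 0 = Ext^i(M, B)` for `i ≥ 1`.
-/

namespace Pool.Agent.Lib.P5dc868

namespace CycResAux

/-- extension along a map with values in an injective module -/
theorem ext_inj {S P Q Y : Type} [Ring S] [AddCommGroup P] [Module S P] [AddCommGroup Q]
    [Module S Q] [AddCommGroup Y] [Module S Y] (hY : Module.Injective S Y) (d : P →ₗ[S] Q)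
    (f : P →ₗ[S] Y) (h : ∀ x, d x = 0 → f x = 0) : ∃ g : Q →ₗ[S] Y, ∀ x, g (d x) = f x := by
  have hinj : Function.Injective ((LinearMap.ker d).liftQ d le_rfl) := by
    rw [← LinearMap.ker_eq_bot]
    exact Submodule.ker_liftQ_eq_bot _ _ _ le_rfl
  obtain ⟨g, hg⟩ := hY.out ((LinearMap.ker d).liftQ d le_rfl) hinj
    ((LinearMap.ker d).liftQ f (fun x hx => LinearMap.mem_ker.mpr (h x (LinearMap.mem_ker.mp hx))))
  refine ⟨g, fun x => ?_⟩
  have h1 := hg ((LinearMap.ker d).mkQ x)
  simpa using h1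

/-- factorisation through a surjection -/
theorem factor {S P Q Y : Type} [Ring S] [AddCommGroup P] [Module S P] [AddCommGroup Q]
    [Module S Q] [AddCommGroup Y] [Module S Y] (d : P →ₗ[S] Q) (hd : Function.Surjective d)
    (f : P →ₗ[S] Y) (h : ∀ x, d x = 0 → f x = 0) : ∃ g : Q →ₗ[S] Y, ∀ x, g (d x) = f x := by
  refine ⟨((LinearMap.ker d).liftQ f
    (fun x hx => LinearMap.mem_ker.mpr (h x (LinearMap.mem_ker.mp hx)))) ∘ₗ
      (d.quotKerEquivOfSurjective hd).symm.toLinearMap, fun x => ?_⟩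
  have h1 : (d.quotKerEquivOfSurjective hd).symm (d x) = (LinearMap.ker d).mkQ x := by
    rw [LinearEquiv.symm_apply_eq]
    rfl
  simp [h1]

end CycResAux

open CycResAux in
/-- The resolution of `N = Ind M` over the 3-fold trivial extension `S`: `Hom_S(P, S × N)` and the
shift-semilinear `Hom_S(P, S × N)` are exact in positive degrees. -/
theorem exists_cycRes {K B : Type} [Field K] [Ring B] [Algebra K B] [FiniteDimensional K B]
    (M : Type) [AddCommGroup M] [Module B M] [Module.Finite B M] (hM : ExtZero B M M)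
    (hB : ExtZero B M B) :
    ∃ (k : ℕ → ℕ) (ε : Ind K B (Fin (k 0) → B) →ₗ[Cyc K B] Ind K B M)
      (d : ∀ n, Ind K B (Fin (k (n + 1)) → B) →ₗ[Cyc K B] Ind K B (Fin (k n) → B)),
      Function.Surjective ε ∧ (∀ x, ε x = 0 ↔ ∃ y, d 0 y = x) ∧
      (∀ n x, d n x = 0 ↔ ∃ y, d (n + 1) y = x) ∧
      (∀ n (f : Ind K B (Fin (k (n + 1)) → B) →ₗ[Cyc K B] Cyc K B × Ind K B M),
        (∀ y, f (d (n + 1) y) = 0) →
        ∃ g : Ind K B (Fin (k n) → B) →ₗ[Cyc K B] Cyc K B × Ind K B M,
          ∀ x, g (d n x) = f x) ∧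
      (∀ n (f : Ind K B (Fin (k (n + 1)) → B) →ₛₗ[Cyc.shift (K := K) (B := B)]
          Cyc K B × Ind K B M),
        (∀ y, f (d (n + 1) y) = 0) →
        ∃ g : Ind K B (Fin (k n) → B) →ₛₗ[Cyc.shift (K := K) (B := B)] Cyc K B × Ind K B M,
          ∀ x, g (d n x) = f x) := by
  obtain ⟨k, ε, d, hε, h0, hd, hY⟩ := exists_res K (B := B) M
  have hYM := hY M hM
  have hYB := hY B hB
  have hinj : Module.Injective (Cyc K B) (Cyc K B) := (Cyc.frob (K := K) (B := B)).left_injective
  refine ⟨k, Ind.map ε, fun n => Ind.map (d n), Ind.map_surjective ε hε, ?_, ?_, ?_, ?_⟩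
  · intro x
    apply Ind.map_exact (d 0) ε h0
    intro f hf
    exact factor ε hε f (fun x hx => by
      obtain ⟨y, rfl⟩ := (h0 x).mp hx
      exact hf y)
  · intro n x
    exact Ind.map_exact (d (n + 1)) (d n) (hd n) (fun f hf => hYB n f hf) x
  · intro n f hf
    -- the component in `S`
    obtain ⟨gS, hgS⟩ := ext_inj hinj (Ind.map (K := K) (d n))
      ((LinearMap.fst (Cyc K B) (Cyc K B) (Ind K B M)) ∘ₗ f) (fun x hx => by
        obtain ⟨y, rfl⟩ := (Ind.map_exact (K := K) (d (n + 1)) (d n) (hd n)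
          (fun f hf => hYB n f hf) x).mp hx
        rw [LinearMap.comp_apply, hf y, map_zero])
    -- the component in `N`
    have hfM := Ind.eq_map ((LinearMap.snd (Cyc K B) (Cyc K B) (Ind K B M)) ∘ₗ f)
    set φ := Ind.res0 ((LinearMap.snd (Cyc K B) (Cyc K B) (Ind K B M)) ∘ₗ f) with hφ
    have hφ0 : ∀ y, φ (d (n + 1) y) = 0 := by
      intro y
      have h1 : (Ind.map (K := K) (d (n + 1))) ⟨y, 0⟩ = ⟨d (n + 1) y, 0⟩ :=
        Ind.ext' rfl (fun f => rfl)
      have h2 := hf ⟨y, 0⟩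
      rw [h1] at h2
      show (((LinearMap.snd (Cyc K B) (Cyc K B) (Ind K B M)) ∘ₗ f) ⟨d (n + 1) y, 0⟩).fst = 0
      rw [LinearMap.comp_apply, h2, map_zero]
      rfl
    obtain ⟨g0, hg0⟩ := hYM n φ hφ0
    refine ⟨gS.prod (Ind.map g0), fun x => ?_⟩
    have h3 : g0 ∘ₗ d n = φ := LinearMap.ext hg0
    apply Prod.ext
    · exact hgS x
    · show Ind.map g0 (Ind.map (d n) x) = (f x).2
      rw [Ind.map_comp, h3, ← hfM]
      rfl
  · intro n f hf
    -- the linear map `ρ ∘ f_S`
    let fL : Ind K B (Fin (k (n + 1)) → B) →ₗ[Cyc K B] Cyc K B :=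
      { toFun := fun x => Cyc.shift (Cyc.shift (f x).1)
        map_add' := fun x y => by
          rw [map_add, Prod.fst_add, map_add, map_add]
        map_smul' := fun s x => by
          rw [LinearMap.map_smulₛₗ, Prod.smul_fst, smul_eq_mul, map_mul, map_mul,
            Cyc.shift_cube, RingHom.id_apply, smul_eq_mul] }
    obtain ⟨gL, hgL⟩ := ext_inj hinj (Ind.map (K := K) (d n)) fL (fun x hx => by
        obtain ⟨y, rfl⟩ := (Ind.map_exact (K := K) (d (n + 1)) (d n) (hd n)
          (fun f hf => hYB n f hf) x).mp hx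
        show Cyc.shift (Cyc.shift (f _).1) = 0
        rw [hf y, Prod.fst_zero, map_zero, map_zero])
    let fM : Ind K B (Fin (k (n + 1)) → B) →ₛₗ[Cyc.shift (K := K) (B := B)] Ind K B M :=
      { toFun := fun x => (f x).2
        map_add' := fun x y => by rw [map_add, Prod.snd_add]
        map_smul' := fun s x => by rw [LinearMap.map_smulₛₗ, Prod.smul_snd] }
    have hfM : fM = 0 := Ind.semilinear_zero fM
    let g : Ind K B (Fin (k n) → B) →ₛₗ[Cyc.shift (K := K) (B := B)] Cyc K B × Ind K B M :=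
      { toFun := fun x => (Cyc.shift (gL x), 0)
        map_add' := fun x y => by
          rw [map_add, map_add, Prod.mk_add_mk, add_zero]
        map_smul' := fun s x => by
          rw [LinearMap.map_smul, smul_eq_mul, map_mul, Prod.smul_mk, smul_zero, smul_eq_mul] }
    refine ⟨g, fun x => ?_⟩
    apply Prod.ext
    · show Cyc.shift (gL (Ind.map (d n) x)) = (f x).1
      rw [hgL x]
      exact Cyc.shift_cube _
    · show (0 : Ind K B M) = fM x
      rw [hfM]
      rfl

end Pool.Agent.Lib.P5dc868
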