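import Mathlib
import Pool.Agent.Lib.P5dc868.Defs

/-!
# The module `D(A)` (MP_5dc868_al)
-/

namespace Pool.Agent.Lib.P5dc868

variable {K A : Type} [Field K] [Ring A] [Algebra K A]

/-- `D(A)` is an injective left `A`-module. -/
theorem DL.injective : Module.Injective A (DL K A) := by
  constructor
  intro X Y _ _ _ _ f hf g
  letI mX : Module K X := Module.compHom X (algebraMap K A)
  letI mY : Module K Y := Module.compHom Y (algebraMap K A)
  have hX : ∀ (c : K) (x : X), c • x = algebraMap K A c • x := fun _ _ => rfl
  have hY : ∀ (c : K) (y : Y), c • y = algebraMap K A c • y := fun _ _ => rfl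
  let fK : X →ₗ[K] Y :=
    { toFun := f
      map_add' := fun a b => _root_.map_add f a b
      map_smul' := by
        intro c x
        simp only [hX, hY, RingHom.id_apply]
        exact _root_.map_smul f _ _ }
  have hker : LinearMap.ker fK = ⊥ := by
    rw [LinearMap.ker_eq_bot]
    exact hf
  obtain ⟨ρ, hρ⟩ := fK.exists_leftInverse_of_injective hker
  have hρ' : ∀ x, ρ (f x) = x := fun x => LinearMap.congr_fun hρ x
  let h : Y → DL K A := fun y =>
    show A →ₗ[K] K from
    { toFun := fun a => g (ρ (a • y)) 1
      map_add' := by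
        intro a b
        rw [add_smul, _root_.map_add, _root_.map_add, DL.add_apply]
      map_smul' := by
        intro c a
        have e1 : (c • a) • y = c • (a • y) := by
          rw [hY, Algebra.smul_def, mul_smul]
        rw [e1, _root_.map_smul, hX, _root_.map_smul, DL.smul_apply, one_mul, RingHom.id_apply]
        rw [Algebra.algebraMap_eq_smul_one, DL.map_smul]
        rfl }
  have hh : ∀ y a, h y a = g (ρ (a • y)) 1 := fun _ _ => rfl
  refine ⟨{ toFun := h, map_add' := ?_, map_smul' := ?_ }, ?_⟩
  · intro y z
    apply DL.ext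
    intro a
    rw [DL.add_apply, hh, hh, hh, smul_add, _root_.map_add, _root_.map_add, DL.add_apply]
  · intro b y
    apply DL.ext
    intro a
    rw [RingHom.id_apply, DL.smul_apply, hh, hh, mul_smul]
  · intro x
    apply DL.ext
    intro a
    change h (f x) a = g x a
    rw [hh, ← _root_.map_smul f, hρ', _root_.map_smul, DL.smul_apply, one_mul]

/-- If the left module `D(A)` is projective, then the right regular module is injective. -/
theorem right_injective_of_projective [FiniteDimensional K A]
    (h : Module.Projective A (DL K A)) : Module.Injective Aᵐᵒᵖ A := by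
  obtain ⟨s, hs⟩ := h
  have hs' : ∀ φ : DL K A, ((s φ).sum fun χ a => a • χ) = φ := by
    intro φ
    have := hs φ
    rwa [Finsupp.linearCombination_apply] at this
  have hsum : ∀ (φ : DL K A) (x : A), φ x = (s φ).sum fun χ a => χ (x * a) := by
    intro φ x
    conv_lhs => rw [← hs' φ]
    rw [Finsupp.sum, Finsupp.sum]
    have key : ∀ (t : Finset (DL K A)) (F : DL K A → DL K A),
        (∑ χ ∈ t, F χ) x = ∑ χ ∈ t, (F χ) x := by
      intro t F
      classical
      induction t using Finset.induction_on with
      | empty => rfl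
      | insert a t ha ih =>
        rw [Finset.sum_insert ha, Finset.sum_insert ha, DL.add_apply, ih]
    rw [key]
    rfl
  constructor
  intro X Y _ _ _ _ f hf g
  letI mX : Module K X := Module.compHom X (algebraMap K Aᵐᵒᵖ)
  letI mY : Module K Y := Module.compHom Y (algebraMap K Aᵐᵒᵖ)
  have hX : ∀ (c : K) (x : X), c • x = algebraMap K Aᵐᵒᵖ c • x := fun _ _ => rfl
  have hY : ∀ (c : K) (y : Y), c • y = algebraMap K Aᵐᵒᵖ c • y := fun _ _ => rfl
  have hA : ∀ (c : K) (x : A), c • x = algebraMap K Aᵐᵒᵖ c • x := by
    intro c x
    rw [MulOpposite.algebraMap_apply, op_smul_eq_mul, ← Algebra.commutes,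
      Algebra.smul_def]
  let fK : X →ₗ[K] Y :=
    { toFun := f
      map_add' := fun a b => map_add f a b
      map_smul' := by
        intro c x
        simp only [hX, hY, RingHom.id_apply]
        exact map_smul f _ _ }
  have hker : LinearMap.ker fK = ⊥ := by
    rw [LinearMap.ker_eq_bot]
    exact hf
  obtain ⟨ρ, hρ⟩ := fK.exists_leftInverse_of_injective hker
  have hρ' : ∀ x, ρ (f x) = x := fun x => LinearMap.congr_fun hρ x
  let gK : X →ₗ[K] A :=
    { toFun := g
      map_add' := fun a b => map_add g a b
      map_smul' := by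
        intro c x
        simp only [hX, RingHom.id_apply]
        rw [hA]
        exact map_smul g _ _ }
  -- the functional `B χ y a`
  let B : DL K A → Y → A → K := fun χ y a => χ (gK (ρ (MulOpposite.op a • y)))
  have hBadd : ∀ χ y a b, B χ y (a + b) = B χ y a + B χ y b := by
    intro χ y a b
    change χ (gK (ρ (MulOpposite.op (a + b) • y))) = _
    rw [MulOpposite.op_add, add_smul, map_add, map_add, DL.map_add]
  have hBzero : ∀ χ y, B χ y 0 = 0 := by
    intro χ y
    have := hBadd χ y 0 0
    rw [add_zero] at this
    exact left_eq_add.mp this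
  have hBsmul : ∀ (c : K) χ y a, B χ y (c • a) = c * B χ y a := by
    intro c χ y a
    change χ (gK (ρ (MulOpposite.op (c • a) • y))) = _
    have e1 : MulOpposite.op (c • a) • y = c • (MulOpposite.op a • y) := by
      rw [hY, MulOpposite.op_smul, Algebra.smul_def, mul_smul]
    rw [e1, map_smul, map_smul, DL.map_smul]
  have hByadd : ∀ χ y z a, B χ (y + z) a = B χ y a + B χ z a := by
    intro χ y z a
    change χ (gK (ρ (MulOpposite.op a • (y + z)))) = _
    rw [smul_add, map_add, map_add, DL.map_add]
  let L : Y → (DL K A) → K := fun y φ => (s φ).sum fun χ a => B χ y a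
  have hLadd : ∀ y φ ψ, L y (φ + ψ) = L y φ + L y ψ := by
    intro y φ ψ
    change (s (φ + ψ)).sum _ = _
    rw [map_add, Finsupp.sum_add_index']
    · intro χ
      exact hBzero χ y
    · intro χ a b
      exact hBadd χ y a b
  have hksm : ∀ (c : K) (φ : DL K A), s (c • φ) = c • s φ := by
    intro c φ
    have e1 : c • φ = algebraMap K A c • φ := by
      rw [Algebra.algebraMap_eq_smul_one, smul_assoc, one_smul]
    rw [e1, map_smul]
    ext χ
    rw [Finsupp.smul_apply, Finsupp.smul_apply, smul_eq_mul, ← Algebra.smul_def]
  have hLsmul : ∀ y (c : K) φ, L y (c • φ) = c * L y φ := by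
    intro y c φ
    change (s (c • φ)).sum _ = _
    rw [hksm, Finsupp.sum_smul_index' (fun χ => hBzero χ y)]
    change (s φ).sum (fun χ a => B χ y (c • a)) = c * (s φ).sum fun χ a => B χ y a
    rw [Finsupp.mul_sum]
    apply Finsupp.sum_congr
    intro χ _
    exact hBsmul c χ y _
  let Ld : Y → Module.Dual K (Module.Dual K A) := fun y =>
    { toFun := fun φ => L y φ
      map_add' := fun φ ψ => hLadd y φ ψ
      map_smul' := fun c φ => hLsmul y c φ }
  let H : Y → A := fun y => (Module.evalEquiv K A).symm (Ld y)
  have hH : ∀ y (φ : DL K A), φ (H y) = L y φ := by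
    intro y φ
    have h1 : Module.evalEquiv K A (H y) = Ld y := LinearEquiv.apply_symm_apply _ _
    exact LinearMap.congr_fun h1 (show A →ₗ[K] K from φ)
  have hsep : ∀ a b : A, (∀ φ : DL K A, φ a = φ b) → a = b := by
    intro a b hab
    apply (Module.evalEquiv K A).injective
    apply LinearMap.ext
    intro φ
    exact hab (show DL K A from φ)
  refine ⟨{ toFun := H, map_add' := ?_, map_smul' := ?_ }, ?_⟩
  · intro y z
    apply hsep
    intro φ
    rw [DL.map_add, hH, hH, hH]
    change (s φ).sum _ = (s φ).sum _ + (s φ).sum _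
    rw [← Finsupp.sum_add]
    apply Finsupp.sum_congr
    intro χ _
    exact hByadd χ y z _
  · intro b y
    apply hsep
    intro φ
    rw [RingHom.id_apply]
    have e1 : b • H y = H y * b.unop := by
      conv_lhs => rw [← MulOpposite.op_unop b]
      rw [op_smul_eq_mul]
    rw [e1, ← DL.smul_apply, hH, hH]
    change (s φ).sum _ = (s (b.unop • φ)).sum _
    rw [map_smul, Finsupp.sum_smul_index' (fun χ => hBzero χ y)]
    apply Finsupp.sum_congr
    intro χ _
    change χ (gK (ρ (MulOpposite.op _ • (b • y)))) = χ (gK (ρ (MulOpposite.op (b.unop • _) • y)))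
    rw [smul_smul, smul_eq_mul, MulOpposite.op_mul, MulOpposite.op_unop]
  · intro x
    apply hsep
    intro φ
    change φ (H (f x)) = φ (g x)
    rw [hH, hsum φ (g x)]
    change (s φ).sum _ = _
    apply Finsupp.sum_congr
    intro χ _
    change χ (g (ρ (MulOpposite.op _ • f x))) = _
    rw [← map_smul f, hρ', map_smul, op_smul_eq_mul]

/-- `D(A)` is a finitely generated left module. -/
theorem DL.finite [FiniteDimensional K A] : Module.Finite A (DL K A) :=
  Module.Finite.of_restrictScalars_finite K A (DL K A)

end Pool.Agent.Lib.P5dc868
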