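import Mathlib
import Pool.Agent.Lib.P5dc868.Defs
import Pool.Agent.Lib.P5dc868.ExtA

/-!
# Ext vanishing from injective coresolutions (MP_5dc868_al)
-/

namespace Pool.Agent.Lib.P5dc868

open CategoryTheory Abelian

variable {R : Type} [Ring R]

namespace ExtBAux

variable {W A I C : Type} [AddCommGroup W] [Module R W] [AddCommGroup A] [Module R A]
  [AddCommGroup I] [Module R I] [AddCommGroup C] [Module R C]

/-- the short exact sequence `0 → A → I → C → 0` in the category of modules -/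
abbrev sc (ε : A →ₗ[R] I) (π : I →ₗ[R] C) (hex : ∀ x, π x = 0 ↔ ∃ a, ε a = x) :
    ShortComplex (ModuleCat.{0} R) :=
  ModuleCat.shortComplexOfCompEqZero ε π
    (LinearMap.ext fun a => (hex (ε a)).2 ⟨a, rfl⟩)

theorem sc_exact (ε : A →ₗ[R] I) (π : I →ₗ[R] C) (hε : Function.Injective ε)
    (hπ : Function.Surjective π) (hex : ∀ x, π x = 0 ↔ ∃ a, ε a = x) :
    (sc ε π hex).ShortExact :=
  ModuleCat.shortComplex_shortExact _ (fun x => hex x) hε hπ

theorem inj_obj (hI : Module.Injective R I) : Injective (ModuleCat.of R I) :=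
  (Module.injective_iff_injective_object R I).1 hI

/-- dimension shift -/
theorem step (hI : Module.Injective R I) (ε : A →ₗ[R] I) (π : I →ₗ[R] C)
    (hε : Function.Injective ε) (hπ : Function.Surjective π)
    (hex : ∀ x, π x = 0 ↔ ∃ a, ε a = x) (i : ℕ)
    (hC : Subsingleton (Ext (ModuleCat.of R W) (ModuleCat.of R C) (i + 1))) :
    Subsingleton (Ext (ModuleCat.of R W) (ModuleCat.of R A) (i + 2)) := by
  have hS := sc_exact ε π hε hπ hex
  have hinj : Injective (sc ε π hex).X₂ := inj_obj hI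
  refine subsingleton_of_forall_eq 0 fun x => ?_
  obtain ⟨y, hy⟩ := Ext.covariant_sequence_exact₁ (ModuleCat.of R W) hS x
    (Ext.eq_zero_of_injective _) (n₀ := i + 1) rfl
  have hy0 : y = 0 := Subsingleton.elim _ _
  rw [← hy, hy0, Ext.zero_comp]

/-- degree one -/
theorem step1 (hI : Module.Injective R I) (ε : A →ₗ[R] I) (π : I →ₗ[R] C)
    (hε : Function.Injective ε) (hπ : Function.Surjective π)
    (hex : ∀ x, π x = 0 ↔ ∃ a, ε a = x)
    (hC : ∀ G : W →ₗ[R] C, ∃ G' : W →ₗ[R] I, ∀ w, π (G' w) = G w) :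
    Subsingleton (Ext (ModuleCat.of R W) (ModuleCat.of R A) 1) := by
  have hS := sc_exact ε π hε hπ hex
  have hinj : Injective (sc ε π hex).X₂ := inj_obj hI
  refine subsingleton_of_forall_eq 0 fun x => ?_
  obtain ⟨y, hy⟩ := Ext.covariant_sequence_exact₁ (ModuleCat.of R W) hS x
    (Ext.eq_zero_of_injective _) (n₀ := 0) rfl
  obtain ⟨g, rfl⟩ := (Ext.mk₀_bijective _ _).2 y
  obtain ⟨G', hG'⟩ := hC g.hom
  have hg : g = ModuleCat.ofHom G' ≫ (sc ε π hex).g := by
    ext w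
    exact (hG' w).symm
  rw [← hy, hg, ← Ext.mk₀_comp_mk₀, Ext.comp_assoc_of_second_deg_zero, hS.comp_extClass,
    Ext.comp_zero]

end ExtBAux

open ExtBAux

/-- `Ext^i(W, A) = 0` for `i ≥ 1` from an injective coresolution `J` of `A` with `Hom(W, J)`
exact in positive degrees. -/
theorem extZero_of_cores {W A : Type} [AddCommGroup W] [Module R W] [AddCommGroup A] [Module R A]
    (J : ℕ → Type) [∀ n, AddCommGroup (J n)] [∀ n, Module R (J n)]
    (hJ : ∀ n, Module.Injective R (J n)) (ε : A →ₗ[R] J 0) (d : ∀ n, J n →ₗ[R] J (n + 1))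
    (hε : Function.Injective ε) (h0 : ∀ x : J 0, d 0 x = 0 ↔ ∃ a, ε a = x)
    (hd : ∀ n (x : J (n + 1)), d (n + 1) x = 0 ↔ ∃ y, d n y = x)
    (hW : ∀ n (G : W →ₗ[R] J (n + 1)), (∀ w, d (n + 1) (G w) = 0) →
      ∃ G' : W →ₗ[R] J n, ∀ w, d n (G' w) = G w) : ExtZero R W A := by
  -- the cokernel of `ε` is the kernel of `d 1`
  have key : ∀ i : ℕ, ∀ (A : Type) (_ : AddCommGroup A) (_ : Module R A)
      (J : ℕ → Type) (_ : ∀ n, AddCommGroup (J n)) (_ : ∀ n, Module R (J n))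
      (_ : ∀ n, Module.Injective R (J n)) (ε : A →ₗ[R] J 0) (d : ∀ n, J n →ₗ[R] J (n + 1))
      (_ : Function.Injective ε) (_ : ∀ x : J 0, d 0 x = 0 ↔ ∃ a, ε a = x)
      (_ : ∀ n (x : J (n + 1)), d (n + 1) x = 0 ↔ ∃ y, d n y = x)
      (_ : ∀ n (G : W →ₗ[R] J (n + 1)), (∀ w, d (n + 1) (G w) = 0) →
        ∃ G' : W →ₗ[R] J n, ∀ w, d n (G' w) = G w),
      Subsingleton (Ext (ModuleCat.of R W) (ModuleCat.of R A) (i + 1)) := by
    intro i
    induction i with
    | zero =>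
      intro A _ _ J _ _ hJ ε d hε h0 hd hW
      let π : J 0 →ₗ[R] LinearMap.ker (d 1) :=
        (d 0).codRestrict (LinearMap.ker (d 1)) fun x => (hd 0 (d 0 x)).2 ⟨x, rfl⟩
      have hπ : Function.Surjective π := by
        rintro ⟨x, hx⟩
        obtain ⟨y, hy⟩ := (hd 0 x).1 hx
        exact ⟨y, Subtype.ext hy⟩
      refine step1 (hJ 0) ε π hε hπ (fun x => ?_) fun G => ?_
      · rw [← h0]
        exact Subtype.ext_iff
      · obtain ⟨G', hG'⟩ := hW 0 ((LinearMap.ker (d 1)).subtype ∘ₗ G) fun w => (G w).2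
        exact ⟨G', fun w => Subtype.ext (hG' w)⟩
    | succ i ih =>
      intro A _ _ J _ _ hJ ε d hε h0 hd hW
      let π : J 0 →ₗ[R] LinearMap.ker (d 1) :=
        (d 0).codRestrict (LinearMap.ker (d 1)) fun x => (hd 0 (d 0 x)).2 ⟨x, rfl⟩
      have hπ : Function.Surjective π := by
        rintro ⟨x, hx⟩
        obtain ⟨y, hy⟩ := (hd 0 x).1 hx
        exact ⟨y, Subtype.ext hy⟩
      refine step (hJ 0) ε π hε hπ (fun x => ?_) i ?_
      · rw [← h0]
        exact Subtype.ext_iff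
      · refine ih (LinearMap.ker (d 1)) _ _ (fun n => J (n + 1)) _ _ (fun n => hJ (n + 1))
          (LinearMap.ker (d 1)).subtype (fun n => d (n + 1)) Subtype.val_injective ?_
          (fun n => hd (n + 1)) fun n => hW (n + 1)
        intro x
        exact ⟨fun hx => ⟨⟨x, hx⟩, rfl⟩, fun ⟨a, ha⟩ => ha ▸ a.2⟩
  intro i hi
  obtain ⟨j, rfl⟩ := Nat.exists_eq_add_of_le' hi
  exact key j A _ _ J _ _ hJ ε d hε h0 hd hW

end Pool.Agent.Lib.P5dc868
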