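import Mathlib
import Pool.Agent.Lib.P5dc868.Defs
import Pool.Agent.Lib.P5dc868.ExtA
import Pool.Agent.Lib.P5dc868.ExtB
import Pool.Agent.Lib.P5dc868.Res
import Pool.Agent.Lib.P5dc868.DLm

/-!
# Duality and Ext vanishing (MP_5dc868_al)
-/

namespace Pool.Agent.Lib.P5dc868

/-- The dual `Hom_K(M, K)` of an `R`-module `M`. -/
def DR (K M : Type) [Field K] [AddCommGroup M] [Module K M] : Type := M →ₗ[K] K

section DR
variable (K M : Type) [Field K] [AddCommGroup M] [Module K M]

noncomputable instance : AddCommGroup (DR K M) := inferInstanceAs (AddCommGroup (M →ₗ[K] K))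

noncomputable instance : Module K (DR K M) := inferInstanceAs (Module K (M →ₗ[K] K))

instance : FunLike (DR K M) M K := inferInstanceAs (FunLike (M →ₗ[K] K) M K)

instance [FiniteDimensional K M] : FiniteDimensional K (DR K M) :=
  inferInstanceAs (FiniteDimensional K (M →ₗ[K] K))

variable {K M}

theorem DR.add_apply (φ ψ : DR K M) (x : M) : (φ + ψ) x = φ x + ψ x := rfl

theorem DR.ksmul_apply (c : K) (φ : DR K M) (x : M) : (c • φ) x = c * φ x := rfl

theorem DR.map_add (φ : DR K M) (x y : M) : φ (x + y) = φ x + φ y :=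
  LinearMap.map_add (show M →ₗ[K] K from φ) x y

theorem DR.map_smul (φ : DR K M) (c : K) (x : M) : φ (c • x) = c * φ x :=
  LinearMap.map_smul (show M →ₗ[K] K from φ) c x

theorem DR.ext {φ ψ : DR K M} (h : ∀ x, φ x = ψ x) : φ = ψ := DFunLike.ext φ ψ h

variable {R : Type} [Ring R] [Algebra K R] [Module R M] [IsScalarTower K R M]

/-- The right `R`-module structure of `D(M)`: `(φ r)(x) = φ(r x)`. -/
noncomputable instance : Module Rᵐᵒᵖ (DR K M) where
  smul r φ := (show M →ₗ[K] K from φ) ∘ₗ Algebra.lsmul K K M r.unop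
  one_smul φ := by
    apply LinearMap.ext
    intro x
    exact congrArg (show M →ₗ[K] K from φ) (one_smul R x)
  mul_smul a b φ := by
    apply LinearMap.ext
    intro x
    exact congrArg (show M →ₗ[K] K from φ) (mul_smul b.unop a.unop x)
  smul_zero a := by
    apply LinearMap.ext
    intro x
    rfl
  smul_add a φ ψ := by
    apply LinearMap.ext
    intro x
    rfl
  add_smul a b φ := by
    apply LinearMap.ext
    intro x
    exact (congrArg (show M →ₗ[K] K from φ) (add_smul a.unop b.unop x)).trans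
      (LinearMap.map_add (show M →ₗ[K] K from φ) _ _)
  zero_smul φ := by
    apply LinearMap.ext
    intro x
    exact (congrArg (show M →ₗ[K] K from φ) (zero_smul R x)).trans
      (LinearMap.map_zero (show M →ₗ[K] K from φ))

theorem DR.smul_apply (r : Rᵐᵒᵖ) (φ : DR K M) (x : M) : (r • φ) x = φ (r.unop • x) := rfl

instance : IsScalarTower K Rᵐᵒᵖ (DR K M) where
  smul_assoc c a φ := by
    apply DR.ext
    intro x
    rw [DR.smul_apply, DR.ksmul_apply, DR.smul_apply, MulOpposite.unop_smul, smul_assoc,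
      DR.map_smul]

end DR

variable {K R : Type} [Field K] [Ring R] [Algebra K R]
  {M Y : Type} [AddCommGroup M] [Module K M] [Module R M] [IsScalarTower K R M]
  [AddCommGroup Y] [Module K Y] [Module R Y] [IsScalarTower K R Y]

namespace DualAux

open CategoryTheory Abelian ExtBAux

section retr
variable {R : Type} [Ring R] {M Y Z : Type} [AddCommGroup M] [Module R M]
    [AddCommGroup Y] [Module R Y] [AddCommGroup Z] [Module R Z]

theorem retract_one (h : ExtZero R M Y) (i : Z →ₗ[R] Y) (r : Y →ₗ[R] Z) (hr : ∀ z, r (i z) = z) :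
    ExtZero R M Z := by
  intro j hj
  have hsub := h j hj
  refine subsingleton_of_forall_eq 0 fun x => ?_
  have h1 : ModuleCat.ofHom i ≫ ModuleCat.ofHom r = 𝟙 (ModuleCat.of R Z) := by
    ext z
    exact hr z
  have h2 : (x.comp (Ext.mk₀ (ModuleCat.ofHom i)) (add_zero j)) = 0 := Subsingleton.elim _ _
  rw [← Ext.comp_mk₀_id x, ← h1, ← Ext.mk₀_comp_mk₀, ← Ext.comp_assoc_of_second_deg_zero, h2, Ext.zero_comp]

theorem retract_left {M' : Type} [AddCommGroup M'] [Module R M'] (h : ExtZero R M Y) (i : M' →ₗ[R] M)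
    (r : M →ₗ[R] M') (hr : ∀ z, r (i z) = z) : ExtZero R M' Y := by
  intro j hj
  have hsub := h j hj
  refine subsingleton_of_forall_eq 0 fun x => ?_
  have h1 : ModuleCat.ofHom i ≫ ModuleCat.ofHom r = 𝟙 (ModuleCat.of R M') := by
    ext z
    exact hr z
  have h2 : ((Ext.mk₀ (ModuleCat.ofHom r)).comp x (zero_add j)) = 0 := Subsingleton.elim _ _
  rw [← Ext.mk₀_id_comp x, ← h1, ← Ext.mk₀_comp_mk₀_assoc, h2, Ext.comp_zero]

theorem ses {A B C : Type} [AddCommGroup A] [Module R A] [AddCommGroup B] [Module R B]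
    [AddCommGroup C] [Module R C] (hA : ExtZero R M A) (hC : ExtZero R M C) (f : A →ₗ[R] B) (g : B →ₗ[R] C)
    (hf : Function.Injective f) (hg : Function.Surjective g) (hex : ∀ x, g x = 0 ↔ ∃ a, f a = x) :
    ExtZero R M B := by
  intro j hj
  have hsA := hA j hj
  have hsC := hC j hj
  have hS := sc_exact f g hf hg hex
  refine subsingleton_of_forall_eq 0 fun x => ?_
  obtain ⟨x₁, hx₁⟩ := Ext.covariant_sequence_exact₂ (ModuleCat.of R M) hS x (Subsingleton.elim _ _)
  have h1 : x₁ = 0 := Subsingleton.elim _ _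
  rw [← hx₁, h1, Ext.zero_comp]

theorem pow (h : ExtZero R M Y) (n : ℕ) : ExtZero R M (Fin n → Y) := by
  induction n with
  | zero =>
    apply extZero_of_injective
    exact ⟨fun X Z _ _ _ _ f _ g => ⟨0, fun x => Subsingleton.elim _ _⟩⟩
  | succ n ih =>
    refine ses h ih (LinearMap.single R (fun _ : Fin (n + 1) => Y) 0)
      (LinearMap.funLeft R Y (Fin.succ : Fin n → Fin (n + 1))) ?_ ?_ ?_
    · exact Pi.single_injective (M := fun _ : Fin (n + 1) => Y) 0
    · intro x
      exact ⟨Fin.cons 0 x, by ext i; simp [LinearMap.funLeft_apply]⟩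
    · intro x
      constructor
      · intro hx
        refine ⟨x 0, ?_⟩
        ext i
        refine Fin.cases ?_ (fun i => ?_) i
        · simp
        · have := congrFun hx i
          simp only [LinearMap.funLeft_apply, Pi.zero_apply] at this
          simp [this]
      · rintro ⟨a, rfl⟩
        ext i
        simp [LinearMap.funLeft_apply]

end retr

end DualAux

/-- The dual of a projective left module is an injective right module. -/
theorem DR.injective_of_projective (h : Module.Projective R M) :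
    Module.Injective Rᵐᵒᵖ (DR K M) := by
  obtain ⟨s, hs⟩ := h.out
  refine ⟨fun X Y _ _ _ _ f hf g => ?_⟩
  let _ : Module K X := Module.compHom X (algebraMap K Rᵐᵒᵖ)
  let _ : Module K Y := Module.compHom Y (algebraMap K Rᵐᵒᵖ)
  let fK : X →ₗ[K] Y :=
    { toFun := f
      map_add' := f.map_add
      map_smul' := fun c x => f.map_smul (algebraMap K Rᵐᵒᵖ c) x }
  obtain ⟨L, hL⟩ := fK.exists_leftInverse_of_injective (LinearMap.ker_eq_bot.2 hf)
  have hLf : ∀ x, L (f x) = x := fun x => LinearMap.congr_fun hL x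
  have hsK : ∀ (c : K) (m : M), s (c • m) = (algebraMap K R c) • s m := by
    intro c m
    rw [← s.map_smul, algebraMap_smul]
  -- the extension
  let E : Y → M → R → K := fun y n r => g (L (MulOpposite.op r • y)) n
  have hE0 : ∀ y n, E y n 0 = 0 := by
    intro y n
    have h1 : (MulOpposite.op (0 : R)) • y = 0 := by rw [MulOpposite.op_zero, zero_smul]
    change g (L (MulOpposite.op (0 : R) • y)) n = 0
    rw [h1, L.map_zero, g.map_zero]
    rfl
  have hEadd : ∀ y n r r', E y n (r + r') = E y n r + E y n r' := by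
    intro y n r r'
    have h1 : (MulOpposite.op (r + r')) • y = MulOpposite.op r • y + MulOpposite.op r' • y := by
      rw [MulOpposite.op_add, add_smul]
    change g (L (MulOpposite.op (r + r') • y)) n = _
    rw [h1, L.map_add, g.map_add]
    rfl
  have hEy : ∀ y y' n r, E (y + y') n r = E y n r + E y' n r := by
    intro y y' n r
    change g (L (MulOpposite.op r • (y + y'))) n = _
    rw [smul_add, L.map_add, g.map_add]
    rfl
  have hEc : ∀ (c : K) y n r, E y n (algebraMap K R c * r) = c * E y n r := by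
    intro c y n r
    have h1 : MulOpposite.op (algebraMap K R c * r) • y = c • (MulOpposite.op r • y) := by
      change _ = (algebraMap K Rᵐᵒᵖ c) • (MulOpposite.op r • y)
      rw [smul_smul, MulOpposite.algebraMap_apply, ← MulOpposite.op_mul, Algebra.commutes]
    change g (L (MulOpposite.op (algebraMap K R c * r) • y)) n = _
    rw [h1, L.map_smul]
    have h2 : g (c • L (MulOpposite.op r • y)) = (algebraMap K Rᵐᵒᵖ c) • g (L (MulOpposite.op r • y)) :=
      g.map_smul (algebraMap K Rᵐᵒᵖ c) _
    rw [h2, algebraMap_smul]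
    rfl
  have hEop : ∀ r' y n r, E (MulOpposite.op r' • y) n r = E y n (r' * r) := by
    intro r' y n r
    change g (L (MulOpposite.op r • (MulOpposite.op r' • y))) n = g (L (MulOpposite.op (r' * r) • y)) n
    rw [smul_smul, ← MulOpposite.op_mul]
  have hmul : ∀ (r' : R) (t : M →₀ R) y, (r' • t).sum (E y) = t.sum fun n r => E y n (r' * r) := by
    intro r' t y
    rw [Finsupp.sum_smul_index' (fun n => hE0 y n)]
    rfl
  let φ : Y → DR K M := fun y => show M →ₗ[K] K from
    { toFun := fun m => (s m).sum (E y)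
      map_add' := fun m m' => by
        rw [s.map_add, Finsupp.sum_add_index' (fun n => hE0 y n) (fun n r r' => hEadd y n r r')]
      map_smul' := fun c m => by
        rw [hsK, hmul]
        simp only [hEc]
        rw [← Finsupp.mul_sum]
        rfl }
  have hφ : ∀ y m, φ y m = (s m).sum (E y) := fun y m => rfl
  refine ⟨{ toFun := φ
            map_add' := fun y y' => DR.ext fun m => ?_
            map_smul' := fun r y => DR.ext fun m => ?_ }, fun x => DR.ext fun m => ?_⟩
  · have h1 : E (y + y') = fun n r => E y n r + E y' n r := by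
      funext n r
      exact hEy y y' n r
    rw [DR.add_apply, hφ, hφ, hφ, ← Finsupp.sum_add, h1]
  · change φ (r • y) m = φ y (r.unop • m)
    rw [hφ, hφ, s.map_smul, hmul]
    refine Finsupp.sum_congr fun n _ => ?_
    exact hEop r.unop y n _
  · change φ (f x) m = g x m
    rw [hφ]
    have h1 : ∀ n r, E (f x) n r = g x (r • n) := by
      intro n r
      change g (L (MulOpposite.op r • f x)) n = _
      rw [← f.map_smul, hLf, g.map_smul]
      rfl
    have h2 : (s m).sum (E (f x)) = g x ((s m).sum fun n r => r • n) := by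
      have h4 : E (f x) = fun n r => g x (r • n) := by
        funext n r
        exact h1 n r
      rw [h4]
      exact (map_finsuppSum (show M →ₗ[K] K from g x) (s m) (fun n r => r • n)).symm
    have h3 : ((s m).sum fun n r => r • n) = m := hs m
    rw [h2, h3]

namespace DualAux

section tr
variable {P Q : Type} [AddCommGroup P] [Module K P] [Module R P] [IsScalarTower K R P]
  [AddCommGroup Q] [Module K Q] [Module R Q] [IsScalarTower K R Q]

/-- the transpose -/
noncomputable def tr (f : P →ₗ[R] Q) : DR K Q →ₗ[Rᵐᵒᵖ] DR K P where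
  toFun φ := (show Q →ₗ[K] K from φ) ∘ₗ f.restrictScalars K
  map_add' φ ψ := rfl
  map_smul' r φ := DR.ext fun x => congrArg φ (f.map_smul r.unop x).symm

theorem tr_apply (f : P →ₗ[R] Q) (φ : DR K Q) (x : P) : (tr f φ : DR K P) x = φ (f x) := rfl

theorem tr_exact {N : Type} [AddCommGroup N] [Module K N] [Module R N] [IsScalarTower K R N]
    (u : N →ₗ[R] P) (v : P →ₗ[R] Q) (hex : ∀ x, v x = 0 ↔ ∃ y, u y = x) (φ : DR K P) :
    (tr u φ : DR K N) = 0 ↔ ∃ ψ : DR K Q, tr v ψ = φ := by
  constructor
  · intro h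
    have h1 : (show P →ₗ[K] K from φ) ∈ LinearMap.range (v.restrictScalars K).dualMap := by
      rw [LinearMap.range_dualMap_eq_dualAnnihilator_ker, Submodule.mem_dualAnnihilator]
      intro w hw
      obtain ⟨y, rfl⟩ := (hex w).1 hw
      exact congrArg (fun t : DR K N => t y) h
    obtain ⟨ψ, hψ⟩ := h1
    exact ⟨ψ, hψ⟩
  · rintro ⟨ψ, rfl⟩
    apply DR.ext
    intro x
    rw [tr_apply, tr_apply, (hex (u x)).2 ⟨x, rfl⟩]
    exact LinearMap.map_zero (show Q →ₗ[K] K from ψ)

theorem sep {a b : Q} (h : ∀ φ : DR K Q, φ a = φ b) : a = b := by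
  rw [← sub_eq_zero, ← Module.forall_dual_apply_eq_zero_iff K]
  intro φ
  rw [map_sub, sub_eq_zero]
  exact h φ

theorem exists_transpose [FiniteDimensional K Q] (G : DR K Q →ₗ[Rᵐᵒᵖ] DR K P) :
    ∃ t : P →ₗ[R] Q, ∀ (φ : DR K Q) x, φ (t x) = G φ x := by
  have hGK : ∀ (c : K) φ, G (c • φ) = c • G φ := fun c φ => by
    rw [← algebraMap_smul Rᵐᵒᵖ c φ, G.map_smul, algebraMap_smul]
  have hex : ∀ x : P, ∃ y : Q, ∀ φ : DR K Q, φ y = G φ x := by
    intro x
    let Φ : Module.Dual K (Module.Dual K Q) :=
      { toFun := fun φ => G (show DR K Q from φ) x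
        map_add' := fun φ ψ => congrArg (fun t : DR K P => t x) (G.map_add φ ψ)
        map_smul' := fun c φ => congrArg (fun t : DR K P => t x) (hGK c φ) }
    exact ⟨(Module.evalEquiv K Q).symm Φ, fun φ => Module.apply_evalEquiv_symm_apply (R := K) (M := Q) φ Φ⟩
  choose t ht using hex
  refine ⟨{ toFun := t
            map_add' := fun x y => sep (K := K) fun φ => ?_
            map_smul' := fun r x => sep (K := K) fun φ => ?_ }, fun φ x => ht x φ⟩
  · rw [ht, DR.map_add, DR.map_add, ht, ht]
  · rw [ht]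
    have h1 : G φ (r • x) = (MulOpposite.op r • G φ : DR K P) x := rfl
    rw [h1, ← G.map_smul, ← ht]
    rfl

end tr

end DualAux

/-- `Ext^i_R(M, Y) = 0` for `i ≥ 1` implies the same for the right modules `D(Y)`, `D(M)`:
if `P` is a free resolution of `M`, then `D(P)` is an injective coresolution of `D(M)` and
`Hom(D(Y), D(P_n)) = Hom_R(P_n, Y)`. -/
theorem ExtZero.dual [FiniteDimensional K R] [FiniteDimensional K M] [FiniteDimensional K Y]
    (h : ExtZero R M Y) : ExtZero Rᵐᵒᵖ (DR K Y) (DR K M) := by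
  have : Module.Finite R M := Module.Finite.of_restrictScalars_finite K R M
  obtain ⟨k, ε, d, h1, h2, h3, h4⟩ := exists_res K (B := R) M
  have h5 := h4 Y h
  refine extZero_of_cores (fun n => DR K (Fin (k n) → R)) (fun n => DR.injective_of_projective inferInstance)
    (DualAux.tr ε) (fun n => DualAux.tr (d n)) ?_ ?_ ?_ ?_
  · intro φ ψ hφψ
    apply DR.ext
    intro x
    obtain ⟨y, rfl⟩ := h1 x
    exact congrArg (fun t : DR K (Fin (k 0) → R) => t y) hφψ
  · intro φ
    exact DualAux.tr_exact (d 0) ε h2 φ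
  · intro n φ
    exact DualAux.tr_exact (d (n + 1)) (d n) (h3 n) φ
  · intro n G hG
    obtain ⟨t, ht⟩ := DualAux.exists_transpose G
    obtain ⟨g, hg⟩ := h5 n t (fun y => by
      apply DualAux.sep (K := K)
      intro φ
      rw [ht]
      have := congrArg (fun s : DR K (Fin (k (n + 2)) → R) => s y) (hG φ)
      exact this.trans (LinearMap.map_zero (show Y →ₗ[K] K from φ)).symm)
    refine ⟨DualAux.tr g, fun φ => DR.ext fun x => ?_⟩
    change φ (g (d n x)) = G φ x
    rw [hg, ht]

/-- `Ext^i(M, Z) = 0` for `i ≥ 1` if `Z` is a retract of a finite power of `Y` and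
`Ext^i(M, Y) = 0` for `i ≥ 1`. -/
theorem ExtZero.retract {R : Type} [Ring R] {M Y Z : Type} [AddCommGroup M] [Module R M]
    [AddCommGroup Y] [Module R Y] [AddCommGroup Z] [Module R Z] (h : ExtZero R M Y) {n : ℕ}
    (i : Z →ₗ[R] (Fin n → Y)) (r : (Fin n → Y) →ₗ[R] Z) (hr : ∀ z, r (i z) = z) :
    ExtZero R M Z :=
  DualAux.retract_one (DualAux.pow h n) i r hr

/-- Invariance of Ext vanishing under isomorphisms. -/
theorem ExtZero.congr {R : Type} [Ring R] {M M' Y Y' : Type} [AddCommGroup M] [Module R M]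
    [AddCommGroup M'] [Module R M'] [AddCommGroup Y] [Module R Y] [AddCommGroup Y'] [Module R Y']
    (e : M ≃ₗ[R] M') (f : Y ≃ₗ[R] Y') (h : ExtZero R M Y) : ExtZero R M' Y' :=
  DualAux.retract_left (DualAux.retract_one h f.symm.toLinearMap f.toLinearMap fun z => f.apply_symm_apply z)
    e.symm.toLinearMap e.toLinearMap fun z => e.apply_symm_apply z

variable {A : Type} [Ring A] [Algebra K A] [FiniteDimensional K A]

theorem DualAux.eval_mul (r : Aᵐᵒᵖ) (Φ : DR K (DL K A)) :
    (Module.evalEquiv K A).symm (show Module.Dual K (Module.Dual K A) from (r • Φ : DR K (DL K A))) =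
      (Module.evalEquiv K A).symm (show Module.Dual K (Module.Dual K A) from Φ) * r.unop := by
  rw [LinearEquiv.symm_apply_eq]
  apply LinearMap.ext
  intro φ
  have h2 := Module.apply_evalEquiv_symm_apply (R := K) (M := A)
    (show Module.Dual K A from (r.unop • (show DL K A from φ) : DL K A))
    (show Module.Dual K (Module.Dual K A) from Φ)
  exact h2.symm

/-- `Ext^i_A(D A, A) = 0` for left modules implies the same for right modules. -/
theorem extZero_op (h : ExtZero A (DL K A) A) : ExtZero Aᵐᵒᵖ (DL K Aᵐᵒᵖ) Aᵐᵒᵖ := by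
  have h1 : ExtZero Aᵐᵒᵖ (DR K A) (DR K (DL K A)) := ExtZero.dual (K := K) h
  refine ExtZero.congr ?_ ?_ h1
  · exact
      { toFun := fun φ => (show A →ₗ[K] K from φ) ∘ₗ (MulOpposite.opLinearEquiv K).symm.toLinearMap
        invFun := fun φ => (show Aᵐᵒᵖ →ₗ[K] K from φ) ∘ₗ (MulOpposite.opLinearEquiv K).toLinearMap
        map_add' := fun φ ψ => rfl
        map_smul' := fun r φ => rfl
        left_inv := fun φ => rfl
        right_inv := fun φ => rfl }
  · exact
      { toFun := fun Φ => MulOpposite.op ((Module.evalEquiv K A).symm Φ)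
        invFun := fun a => Module.evalEquiv K A a.unop
        map_add' := fun Φ Ψ => congrArg MulOpposite.op ((Module.evalEquiv K A).symm.map_add Φ Ψ)
        map_smul' := fun r Φ => congrArg MulOpposite.op (DualAux.eval_mul r Φ)
        left_inv := fun Φ => (Module.evalEquiv K A).apply_symm_apply Φ
        right_inv := fun a => congrArg MulOpposite.op ((Module.evalEquiv K A).symm_apply_apply a.unop) }

/-- If the right module `D(A)` is projective, then the left regular module is injective. -/
theorem left_injective_of_projective (h : Module.Projective Aᵐᵒᵖ (DL K Aᵐᵒᵖ)) :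
    Module.Injective A A := by
  have h1 : Module.Injective Aᵐᵒᵖᵐᵒᵖ Aᵐᵒᵖ := right_injective_of_projective h
  refine ⟨fun X Y _ _ _ _ f hf g => ?_⟩
  let _ : Module Aᵐᵒᵖᵐᵒᵖ X := Module.compHom X (RingEquiv.opOp A).symm.toRingHom
  let _ : Module Aᵐᵒᵖᵐᵒᵖ Y := Module.compHom Y (RingEquiv.opOp A).symm.toRingHom
  let f' : X →ₗ[Aᵐᵒᵖᵐᵒᵖ] Y :=
    { toFun := f
      map_add' := f.map_add
      map_smul' := fun r x => f.map_smul r.unop.unop x }
  let g' : X →ₗ[Aᵐᵒᵖᵐᵒᵖ] Aᵐᵒᵖ :=
    { toFun := fun x => MulOpposite.op (g x)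
      map_add' := fun x y => by rw [g.map_add]; rfl
      map_smul' := fun r x => congrArg MulOpposite.op (g.map_smul r.unop.unop x) }
  obtain ⟨k, hk⟩ := h1.out f' hf g'
  refine ⟨{ toFun := fun y => (k y).unop
            map_add' := fun x y => by rw [k.map_add]; rfl
            map_smul' := fun r y => ?_ }, fun x => ?_⟩
  · have h2 := k.map_smul (MulOpposite.op (MulOpposite.op r)) y
    exact congrArg MulOpposite.unop h2
  · exact congrArg MulOpposite.unop (hk x)

end Pool.Agent.Lib.P5dc868
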