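import Mathlib
import Pool.Agent.Lib.P5dc868.Defs
import Pool.Agent.Lib.P5dc868.Frob

/-!
# Homomorphisms from `D(End_S(X))` (MP_5dc868_al)

`S` is a finite-dimensional algebra with Frobenius functional `lam` and Nakayama endomorphism `σ`,
`X` is a finite-dimensional `S`-module with `S` as a direct summand, `A = End_S(X)`. Then
`Hom_A(D A, Hom_S(P, X))` is the group of `σ`-semilinear maps `P → X`.
-/

namespace Pool.Agent.Lib.P5dc868

variable {K S : Type} [Field K] [Ring S] [Algebra K S] [FiniteDimensional K S]
  {lam : S →ₗ[K] K} {σ : S →+* S}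
  {X : Type} [AddCommGroup X] [Module K X] [Module S X] [IsScalarTower K S X]
  [FiniteDimensional K X]

namespace DualMAux

/-- `h ↦ φ (h(-) x)`. -/
noncomputable def theta (x : X) (φ : DL K (Module.End S X)) : (X →ₗ[S] S) →ₗ[K] K where
  toFun h := φ (h.smulRight x)
  map_add' h h' := by
    have e : (h + h').smulRight x = h.smulRight x + h'.smulRight x := by
      ext y
      simp [add_smul]
    rw [e, DL.map_add]
  map_smul' c h := by
    have e : (c • h).smulRight x = c • (h.smulRight x) := by
      ext y
      simp
    rw [e, DL.map_smul]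
    rfl

/-- `h · t`. -/
def rmul (h : X →ₗ[S] S) (t : S) : X →ₗ[S] S where
  toFun y := h y * t
  map_add' y y' := by rw [map_add, add_mul]
  map_smul' s y := by
    rw [map_smul, smul_eq_mul, RingHom.id_apply, smul_eq_mul, mul_assoc]

end DualMAux

/-- There is `E : X → D(A) → X` with `lam (h (E x φ)) = φ (h(-) x)` for `h : X → S`. -/
theorem Frob.exists_E (hF : Frob K S lam σ) :
    ∃ E : X → DL K (Module.End S X) → X,
      (∀ x φ (h : X →ₗ[S] S), lam (h (E x φ)) = φ (h.smulRight x)) ∧
      (∀ x φ ψ, E x (φ + ψ) = E x φ + E x ψ) ∧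
      (∀ x φ (a : Module.End S X), E x (a • φ) = a (E x φ)) ∧
      (∀ x y φ, E (x + y) φ = E x φ + E y φ) ∧
      (∀ (s : S) x φ, E (σ s • x) φ = s • E x φ) := by
  choose E hE using fun (x : X) (φ : DL K (Module.End S X)) =>
    hF.repr (DualMAux.theta (X := X) x φ)
  have hE' : ∀ x φ (h : X →ₗ[S] S), lam (h (E x φ)) = φ (h.smulRight x) := by
    intro x φ h
    exact hE x φ h
  refine ⟨E, hE', ?_, ?_, ?_, ?_⟩
  · intro x φ ψ
    apply hF.sep
    intro h
    rw [hE', DL.add_apply, map_add, map_add, hE', hE']
  · intro x φ a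
    apply hF.sep
    intro h
    rw [hE', DL.smul_apply]
    have e : h.smulRight x * a = (h ∘ₗ a).smulRight x := by
      ext y
      rfl
    rw [e, ← hE']
    rfl
  · intro x y φ
    apply hF.sep
    intro h
    have e : h.smulRight (x + y) = h.smulRight x + h.smulRight y := by
      ext z
      simp [smul_add]
    rw [hE', e, DL.map_add, map_add, map_add, hE', hE']
  · intro s x φ
    apply hF.sep
    intro h
    rw [hE', map_smul, smul_eq_mul, hF.nak]
    have e : h (E x φ) * σ s = DualMAux.rmul h (σ s) (E x φ) := rfl
    rw [e, hE']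
    congr 1
    ext y
    change h y • (σ s • x) = (h y * σ s) • x
    rw [mul_smul]

/-- Every `A`-linear map `D(A) → X` is `E x` for a unique `x`. -/
theorem Frob.E_bijective (hF : Frob K S lam σ) {ι : S →ₗ[S] X} {p : X →ₗ[S] S}
    (hp : ∀ s, p (ι s) = s) {E : X → DL K (Module.End S X) → X}
    (hE : ∀ x φ (h : X →ₗ[S] S), lam (h (E x φ)) = φ (h.smulRight x))
    (c : DL K (Module.End S X) →+ X)
    (hc : ∀ (a : Module.End S X) φ, c (a • φ) = a (c φ)) :
    ∃! x, ∀ φ, c φ = E x φ := by
  have hck : ∀ (k : K) φ, c (k • φ) = k • c φ := by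
    intro k φ
    have e : k • φ = (algebraMap K (Module.End S X) k) • φ := by
      rw [algebraMap_smul]
    rw [e, hc]
    rfl
  have hhk : ∀ (h : X →ₗ[S] S) (k : K) (y : X), h (k • y) = k • h y := by
    intro h k y
    rw [← algebraMap_smul S k y, map_smul, algebraMap_smul]
  have hfin : FiniteDimensional K (Module.End S X) := by
    have hinj : Function.Injective
        ({ toFun := fun a => { toFun := fun x => a x, map_add' := fun x y => map_add a x y
                               map_smul' := fun k y => by
                                rw [← algebraMap_smul S k y, map_smul, algebraMap_smul]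
                                rfl }
           map_add' := fun a b => by rfl
           map_smul' := fun k a => by rfl } : (Module.End S X) →ₗ[K] (X →ₗ[K] X)) := by
      intro a b hab
      ext x
      exact congrArg (fun f : X →ₗ[K] X => f x) hab
    exact FiniteDimensional.of_injective _ hinj
  have hev : ∀ Λ : DL K (Module.End S X) →ₗ[K] K, ∃ a : Module.End S X, ∀ φ, Λ φ = φ a := by
    intro Λ
    obtain ⟨a, ha⟩ := (Module.evalEquiv K (Module.End S X)).surjective
      (show Module.Dual K (Module.Dual K (Module.End S X)) from Λ)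
    refine ⟨a, fun φ => ?_⟩
    have := congrArg (fun f : Module.Dual K (Module.Dual K (Module.End S X)) => f φ) ha
    exact this.symm
  have hsepA : ∀ a b : Module.End S X, (∀ φ : DL K (Module.End S X), φ a = φ b) → a = b := by
    intro a b hab
    apply (Module.evalEquiv K (Module.End S X)).injective
    apply LinearMap.ext
    intro φ
    exact hab φ
  have hΛ : ∀ h : X →ₗ[S] S, ∃ a : Module.End S X, ∀ φ, lam (h (c φ)) = φ a := by
    intro h
    exact hev
      { toFun := fun φ => lam (h (c φ))
        map_add' := fun φ ψ => by rw [map_add, map_add, map_add]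
        map_smul' := fun k φ => by
          rw [hck, hhk, map_smul]
          rfl }
  choose α hα using hΛ
  have hαa : ∀ (h : X →ₗ[S] S) (a : Module.End S X), α (h ∘ₗ a) = α h * a := by
    intro h a
    apply hsepA
    intro φ
    rw [← hα, ← DL.smul_apply, ← hα, hc]
    rfl
  have hαh : ∀ h : X →ₗ[S] S, α h = h.smulRight (α p (ι 1)) := by
    intro h
    have e1 : h = p ∘ₗ (ι ∘ₗ h) := by
      ext y
      exact (hp (h y)).symm
    have e2 : α h = α p * (ι ∘ₗ h) := by
      rw [← hαa, ← e1]
    rw [e2]
    ext y
    change α p (ι (h y)) = h y • α p (ι 1)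
    rw [← map_smul, ← map_smul, smul_eq_mul, mul_one]
  refine ⟨α p (ι 1), ?_, ?_⟩
  · intro φ
    apply hF.sep
    intro h
    rw [hE, hα, hαh]
  · intro x hx
    have h1 : p.smulRight x = p.smulRight (α p (ι 1)) := by
      apply hsepA
      intro φ
      rw [← hE, ← hαh, ← hα, hx φ]
    have h2 := congrArg (fun f : X →ₗ[S] X => f (ι 1)) h1
    simp only [LinearMap.smulRight_apply, hp, one_smul] at h2
    exact h2

/-- `Hom_A(D A, Hom_S(P, X))` and `σ`-semilinear maps `P → X`: lifting along the two complexes. -/
theorem Frob.lift_dual (hF : Frob K S lam σ) {ι : S →ₗ[S] X} {p : X →ₗ[S] S}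
    (hp : ∀ s, p (ι s) = s) {P P' P'' : Type} [AddCommGroup P] [Module S P] [AddCommGroup P']
    [Module S P'] [AddCommGroup P''] [Module S P''] (d : P' →ₗ[S] P) (d' : P'' →ₗ[S] P')
    (hσ : ∀ g : P' →ₛₗ[σ] X, (∀ y, g (d' y) = 0) → ∃ g' : P →ₛₗ[σ] X, ∀ y, g' (d y) = g y)
    (G : DL K (Module.End S X) →ₗ[Module.End S X] (P' →ₗ[S] X))
    (hG : ∀ φ y, G φ (d' y) = 0) :
    ∃ G' : DL K (Module.End S X) →ₗ[Module.End S X] (P →ₗ[S] X), ∀ φ y, G' φ (d y) = G φ y := by
  obtain ⟨E, hE, hEadd, hEa, hEx, hEs⟩ := hF.exists_E (X := X)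
  have hE0 : ∀ φ, E 0 φ = 0 := by
    intro φ
    have := hEx 0 0 φ
    rw [add_zero] at this
    exact left_eq_add.1 this
  have huniq : ∀ y : P', ∃! x, ∀ φ, G φ y = E x φ := by
    intro y
    exact hF.E_bijective hp hE
      { toFun := fun φ => G φ y
        map_zero' := by rw [map_zero]; rfl
        map_add' := fun φ ψ => by rw [map_add]; rfl }
      (fun a φ => by
        change G (a • φ) y = a (G φ y)
        rw [map_smul]
        rfl)
  have hinj : ∀ x x' : X, (∀ φ, E x φ = E x' φ) → x = x' := by
    intro x x' hxx
    obtain ⟨z, _, hz⟩ := hF.E_bijective hp hE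
      { toFun := fun φ => E x φ
        map_zero' := by
          have := hEadd x 0 0
          rw [add_zero] at this
          exact left_eq_add.1 this
        map_add' := fun φ ψ => hEadd x φ ψ }
      (fun a φ => hEa x φ a)
    rw [hz x (fun φ => rfl), hz x' (fun φ => hxx φ)]
  choose g hg _ using huniq
  let g1 : P' →ₛₗ[σ] X :=
    { toFun := g
      map_add' := by
        intro y y'
        apply hinj
        intro φ
        rw [hEx, ← hg, ← hg, ← hg, map_add]
      map_smul' := by
        intro s y
        apply hinj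
        intro φ
        rw [hEs, ← hg, ← hg, map_smul] }
  obtain ⟨g', hg'⟩ := hσ g1 (by
    intro y
    apply hinj
    intro φ
    change E (g (d' y)) φ = E 0 φ
    rw [← hg, hG, hE0])
  refine ⟨{ toFun := fun φ =>
              { toFun := fun y => E (g' y) φ
                map_add' := fun y y' => by rw [map_add, hEx]
                map_smul' := fun s y => by
                  rw [map_smulₛₗ, hEs]
                  rfl }
            map_add' := fun φ ψ => by
              ext y
              exact hEadd _ _ _
            map_smul' := fun a φ => by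
              ext y
              exact hEa _ _ _ }, ?_⟩
  intro φ y
  change E (g' (d y)) φ = G φ y
  rw [hg', hg]
  rfl

end Pool.Agent.Lib.P5dc868
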