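import Mathlib
import Pool.Agent.Lib.P5dc868.Defs
import Pool.Agent.Lib.P5dc868.Frob

/-!
# The modules `Hom_S(P, X)` over `End_S(X)` (MP_5dc868_al)

`S` is a finite-dimensional algebra with Frobenius functional `lam` and Nakayama endomorphism `σ`,
`X` is a finite-dimensional `S`-module with `S` as a direct summand.
-/

namespace Pool.Agent.Lib.P5dc868

variable {K S : Type} [Field K] [Ring S] [Algebra K S] [FiniteDimensional K S]
  {lam : S →ₗ[K] K} {σ : S →+* S}
  {X : Type} [AddCommGroup X] [Module K X] [Module S X] [IsScalarTower K S X]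

variable {P : Type} [AddCommGroup P] [Module S P]

namespace FrobHomAux

/-- restriction of `Hom_S(P, X)` to the generators, followed by `p` -/
def toEnd {n : ℕ} (p : X →ₗ[S] S) (q : (Fin n → S) →ₗ[S] P) :
    (P →ₗ[S] X) →ₗ[Module.End S X] (Fin n → Module.End S X) where
  toFun g j := g ∘ₗ q ∘ₗ (LinearMap.single S (fun _ : Fin n => S) j) ∘ₗ p
  map_add' g g' := by
    funext j
    ext x
    rfl
  map_smul' a g := by
    funext j
    ext x
    rfl

/-- the map back -/
def ofEnd {n : ℕ} (ι : S →ₗ[S] X) (i : P →ₗ[S] (Fin n → S)) :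
    (Fin n → Module.End S X) →ₗ[Module.End S X] (P →ₗ[S] X) where
  toFun h := ∑ j, (h j) ∘ₗ ι ∘ₗ (LinearMap.proj j) ∘ₗ i
  map_add' h h' := by
    rw [← Finset.sum_add_distrib]
    refine Finset.sum_congr rfl fun j _ => ?_
    ext x
    rfl
  map_smul' a h := by
    rw [RingHom.id_apply, Finset.smul_sum]
    refine Finset.sum_congr rfl fun j _ => ?_
    ext x
    rfl

theorem ofEnd_toEnd {n : ℕ} {ι : S →ₗ[S] X} {p : X →ₗ[S] S} (hp : ∀ s, p (ι s) = s)
    {q : (Fin n → S) →ₗ[S] P} {i : P →ₗ[S] (Fin n → S)} (hq : q ∘ₗ i = LinearMap.id)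
    (g : P →ₗ[S] X) : ofEnd ι i (toEnd p q g) = g := by
  ext x
  have h1 : ofEnd ι i (toEnd p q g) x =
      ∑ j, g (q (LinearMap.single S (fun _ : Fin n => S) j (p (ι (i x j))))) := by
    simp [ofEnd, toEnd, LinearMap.sum_apply]
  rw [h1]
  simp only [hp]
  rw [← map_sum, ← map_sum]
  have h2 : ∑ j, (LinearMap.single S (fun _ : Fin n => S) j) (i x j) = i x := by
    simp only [LinearMap.coe_single]
    exact Finset.univ_sum_single (i x)
  rw [h2]
  have h3 : q (i x) = x := by
    have := LinearMap.congr_fun hq x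
    exact this
  rw [h3]

/-- restriction of `Hom_S(P, X)` to the generators -/
def toPi {n : ℕ} (q : (Fin n → S) →ₗ[S] P) :
    (P →ₗ[S] X) →ₗ[Module.End S X] (Fin n → X) where
  toFun g j := g (q (Pi.single j 1))
  map_add' _ _ := rfl
  map_smul' _ _ := rfl

/-- the map back -/
def ofPi {n : ℕ} (i : P →ₗ[S] (Fin n → S)) :
    (Fin n → X) →ₗ[Module.End S X] (P →ₗ[S] X) where
  toFun x :=
    { toFun := fun y => ∑ j, (i y j) • x j
      map_add' := fun y y' => by
        rw [← Finset.sum_add_distrib]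
        refine Finset.sum_congr rfl fun j _ => ?_
        rw [map_add, Pi.add_apply, add_smul]
      map_smul' := fun s y => by
        rw [RingHom.id_apply, Finset.smul_sum]
        refine Finset.sum_congr rfl fun j _ => ?_
        rw [map_smul, Pi.smul_apply, smul_eq_mul, mul_smul] }
  map_add' x x' := by
    ext y
    change ∑ j, (i y j) • (x j + x' j) = ∑ j, (i y j) • x j + ∑ j, (i y j) • x' j
    rw [← Finset.sum_add_distrib]
    refine Finset.sum_congr rfl fun j _ => ?_
    rw [smul_add]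
  map_smul' a x := by
    ext y
    change ∑ j, (i y j) • (a (x j)) = a (∑ j, (i y j) • x j)
    rw [map_sum]
    refine Finset.sum_congr rfl fun j _ => ?_
    rw [map_smul]

theorem ofPi_toPi {n : ℕ} {q : (Fin n → S) →ₗ[S] P} {i : P →ₗ[S] (Fin n → S)}
    (hq : q ∘ₗ i = LinearMap.id) (g : P →ₗ[S] X) : ofPi i (toPi q g) = g := by
  ext x
  have h1 : ofPi i (toPi q g) x = ∑ j, (i x j) • g (q (Pi.single j 1)) := rfl
  rw [h1]
  have h2 : ∑ j, (i x j) • g (q (Pi.single j (1 : S))) =
      g (q (∑ j, (i x j) • (Pi.single j (1 : S) : Fin n → S))) := by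
    rw [map_sum, map_sum]
    refine Finset.sum_congr rfl fun j _ => ?_
    rw [map_smul, map_smul]
  rw [h2]
  have h3 : ∑ j, (i x j) • (Pi.single j (1 : S) : Fin n → S) = i x := by
    conv_rhs => rw [← Finset.univ_sum_single (i x)]
    refine Finset.sum_congr rfl fun j _ => ?_
    rw [← Pi.single_smul, smul_eq_mul, mul_one]
  rw [h3]
  have h4 : q (i x) = x := LinearMap.congr_fun hq x
  rw [h4]

/-- `X` is an injective `End_S(X)`-module -/
theorem self_injective [FiniteDimensional K X] (hF : Frob K S lam σ)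
    {ι : S →ₗ[S] X} {p : X →ₗ[S] S} (hp : ∀ s, p (ι s) = s) :
    Module.Injective (Module.End S X) X := by
  refine Module.Baer.injective ?_
  intro I g
  -- the functional on the ideal
  let ψ : (I.restrictScalars K : Submodule K (Module.End S X)) →ₗ[K] K :=
    { toFun := fun y => lam (p (g ⟨y.1, y.2⟩))
      map_add' := fun y y' => by
        have : g ⟨(y + y').1, (y + y').2⟩ = g ⟨y.1, y.2⟩ + g ⟨y'.1, y'.2⟩ := by
          rw [← map_add]
          rfl
        rw [this, map_add, map_add]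
      map_smul' := fun c y => by
        have h1 : g ⟨(c • y).1, (c • y).2⟩ = (algebraMap K (Module.End S X) c) • g ⟨y.1, y.2⟩ := by
          rw [← map_smul]
          congr 1
        have h2 : (algebraMap K (Module.End S X) c) • g ⟨y.1, y.2⟩ = c • g ⟨y.1, y.2⟩ := rfl
        have h3 : p (c • g ⟨y.1, y.2⟩) = c • p (g ⟨y.1, y.2⟩) := by
          rw [← algebraMap_smul S c (g ⟨y.1, y.2⟩), map_smul, algebraMap_smul]
        rw [h1, h2, h3, map_smul, RingHom.id_apply] }
  obtain ⟨ψ', hψ'⟩ := LinearMap.exists_extend ψ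
  -- the functional on `Hom_S(X, S)`
  let Θ : (X →ₗ[S] S) →ₗ[K] K :=
    { toFun := fun h => ψ' (ι ∘ₗ h)
      map_add' := fun h h' => by
        rw [← map_add, LinearMap.comp_add]
      map_smul' := fun c h => by
        rw [← map_smul]
        congr 1
        ext x
        change ι (c • h x) = c • ι (h x)
        rw [← algebraMap_smul S c (h x), map_smul, algebraMap_smul] }
  obtain ⟨z, hz⟩ := hF.repr Θ
  refine ⟨LinearMap.toSpanSingleton (Module.End S X) X z, fun y hy => ?_⟩
  rw [LinearMap.toSpanSingleton_apply]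
  refine hF.sep fun h => ?_
  have h1 : h (y • z) = (h ∘ₗ y) z := rfl
  rw [h1, hz]
  change ψ' (ι ∘ₗ (h ∘ₗ y)) = lam (h (g ⟨y, hy⟩))
  have h2 : ι ∘ₗ (h ∘ₗ y) = (ι ∘ₗ h : Module.End S X) * y := rfl
  rw [h2]
  have h3 : (ι ∘ₗ h : Module.End S X) * y ∈ I := I.mul_mem_left _ hy
  have h4 : ψ' ((ι ∘ₗ h : Module.End S X) * y) = ψ ⟨(ι ∘ₗ h : Module.End S X) * y, h3⟩ := by
    rw [← hψ']
    rfl
  rw [h4]
  change lam (p (g ⟨(ι ∘ₗ h : Module.End S X) * y, h3⟩)) = lam (h (g ⟨y, hy⟩))
  have h5 : g ⟨(ι ∘ₗ h : Module.End S X) * y, h3⟩ = (ι ∘ₗ h : Module.End S X) • g ⟨y, hy⟩ := by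
    rw [← map_smul]
    rfl
  have h6 : (ι ∘ₗ h : Module.End S X) • g ⟨y, hy⟩ = ι (h (g ⟨y, hy⟩)) := rfl
  rw [h5, h6, hp]

end FrobHomAux

open FrobHomAux

/-- For `P` finitely generated projective, `Hom_S(P, X)` is a projective `End_S(X)`-module. -/
theorem hom_projective {ι : S →ₗ[S] X} {p : X →ₗ[S] S} (hp : ∀ s, p (ι s) = s)
    [Module.Finite S P] [Module.Projective S P] :
    Module.Projective (Module.End S X) (P →ₗ[S] X) := by
  obtain ⟨n, q, i, _, _, hq⟩ := Module.Finite.exists_comp_eq_id_of_projective S P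
  exact Module.Projective.of_split (toEnd p q) (ofEnd ι i)
    (LinearMap.ext fun g => ofEnd_toEnd hp hq g)

/-- For `P` finitely generated projective, `Hom_S(P, X)` is finitely generated. -/
theorem hom_finite {ι : S →ₗ[S] X} {p : X →ₗ[S] S} (hp : ∀ s, p (ι s) = s)
    [Module.Finite S P] [Module.Projective S P] :
    Module.Finite (Module.End S X) (P →ₗ[S] X) := by
  obtain ⟨n, q, i, _, _, hq⟩ := Module.Finite.exists_comp_eq_id_of_projective S P
  exact Module.Finite.of_surjective (ofEnd ι i) fun g => ⟨toEnd p q g, ofEnd_toEnd hp hq g⟩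

/-- For `P` finitely generated projective, `Hom_S(P, X)` is an injective `End_S(X)`-module. -/
theorem hom_injective [FiniteDimensional K X] (hF : Frob K S lam σ)
    {ι : S →ₗ[S] X} {p : X →ₗ[S] S} (hp : ∀ s, p (ι s) = s)
    [Module.Finite S P] [Module.Projective S P] :
    Module.Injective (Module.End S X) (P →ₗ[S] X) := by
  obtain ⟨n, q, i, _, _, hq⟩ := Module.Finite.exists_comp_eq_id_of_projective S P
  have h1 : Module.Injective (Module.End S X) X := self_injective hF hp
  have h2 : Module.Injective (Module.End S X) (Fin n → X) := inferInstance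
  refine ⟨fun Y Z _ _ _ _ f hf g => ?_⟩
  obtain ⟨h, hh⟩ := h2.out f hf ((toPi q) ∘ₗ g)
  refine ⟨(ofPi i) ∘ₗ h, fun y => ?_⟩
  rw [LinearMap.comp_apply, hh, LinearMap.comp_apply]
  exact ofPi_toPi hq (g y)

end Pool.Agent.Lib.P5dc868
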