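import Mathlib
import Pool.Agent.Lib.P5dc868.Defs
import Pool.Agent.Lib.P5dc868.Frob
import Pool.Agent.Lib.P5dc868.DLm

/-!
# Frobenius algebras are right selfinjective (MP_5dc868_al)
-/

namespace Pool.Agent.Lib.P5dc868

variable {K S : Type} [Field K] [Ring S] [Algebra K S] [FiniteDimensional K S]

/-- the map `S → D(S)`, `t ↦ lam (- t)` -/
noncomputable def frobMap (lam : S →ₗ[K] K) : S →ₗ[S] DL K S where
  toFun t := (lam ∘ₗ LinearMap.mulRight K t : S →ₗ[K] K)
  map_add' s t := by
    apply DL.ext
    intro x
    change lam (x * (s + t)) = lam (x * s) + lam (x * t)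
    rw [mul_add, map_add]
  map_smul' s t := by
    apply DL.ext
    intro x
    change lam (x * (s * t)) = lam (x * s * t)
    rw [mul_assoc]

/-- `S` is right selfinjective. -/
theorem right_injective_of_nondeg (lam : S →ₗ[K] K)
    (h : ∀ t : S, (∀ s, lam (s * t) = 0) → t = 0) : Module.Injective Sᵐᵒᵖ S := by
  apply right_injective_of_projective (K := K)
  have hinj : Function.Injective (frobMap lam) := by
    rw [injective_iff_map_eq_zero]
    intro t ht
    apply h
    intro s
    exact congrArg (fun φ : DL K S => φ s) ht
  have hK : ∀ (c : K) (t : S), frobMap lam (c • t) = c • frobMap lam t := by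
    intro c t
    apply DL.ext
    intro x
    change lam (x * (c • t)) = c * lam (x * t)
    rw [mul_smul_comm, map_smul, smul_eq_mul]
  let f : S →ₗ[K] DL K S :=
    { toFun := frobMap lam
      map_add' := fun s t => map_add (frobMap lam) s t
      map_smul' := hK }
  have hdim : Module.finrank K S = Module.finrank K (DL K S) := by
    change Module.finrank K S = Module.finrank K (Module.Dual K S)
    exact Subspace.dual_finrank_eq.symm
  have hsurj : Function.Surjective f :=
    (LinearMap.injective_iff_surjective_of_finrank_eq_finrank hdim).1 hinj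
  exact Module.Projective.of_equiv (LinearEquiv.ofBijective (frobMap lam) ⟨hinj, hsurj⟩)

end Pool.Agent.Lib.P5dc868
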