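import Mathlib
import Pool.Agent.Lib.P5dc868.Defs
import Pool.Agent.Lib.P5dc868.ExtA

/-!
# Algebras of infinite dominant dimension as endomorphism algebras (MP_5dc868_al)
-/

namespace Pool.Agent.Lib.P5dc868

namespace NCaAux

variable {A : Type} [Ring A]

/-- maps that vanish on the kernel of `u` extend along `u` to injective modules -/
private theorem inj_ext {X Y Q : Type} [AddCommGroup X] [Module A X] [AddCommGroup Y] [Module A Y]
    [AddCommGroup Q] [Module A Q] (hQ : Module.Injective A Q) (u : X →ₗ[A] Y) (f : X →ₗ[A] Q)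
    (h : ∀ x, u x = 0 → f x = 0) : ∃ g : Y →ₗ[A] Q, ∀ x, g (u x) = f x := by
  let f' : (X ⧸ LinearMap.ker u) →ₗ[A] Q := (LinearMap.ker u).liftQ f fun x hx => h x hx
  let u' : (X ⧸ LinearMap.ker u) →ₗ[A] Y := (LinearMap.ker u).liftQ u le_rfl
  have hu : Function.Injective u' := by
    rw [← LinearMap.ker_eq_bot]
    exact Submodule.ker_liftQ_eq_bot _ _ _ le_rfl
  obtain ⟨g, hg⟩ := hQ.out u' hu f'
  refine ⟨g, fun x => ?_⟩
  have := hg (Submodule.Quotient.mk x)
  simpa [u', f'] using this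

/-- finitely generated modules that are projective and injective are retracts of `Q ^ m` -/
private theorem retr {J Q : Type} [AddCommGroup J] [Module A J] [AddCommGroup Q] [Module A Q]
    (h1 : Module.Finite A J) (h2 : Module.Projective A J) (h3 : Module.Injective A J)
    (ε : A →ₗ[A] Q) (hε : Function.Injective ε) :
    ∃ (m : ℕ) (ι : J →ₗ[A] (Fin m → Q)) (ρ : (Fin m → Q) →ₗ[A] J), ∀ x, ρ (ι x) = x := by
  obtain ⟨m, π, hπ⟩ := Module.Finite.exists_fin' A J
  obtain ⟨s, hs⟩ := Module.projective_lifting_property π LinearMap.id hπ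
  have hs' : ∀ x, π (s x) = x := fun x => LinearMap.congr_fun hs x
  let ι : J →ₗ[A] (Fin m → Q) := LinearMap.pi fun k => ε ∘ₗ LinearMap.proj k ∘ₗ s
  have hι : Function.Injective ι := by
    intro x y hxy
    have h4 : s x = s y := by
      funext k
      exact hε (congrFun hxy k)
    rw [← hs' x, ← hs' y, h4]
  obtain ⟨ρ, hρ⟩ := h3.out ι hι LinearMap.id
  exact ⟨m, ι, ρ, fun x => hρ x⟩

section

variable {J Q : Type} [AddCommGroup J] [Module A J] [AddCommGroup Q] [Module A Q] {m : ℕ}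
  (ι : J →ₗ[A] (Fin m → Q)) (ρ : (Fin m → Q) →ₗ[A] J)

private theorem decomp (h : ∀ x, ρ (ι x) = x) (f : J →ₗ[A] Q) :
    f = ∑ k, (show Module.End A Q from (f ∘ₗ ρ ∘ₗ LinearMap.single A (fun _ => Q) k)) •
      (LinearMap.proj k ∘ₗ ι : J →ₗ[A] Q) := by
  ext x
  rw [LinearMap.sum_apply]
  have h1 : ι x = ∑ k, (LinearMap.single A (fun _ => Q) k) (ι x k) := by
    funext j
    rw [Finset.sum_apply, Finset.sum_eq_single j]
    · simp
    · intro k _ hk
      simp [Ne.symm hk]
    · intro hj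
      exact absurd (Finset.mem_univ j) hj
  conv_lhs => rw [← h x, h1]
  rw [map_sum, map_sum]
  rfl

private theorem proj_hom (h : ∀ x, ρ (ι x) = x) :
    Module.Projective (Module.End A Q) (J →ₗ[A] Q) := by
  let i : (J →ₗ[A] Q) →ₗ[Module.End A Q] (Fin m → Module.End A Q) :=
    { toFun := fun f k => f ∘ₗ ρ ∘ₗ LinearMap.single A (fun _ => Q) k
      map_add' := fun f g => by
        funext k
        ext x
        rfl
      map_smul' := fun b f => by
        funext k
        ext x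
        rfl }
  let s : (Fin m → Module.End A Q) →ₗ[Module.End A Q] (J →ₗ[A] Q) :=
    { toFun := fun b => ∑ k, b k • (LinearMap.proj k ∘ₗ ι : J →ₗ[A] Q)
      map_add' := fun b c => by
        simp only [Pi.add_apply, add_smul, Finset.sum_add_distrib]
      map_smul' := fun b c => by
        simp only [Pi.smul_apply, smul_eq_mul, mul_smul, Finset.smul_sum, RingHom.id_apply] }
  refine Module.Projective.of_split i s ?_
  ext f x
  have h1 := decomp ι ρ h f
  exact LinearMap.congr_fun h1.symm x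

private theorem eval_hom (h : ∀ x, ρ (ι x) = x)
    (F : (J →ₗ[A] Q) →ₗ[Module.End A Q] Q) : ∃ y : J, ∀ f, F f = f y := by
  refine ⟨ρ (∑ k, LinearMap.single A (fun _ => Q) k (F (LinearMap.proj k ∘ₗ ι))), fun f => ?_⟩
  conv_lhs => rw [decomp ι ρ h f]
  rw [map_sum, map_sum, map_sum]
  refine Finset.sum_congr rfl fun k _ => ?_
  rw [map_smul]
  rfl

private theorem sep (h : ∀ x, ρ (ι x) = x) (z : J) (hz : ∀ g : J →ₗ[A] Q, g z = 0) : z = 0 := by
  rw [← h z]
  have h1 : ι z = 0 := by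
    funext k
    exact hz (LinearMap.proj k ∘ₗ ι)
  rw [h1, map_zero]

end

end NCaAux

open NCaAux in
/-- If `A` has infinite dominant dimension, there is a finitely generated projective and injective
faithful left `A`-module `Q` (the module `J 0` of the coresolution) such that for
`B = End_A(Q)`: `Ext^i_B(Q, Q) = 0` for `i ≥ 1`, and every `B`-linear endomorphism of `Q` is the
action of an element of `A`. Here `P n = Hom_A(J n, Q)` is a projective resolution of the
`B`-module `Q = Hom_A(A, Q)`, and `Hom_B(P n, Q) = J n`. -/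
theorem exists_Q {K A : Type} [Field K] [Ring A] [Algebra K A] [FiniteDimensional K A]
    (hA : DomDimInf A) :
    ∃ (Q : Type) (_ : AddCommGroup Q) (_ : Module A Q),
      Module.Finite A Q ∧ Module.Projective A Q ∧ Module.Injective A Q ∧
      (∃ ε : A →ₗ[A] Q, Function.Injective ε) ∧
      ExtZero (Module.End A Q) Q Q ∧
      ∀ F : Q →ₗ[Module.End A Q] Q, ∃ a : A, ∀ x, F x = a • x := by
  obtain ⟨J, iJ, mJ, ε, d, hJ, hε, h0, hd⟩ := hA
  have hr : ∀ n, ∃ (m : ℕ) (ι : J n →ₗ[A] (Fin m → J 0)) (ρ : (Fin m → J 0) →ₗ[A] J n),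
      ∀ x, ρ (ι x) = x := fun n => retr (hJ n).1 (hJ n).2.1 (hJ n).2.2 ε hε
  have hproj : ∀ n, Module.Projective (Module.End A (J 0)) (J n →ₗ[A] J 0) := by
    intro n
    obtain ⟨m, ι, ρ, h⟩ := hr n
    exact proj_hom ι ρ h
  have heval : ∀ n (F : (J n →ₗ[A] J 0) →ₗ[Module.End A (J 0)] J 0),
      ∃ y : J n, ∀ f, F f = f y := by
    intro n F
    obtain ⟨m, ι, ρ, h⟩ := hr n
    exact eval_hom ι ρ h F
  have hsep : ∀ n (z : J n), (∀ g : J n →ₗ[A] J 0, g z = 0) → z = 0 := by
    intro n z hz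
    obtain ⟨m, ι, ρ, h⟩ := hr n
    exact sep ι ρ h z hz
  have hdε : d 0 (ε 1) = 0 := (h0 _).2 ⟨1, rfl⟩
  have hdd : ∀ n x, d (n + 1) (d n x) = 0 := fun n x => (hd n _).2 ⟨x, rfl⟩
  -- evaluation maps
  let ev : ∀ n, J n → ((J n →ₗ[A] J 0) →ₗ[Module.End A (J 0)] J 0) := fun n y =>
    { toFun := fun f => f y
      map_add' := fun f g => rfl
      map_smul' := fun b f => rfl }
  let D : ∀ n, (J (n + 1) →ₗ[A] J 0) →ₗ[Module.End A (J 0)] (J n →ₗ[A] J 0) := fun n =>
    { toFun := fun f => f ∘ₗ d n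
      map_add' := fun f g => by
        ext x
        rfl
      map_smul' := fun b f => by
        ext x
        rfl }
  have hsurj : ∀ x : J 0, ∃ f : J 0 →ₗ[A] J 0, f (ε 1) = x := by
    intro x
    obtain ⟨f, hf⟩ := (hJ 0).2.2.out ε hε (LinearMap.toSpanSingleton A (J 0) x)
    refine ⟨f, ?_⟩
    rw [hf 1]
    simp
  refine ⟨J 0, iJ 0, mJ 0, (hJ 0).1, (hJ 0).2.1, (hJ 0).2.2, ⟨ε, hε⟩, ?_, ?_⟩
  · refine extZero_of_res (fun n => J n →ₗ[A] J 0) hproj (ev 0 (ε 1)) D hsurj ?_ ?_ ?_
    · intro f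
      constructor
      · intro hf
        obtain ⟨g, hg⟩ := inj_ext (hJ 0).2.2 (d 0) f (fun x hx => by
          obtain ⟨a, rfl⟩ := (h0 x).1 hx
          have h1 : ε a = a • ε 1 := by rw [← map_smul, smul_eq_mul, mul_one]
          have h2 : f (ε 1) = 0 := hf
          rw [h1, map_smul, h2, smul_zero])
        exact ⟨g, by ext x; exact hg x⟩
      · rintro ⟨g, rfl⟩
        change g (d 0 (ε 1)) = 0
        rw [hdε, map_zero]
    · intro n f
      constructor
      · intro hf
        obtain ⟨g, hg⟩ := inj_ext (hJ 0).2.2 (d (n + 1)) f (fun x hx => by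
          obtain ⟨y, rfl⟩ := (hd n x).1 hx
          exact LinearMap.congr_fun hf y)
        exact ⟨g, by ext x; exact hg x⟩
      · rintro ⟨g, rfl⟩
        ext x
        change g (d (n + 1) (d n x)) = 0
        rw [hdd, map_zero]
    · intro n F hF
      obtain ⟨y, hy⟩ := heval (n + 1) F
      have h1 : d (n + 1) y = 0 := by
        refine hsep _ _ fun g => ?_
        have h2 := hF g
        rw [hy] at h2
        exact h2
      obtain ⟨z, rfl⟩ := (hd n y).1 h1
      exact ⟨ev n z, fun x => (hy x).symm⟩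
  · intro F
    obtain ⟨y, hy⟩ := heval 0 (F ∘ₗ ev 0 (ε 1))
    have h1 : d 0 y = 0 := by
      refine hsep _ _ fun g => ?_
      have h2 := hy (g ∘ₗ d 0)
      have h3 : (F ∘ₗ ev 0 (ε 1)) (g ∘ₗ d 0) = F (g (d 0 (ε 1))) := rfl
      rw [h3, hdε, map_zero, map_zero] at h2
      exact h2.symm
    obtain ⟨a, rfl⟩ := (h0 y).1 h1
    refine ⟨a, fun x => ?_⟩
    obtain ⟨g, hg⟩ := hsurj x
    have h2 := hy g
    have h3 : (F ∘ₗ ev 0 (ε 1)) g = F (g (ε 1)) := rfl
    have h4 : ε a = a • ε 1 := by rw [← map_smul, smul_eq_mul, mul_one]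
    rw [h3, hg, h4, map_smul, hg] at h2
    exact h2

end Pool.Agent.Lib.P5dc868
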