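import Mathlib
import Pool.Agent.Lib.P5dc868.Defs
import Pool.Agent.Lib.P5dc868.Dual
import Pool.Agent.Lib.P5dc868.NCa

/-!
# The Auslander–Reiten conjecture implies the Nakayama conjecture (MP_5dc868_al)
-/

namespace Pool.Agent.Lib.P5dc868

/-- `Q` is a module over two rings `A` and `B` with commuting actions, finitely generated
projective over `B`, and every `B`-linear endomorphism of `Q` is the action of an element of `A`.
Then `A` is a retract of a finite power of `Q` as `A`-module. -/
theorem retract_of_projective {A B Q : Type} [Ring A] [Ring B] [AddCommGroup Q] [Module A Q]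
    [Module B Q] (hcomm : ∀ (a : A) (b : B) (x : Q), a • b • x = b • a • x)
    (hfaith : ∀ a : A, (∀ x : Q, a • x = 0) → a = 0)
    (hend : ∀ F : Q →ₗ[B] Q, ∃ a : A, ∀ x, F x = a • x)
    (hfin : Module.Finite B Q) (hproj : Module.Projective B Q) :
    ∃ (n : ℕ) (α : A →ₗ[A] (Fin n → Q)) (β : (Fin n → Q) →ₗ[A] A), ∀ a, β (α a) = a := by
  obtain ⟨n, p, i, _, _, hpi⟩ := Module.Finite.exists_comp_eq_id_of_projective B Q
  have hsum : ∀ x : Q, ∑ j, i x j • p (Pi.single j 1) = x := by
    intro x
    have h1 := congrArg (fun f : Q →ₗ[B] Q => f x) hpi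
    simp only [LinearMap.comp_apply, LinearMap.id_apply] at h1
    have h2 : i x = ∑ j, i x j • (Pi.single j (1 : B) : Fin n → B) := by
      funext l
      simp [Finset.sum_apply, Pi.single_apply]
    rw [h2, map_sum] at h1
    simp only [map_smul] at h1
    exact h1
  -- the elements of `A`
  have hex : ∀ (j : Fin n) (y : Q), ∃ a : A, ∀ x, i x j • y = a • x := by
    intro j y
    obtain ⟨a, ha⟩ := hend
      { toFun := fun x => i x j • y
        map_add' := fun x x' => by rw [map_add, Pi.add_apply, add_smul]
        map_smul' := fun b x => by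
          rw [map_smul, Pi.smul_apply, smul_eq_mul, mul_smul, RingHom.id_apply] }
    exact ⟨a, ha⟩
  choose β hβ using hex
  have hext : ∀ a a' : A, (∀ x : Q, a • x = a' • x) → a = a' := by
    intro a a' h
    refine sub_eq_zero.mp (hfaith _ fun x => ?_)
    rw [sub_smul, h x, sub_self]
  refine ⟨n,
    { toFun := fun a j => a • p (Pi.single j 1)
      map_add' := fun a a' => funext fun j => add_smul _ _ _
      map_smul' := fun a a' => funext fun j => mul_smul _ _ _ },
    { toFun := fun y => ∑ j, β j (y j)
      map_add' := fun y y' => by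
        rw [← Finset.sum_add_distrib]
        refine Finset.sum_congr rfl fun j _ => hext _ _ fun x => ?_
        rw [add_smul, ← hβ, ← hβ, ← hβ, Pi.add_apply, smul_add]
      map_smul' := fun a y => by
        rw [RingHom.id_apply, smul_eq_mul, Finset.mul_sum]
        refine Finset.sum_congr rfl fun j _ => hext _ _ fun x => ?_
        rw [mul_smul, ← hβ, ← hβ, Pi.smul_apply, hcomm] }, fun a => ?_⟩
  show ∑ j, β j (a • p (Pi.single j 1)) = a
  refine hext _ _ fun x => ?_
  rw [Finset.sum_smul]
  have h3 : ∀ j, β j (a • p (Pi.single j 1)) • x = a • (i x j • p (Pi.single j 1)) := by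
    intro j
    rw [← hβ, hcomm]
  rw [Finset.sum_congr rfl fun j _ => h3 j, ← Finset.smul_sum, hsum x]

namespace NCbAux

theorem inj_retract {R Y Z : Type} [Ring R] [AddCommGroup Y] [Module R Y] [AddCommGroup Z]
    [Module R Z] (hY : Module.Injective R Y) (i : Z →ₗ[R] Y) (r : Y →ₗ[R] Z)
    (hr : ∀ z, r (i z) = z) : Module.Injective R Z := by
  refine ⟨fun X X' _ _ _ _ f hf g => ?_⟩
  obtain ⟨h, hh⟩ := hY.out f hf (i ∘ₗ g)
  exact ⟨r ∘ₗ h, fun x => by rw [LinearMap.comp_apply, hh, LinearMap.comp_apply, hr]⟩

theorem inj_pow {R Y : Type} [Ring R] [AddCommGroup Y] [Module R Y]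
    (hY : Module.Injective R Y) (n : ℕ) : Module.Injective R (Fin n → Y) := by
  refine ⟨fun X X' _ _ _ _ f hf g => ?_⟩
  choose h hh using fun j : Fin n => hY.out f hf (LinearMap.proj j ∘ₗ g)
  exact ⟨LinearMap.pi h, fun x => funext fun j => hh j x⟩

/-- `End_A(Q)` is a retract of a power of `Q` -/
theorem ext_end {A Q : Type} [Ring A] [AddCommGroup Q] [Module A Q]
    (hfin : Module.Finite A Q) (hproj : Module.Projective A Q)
    (h : ExtZero (Module.End A Q) Q Q) : ExtZero (Module.End A Q) Q (Module.End A Q) := by
  obtain ⟨m, p, i, _, _, hpi⟩ := Module.Finite.exists_comp_eq_id_of_projective A Q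
  have hsum : ∀ x : Q, ∑ j, i x j • p (Pi.single j 1) = x := by
    intro x
    have h1 := congrArg (fun f : Q →ₗ[A] Q => f x) hpi
    simp only [LinearMap.comp_apply, LinearMap.id_apply] at h1
    have h2 : i x = ∑ j, i x j • (Pi.single j (1 : A) : Fin m → A) := by
      funext l
      simp [Finset.sum_apply, Pi.single_apply]
    rw [h2, map_sum] at h1
    simp only [map_smul] at h1
    exact h1
  let i' : Module.End A Q →ₗ[Module.End A Q] (Fin m → Q) :=
    { toFun := fun f j => f (p (Pi.single j 1))
      map_add' := fun f g => rfl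
      map_smul' := fun b f => rfl }
  let r' : (Fin m → Q) →ₗ[Module.End A Q] Module.End A Q :=
    { toFun := fun y =>
        { toFun := fun x => ∑ j, i x j • y j
          map_add' := fun x x' => by
            rw [← Finset.sum_add_distrib]
            refine Finset.sum_congr rfl fun j _ => ?_
            rw [map_add, Pi.add_apply, add_smul]
          map_smul' := fun a x => by
            rw [RingHom.id_apply, Finset.smul_sum]
            refine Finset.sum_congr rfl fun j _ => ?_
            rw [map_smul, Pi.smul_apply, smul_eq_mul, mul_smul] }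
      map_add' := fun y y' => by
        ext x
        show ∑ j, i x j • (y j + y' j) = ∑ j, i x j • y j + ∑ j, i x j • y' j
        rw [← Finset.sum_add_distrib]
        exact Finset.sum_congr rfl fun j _ => smul_add _ _ _
      map_smul' := fun b y => by
        ext x
        show ∑ j, i x j • b (y j) = b (∑ j, i x j • y j)
        rw [map_sum]
        exact Finset.sum_congr rfl fun j _ => (map_smul _ _ _).symm }
  refine h.retract i' r' fun f => ?_
  ext x
  show ∑ j, i x j • f (p (Pi.single j 1)) = f x
  have h3 : ∀ j, i x j • f (p (Pi.single j 1)) = f (i x j • p (Pi.single j 1)) := fun j =>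
    (map_smul _ _ _).symm
  rw [Finset.sum_congr rfl fun j _ => h3 j, ← map_sum, hsum x]

section dual

variable {K A Q : Type} [Field K] [Ring A] [Algebra K A] [AddCommGroup Q] [Module K Q]
  [Module A Q] [IsScalarTower K A Q]

/-- the map `x ↦ (a ↦ ψ (a x))` -/
noncomputable def toDL (ψ : DR K Q) : Q →ₗ[A] DL K A where
  toFun x := (show A →ₗ[K] K from
    { toFun := fun a => ψ (a • x)
      map_add' := fun a a' => by rw [add_smul, DR.map_add]
      map_smul' := fun c a => by
        rw [smul_assoc, DR.map_smul, RingHom.id_apply, smul_eq_mul] })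
  map_add' x y := DL.ext fun a => by
    show ψ (a • (x + y)) = ψ (a • x) + ψ (a • y)
    rw [smul_add, DR.map_add]
  map_smul' a x := DL.ext fun a' => by
    show ψ (a' • (a • x)) = ψ ((a' * a) • x)
    rw [mul_smul]

theorem toDL_apply (ψ : DR K Q) (x : Q) (a : A) : (toDL (A := A) ψ x) a = ψ (a • x) := rfl

/-- `End_A(Q)ᵒᵖ` is a retract of a power of `D(Q)` -/
theorem ext_end_op [FiniteDimensional K Q] (hinj : Module.Injective A Q)
    (h : ExtZero (Module.End A Q)ᵐᵒᵖ (DR K Q) (DR K Q)) :
    ExtZero (Module.End A Q)ᵐᵒᵖ (DR K Q) (Module.End A Q)ᵐᵒᵖ := by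
  let b := Module.finBasis K Q
  let φ : Fin (Module.finrank K Q) → DR K Q := fun j => (show Q →ₗ[K] K from b.coord j)
  have hφ : ∀ x : Q, (∀ j, φ j x = 0) → x = 0 := by
    intro x hx
    refine b.ext_elem fun j => ?_
    have h1 : b.repr x j = 0 := hx j
    rw [h1, map_zero]
    rfl
  let J : Q →ₗ[A] (Fin (Module.finrank K Q) → DL K A) := LinearMap.pi fun j => toDL (φ j)
  have hJ : Function.Injective J := by
    rw [injective_iff_map_eq_zero]
    intro x hx
    refine hφ x fun j => ?_
    have h1 : (toDL (A := A) (φ j) x) 1 = 0 := by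
      have h2 := congrFun hx j
      have h3 : toDL (A := A) (φ j) x = 0 := h2
      rw [h3]
      rfl
    rw [toDL_apply, one_smul] at h1
    exact h1
  obtain ⟨r, hr⟩ := hinj.out J hJ LinearMap.id
  let i' : (Module.End A Q)ᵐᵒᵖ →ₗ[(Module.End A Q)ᵐᵒᵖ] (Fin (Module.finrank K Q) → DR K Q) :=
    { toFun := fun f j => (show Q →ₗ[K] K from
        (show Q →ₗ[K] K from φ j) ∘ₗ (f.unop : Q →ₗ[A] Q).restrictScalars K)
      map_add' := fun f g => by
        funext j
        apply DR.ext
        intro x
        show φ j (f.unop x + g.unop x) = φ j (f.unop x) + φ j (g.unop x)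
        exact DR.map_add _ _ _
      map_smul' := fun f g => by
        funext j
        apply DR.ext
        intro x
        rfl }
  let r' : (Fin (Module.finrank K Q) → DR K Q) →ₗ[(Module.End A Q)ᵐᵒᵖ] (Module.End A Q)ᵐᵒᵖ :=
    { toFun := fun ψ => MulOpposite.op (r ∘ₗ LinearMap.pi fun j => toDL (ψ j))
      map_add' := fun ψ ψ' => by
        rw [← MulOpposite.op_add]
        congr 1
        refine LinearMap.ext fun x => ?_
        show r (fun j => toDL (ψ j + ψ' j) x) =
          r (fun j => toDL (ψ j) x) + r (fun j => toDL (ψ' j) x)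
        rw [← map_add]
        congr 1
      map_smul' := fun f ψ => by
        rw [RingHom.id_apply, smul_eq_mul]
        apply MulOpposite.unop_injective
        rw [MulOpposite.unop_mul]
        refine LinearMap.ext fun x => ?_
        show r (fun j => toDL (f • ψ j) x) = r (fun j => toDL (ψ j) (f.unop x))
        congr 1
        funext j
        apply DL.ext
        intro a
        rw [toDL_apply, toDL_apply, DR.smul_apply]
        congr 1
        exact map_smul (f.unop : Q →ₗ[A] Q) a x }
  refine h.retract i' r' fun f => ?_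
  apply MulOpposite.unop_injective
  refine LinearMap.ext fun x => ?_
  refine Eq.trans ?_ (hr (f.unop x))
  show r (fun j => toDL (i' f j) x) = r (fun j => toDL (φ j) (f.unop x))
  congr 1
  funext j
  apply DL.ext
  intro a
  rw [toDL_apply, toDL_apply]
  exact congrArg (φ j) (map_smul (f.unop : Q →ₗ[A] Q) a x)

/-- `D(Q)` has only the obvious `End_A(Q)ᵒᵖ`-linear endomorphisms -/
theorem end_dual [FiniteDimensional K Q]
    (hend : ∀ F : Q →ₗ[Module.End A Q] Q, ∃ a : A, ∀ x, F x = a • x)
    (F : DR K Q →ₗ[(Module.End A Q)ᵐᵒᵖ] DR K Q) : ∃ a : Aᵐᵒᵖ, ∀ φ, F φ = a • φ := by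
  -- the transpose
  have hG : ∀ x : Q, ∃ y : Q, ∀ φ : DR K Q, F φ x = φ y := by
    intro x
    obtain ⟨y, hy⟩ := (Module.evalEquiv K Q).surjective
      (show Module.Dual K (Module.Dual K Q) from
        { toFun := fun φ => F (show DR K Q from φ) x
          map_add' := fun φ ψ => by
            have h1 := F.map_add (show DR K Q from φ) (show DR K Q from ψ)
            exact congrArg (fun f : DR K Q => f x) h1
          map_smul' := fun c φ => by
            have h1 : F (c • (show DR K Q from φ)) = c • F (show DR K Q from φ) := by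
              have h2 : ∀ ψ : DR K Q, c • ψ =
                  (algebraMap K (Module.End A Q)ᵐᵒᵖ c) • ψ := fun ψ => by
                rw [algebraMap_smul]
              rw [h2, h2, map_smul]
            exact congrArg (fun f : DR K Q => f x) h1 })
    refine ⟨y, fun φ => ?_⟩
    exact (congrArg (fun f : Module.Dual K (Module.Dual K Q) => f φ) hy).symm
  choose G hG using hG
  have hsep : ∀ x y : Q, (∀ φ : DR K Q, φ x = φ y) → x = y := by
    intro x y h
    apply (Module.evalEquiv K Q).injective
    apply LinearMap.ext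
    intro φ
    exact h φ
  obtain ⟨a, ha⟩ := hend
    { toFun := G
      map_add' := fun x y => hsep _ _ fun φ => by
        rw [DR.map_add, ← hG, ← hG, ← hG, DR.map_add]
      map_smul' := fun f x => hsep _ _ fun φ => by
        rw [← hG]
        have h1 : F φ (f • x) = (MulOpposite.op f • F φ) x := rfl
        rw [h1, ← map_smul, hG]
        rfl }
  refine ⟨MulOpposite.op a, fun φ => ?_⟩
  apply DR.ext
  intro x
  rw [hG]
  exact congrArg φ (ha x)

end dual

end NCbAux

/-- The Auslander–Reiten conjecture implies the Nakayama conjecture. -/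
theorem nc_of_arc {K : Type} [Field K]
    (hARC : ∀ (B : Type) [Ring B] [Algebra K B] [FiniteDimensional K B] (M : Type)
      [AddCommGroup M] [Module B M] [Module.Finite B M],
      ExtZero B M M → ExtZero B M B → Module.Projective B M)
    {A : Type} [Ring A] [Algebra K A] [FiniteDimensional K A] (hA : DomDimInf A) :
    Module.Injective A A ∧ Module.Injective Aᵐᵒᵖ A := by
  obtain ⟨Q, _, _, hfin, hproj, hinj, ⟨ε, hε⟩, hExt, hend⟩ := exists_Q (K := K) hA
  let _ : Module K Q := Module.compHom Q (algebraMap K A)
  have hst : IsScalarTower K A Q := ⟨fun c a x => by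
    show (c • a) • x = algebraMap K A c • (a • x)
    rw [Algebra.smul_def, mul_smul]⟩
  have hfd : FiniteDimensional K Q := Module.Finite.trans A Q
  have hfB : FiniteDimensional K (Module.End A Q) := by
    refine FiniteDimensional.of_injective
      ({ toFun := fun f => f.restrictScalars K
         map_add' := fun f g => rfl
         map_smul' := fun c f => rfl } : (Module.End A Q) →ₗ[K] (Q →ₗ[K] Q)) ?_
    intro f g h
    refine LinearMap.ext fun x => ?_
    exact congrArg (fun f : Q →ₗ[K] Q => f x) h
  have hfaith : ∀ a : A, (∀ x : Q, a • x = 0) → a = 0 := by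
    intro a h
    apply hε
    have h1 : ε a = a • ε 1 := by rw [← map_smul, smul_eq_mul, mul_one]
    rw [h1, h, map_zero]
  have hcomm : ∀ (a : A) (b : Module.End A Q) (x : Q), a • b • x = b • a • x := fun a b x =>
    (map_smul b a x).symm
  have hfin' : Module.Finite (Module.End A Q) Q :=
    Module.Finite.of_restrictScalars_finite K (Module.End A Q) Q
  have hpB : Module.Projective (Module.End A Q) Q :=
    hARC (Module.End A Q) Q hExt (NCbAux.ext_end hfin hproj hExt)
  constructor
  · obtain ⟨n, α, β, hαβ⟩ := retract_of_projective hcomm hfaith hend hfin' hpB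
    exact NCbAux.inj_retract (NCbAux.inj_pow hinj n) α β hαβ
  · have hD : ExtZero (Module.End A Q)ᵐᵒᵖ (DR K Q) (DR K Q) := ExtZero.dual hExt
    have hfin2 : Module.Finite (Module.End A Q)ᵐᵒᵖ (DR K Q) :=
      Module.Finite.of_restrictScalars_finite K (Module.End A Q)ᵐᵒᵖ (DR K Q)
    have hp2 : Module.Projective (Module.End A Q)ᵐᵒᵖ (DR K Q) :=
      hARC (Module.End A Q)ᵐᵒᵖ (DR K Q) hD (NCbAux.ext_end_op hinj hD)
    have hinjD : Module.Injective Aᵐᵒᵖ (DR K Q) := DR.injective_of_projective hproj
    obtain ⟨n, α, β, hαβ⟩ := retract_of_projective (A := Aᵐᵒᵖ) (B := (Module.End A Q)ᵐᵒᵖ)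
      (Q := DR K Q)
      (fun a b φ => DR.ext fun x => by
        rw [DR.smul_apply, DR.smul_apply, DR.smul_apply, DR.smul_apply]
        exact congrArg φ (hcomm a.unop b.unop x).symm)
      (fun a h => by
        apply MulOpposite.unop_injective
        refine hfaith _ fun x => ?_
        apply (Module.evalEquiv K Q).injective
        apply LinearMap.ext
        intro φ
        have h1 := congrArg (fun f : DR K Q => f x) (h (show DR K Q from φ))
        exact h1.trans (LinearMap.map_zero (show Q →ₗ[K] K from φ)).symm)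
      (NCbAux.end_dual hend) hfin2 hp2
    have h1 : Module.Injective Aᵐᵒᵖ Aᵐᵒᵖ := NCbAux.inj_retract (NCbAux.inj_pow hinjD n) α β hαβ
    refine NCbAux.inj_retract h1
      ({ toFun := fun a => MulOpposite.op a
         map_add' := fun a b => rfl
         map_smul' := fun a b => rfl } : A →ₗ[Aᵐᵒᵖ] Aᵐᵒᵖ)
      ({ toFun := fun a => MulOpposite.unop a
         map_add' := fun a b => rfl
         map_smul' := fun a b => rfl } : Aᵐᵒᵖ →ₗ[Aᵐᵒᵖ] A) (fun a => rfl)

end Pool.Agent.Lib.P5dc868
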