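import Mathlib
import Pool.Agent.Lib.P5dc868.Defs
import Pool.Agent.Lib.P5dc868.ExtB
import Pool.Agent.Lib.P5dc868.FrobHom
import Pool.Agent.Lib.P5dc868.DualM

/-!
# Endomorphism algebras of generators over Frobenius algebras (MP_5dc868_al)

`S` is a finite-dimensional Frobenius algebra with Nakayama endomorphism `σ`, `N` is a
finite-dimensional module with a resolution `P` by finitely generated projective modules such that
`Hom_S(P, S × N)` and the `σ`-semilinear `Hom_S(P, S × N)` are exact in positive degrees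
(`Ext^i(N, N) = 0` and `Ext^i(ν N, N) = 0`, `i ≥ 1`), `A = End_S(S × N)`.
-/

namespace Pool.Agent.Lib.P5dc868

variable {K S : Type} [Field K] [Ring S] [Algebra K S] [FiniteDimensional K S]
  {lam : S →ₗ[K] K} {σ : S →+* S}
  {N : Type} [AddCommGroup N] [Module K N] [Module S N] [IsScalarTower K S N]
  [FiniteDimensional K N]

namespace T1Aux

section Ring

variable {R : Type} [Ring R] {P : ℕ → Type} [∀ n, AddCommGroup (P n)] [∀ n, Module R (P n)]

/-- the map on the first coordinates -/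
def sp (R : Type) [Ring R] (n : ℕ) : R →ₗ[R] R := if Even n then 0 else LinearMap.id

theorem sp_even {n : ℕ} (h : Even n) (s : R) : sp R n s = 0 := by
  unfold sp
  rw [if_pos h]
  rfl

theorem sp_odd {n : ℕ} (h : ¬ Even n) (s : R) : sp R n s = s := by
  unfold sp
  rw [if_neg h]
  rfl

/-- the differential of the resolution of `R × N` -/
def dQ (d : ∀ n, P (n + 1) →ₗ[R] P n) (n : ℕ) : (R × P (n + 1)) →ₗ[R] (R × P n) :=
  LinearMap.prodMap (sp R n) (d n)

theorem dQ_apply (d : ∀ n, P (n + 1) →ₗ[R] P n) (n : ℕ) (x : R × P (n + 1)) :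
    dQ d n x = (sp R n x.1, d n x.2) := rfl

theorem dQ_exact {d : ∀ n, P (n + 1) →ₗ[R] P n}
    (hd : ∀ n (x : P (n + 1)), d n x = 0 ↔ ∃ y, d (n + 1) y = x) (n : ℕ) (x : R × P (n + 1)) :
    dQ d n x = 0 ↔ ∃ y, dQ d (n + 1) y = x := by
  obtain ⟨s, x⟩ := x
  rw [dQ_apply, Prod.mk_eq_zero, hd]
  by_cases h : Even n
  · have h' : ¬ Even (n + 1) := by
      rw [Nat.even_add_one]
      exact not_not.mpr h
    constructor
    · rintro ⟨-, y, hy⟩
      refine ⟨(s, y), ?_⟩
      rw [dQ_apply, sp_odd h']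
      exact Prod.ext rfl hy
    · rintro ⟨y, hy⟩
      refine ⟨sp_even h _, y.2, ?_⟩
      exact congrArg Prod.snd hy
  · have h' : Even (n + 1) := Nat.even_add_one.mpr h
    constructor
    · rintro ⟨h1, y, hy⟩
      refine ⟨(0, y), ?_⟩
      rw [dQ_apply, sp_even h']
      rw [sp_odd h] at h1
      exact Prod.ext h1.symm hy
    · rintro ⟨y, hy⟩
      refine ⟨?_, y.2, congrArg Prod.snd hy⟩
      rw [sp_odd h]
      have := congrArg Prod.fst hy
      rw [dQ_apply] at this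
      change sp R (n + 1) y.1 = s at this
      rw [sp_even h'] at this
      exact this.symm

variable {N : Type} [AddCommGroup N] [Module R N]

/-- the augmentation of the resolution of `R × N` -/
def eQ (ε : P 0 →ₗ[R] N) : (R × P 0) →ₗ[R] (R × N) := LinearMap.prodMap LinearMap.id ε

theorem eQ_apply (ε : P 0 →ₗ[R] N) (x : R × P 0) : eQ ε x = (x.1, ε x.2) := rfl

theorem eQ_surj {ε : P 0 →ₗ[R] N} (hε : Function.Surjective ε) : Function.Surjective (eQ ε) := by
  rintro ⟨s, x⟩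
  obtain ⟨y, rfl⟩ := hε x
  exact ⟨(s, y), rfl⟩

theorem eQ_exact {ε : P 0 →ₗ[R] N} {d : ∀ n, P (n + 1) →ₗ[R] P n}
    (h0 : ∀ x : P 0, ε x = 0 ↔ ∃ y, d 0 y = x) (x : R × P 0) :
    eQ ε x = 0 ↔ ∃ y, dQ d 0 y = x := by
  obtain ⟨s, x⟩ := x
  rw [eQ_apply, Prod.mk_eq_zero, h0]
  have h : Even 0 := ⟨0, rfl⟩
  constructor
  · rintro ⟨h1, y, hy⟩
    refine ⟨(0, y), ?_⟩
    rw [dQ_apply, sp_even h]
    exact Prod.ext h1.symm hy
  · rintro ⟨y, hy⟩
    refine ⟨?_, y.2, congrArg Prod.snd hy⟩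
    have := congrArg Prod.fst hy
    rw [dQ_apply] at this
    change sp R 0 y.1 = s at this
    rw [sp_even h] at this
    exact this.symm

variable {X : Type} [AddCommGroup X] [Module R X]

theorem lift_aux {σ : R →+* R} {d : ∀ n, P (n + 1) →ₗ[R] P n}
    (h1 : ∀ n (f : P (n + 1) →ₛₗ[σ] X), (∀ y, f (d (n + 1) y) = 0) →
      ∃ g : P n →ₛₗ[σ] X, ∀ x, g (d n x) = f x)
    (n : ℕ) (f : (R × P (n + 1)) →ₛₗ[σ] X) (hf : ∀ y, f (dQ d (n + 1) y) = 0) :
    ∃ g : (R × P n) →ₛₗ[σ] X, ∀ x, g (dQ d n x) = f x := by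
  obtain ⟨g, hg⟩ := h1 n (f.comp (LinearMap.inr R R (P (n + 1)))) (by
    intro y
    have := hf (0, y)
    rw [dQ_apply, map_zero] at this
    exact this)
  have hfx : ∀ x : R × P (n + 1), f x = f (x.1, 0) + f (0, x.2) := by
    intro x
    rw [← map_add]
    congr 1
    exact Prod.ext (add_zero _).symm (zero_add _).symm
  by_cases h : Even n
  · have h' : ¬ Even (n + 1) := by
      rw [Nat.even_add_one]
      exact not_not.mpr h
    have hfs : ∀ s : R, f (s, 0) = 0 := by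
      intro s
      have := hf (s, 0)
      rw [dQ_apply, map_zero, sp_odd h'] at this
      exact this
    refine ⟨g.comp (LinearMap.snd R R (P n)), fun x => ?_⟩
    rw [hfx x, hfs, zero_add]
    exact hg x.2
  · refine ⟨(f.comp (LinearMap.inl R R (P (n + 1)))).comp (LinearMap.fst R R (P n)) +
      g.comp (LinearMap.snd R R (P n)), fun x => ?_⟩
    rw [hfx x, dQ_apply, sp_odd h, LinearMap.add_apply]
    have e1 : (g.comp (LinearMap.snd R R (P n))) (x.1, d n x.2) = f (0, x.2) := hg x.2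
    rw [e1]
    rfl

/-- composition with a map of `R`-modules -/
def pre {Q Q' : Type} [AddCommGroup Q] [Module R Q] [AddCommGroup Q'] [Module R Q']
    (f : Q' →ₗ[R] Q) : (Q →ₗ[R] X) →ₗ[Module.End R X] (Q' →ₗ[R] X) where
  toFun g := g ∘ₗ f
  map_add' _ _ := rfl
  map_smul' _ _ := rfl

theorem pre_apply {Q Q' : Type} [AddCommGroup Q] [Module R Q] [AddCommGroup Q'] [Module R Q']
    (f : Q' →ₗ[R] Q) (g : Q →ₗ[R] X) : pre f g = g ∘ₗ f := rfl

/-- composition of endomorphisms with a map of `R`-modules -/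
def pre0 {Q : Type} [AddCommGroup Q] [Module R Q]
    (f : Q →ₗ[R] X) : Module.End R X →ₗ[Module.End R X] (Q →ₗ[R] X) where
  toFun g := g ∘ₗ f
  map_add' _ _ := rfl
  map_smul' _ _ := rfl

theorem pre0_apply {Q : Type} [AddCommGroup Q] [Module R Q]
    (f : Q →ₗ[R] X) (g : Module.End R X) : pre0 f g = g ∘ₗ f := rfl

theorem pre0_inj {Q : Type} [AddCommGroup Q] [Module R Q]
    {f : Q →ₗ[R] X} (hf : Function.Surjective f) : Function.Injective (pre0 f) := by
  intro g g' h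
  apply LinearMap.ext
  intro x
  obtain ⟨y, rfl⟩ := hf x
  exact LinearMap.congr_fun h y

theorem factor {Q Q' : Type} [AddCommGroup Q] [Module R Q] [AddCommGroup Q'] [Module R Q']
    {f : Q →ₗ[R] X} (hf : Function.Surjective f) {e : Q' →ₗ[R] Q}
    (h0 : ∀ x, f x = 0 ↔ ∃ y, e y = x) (g : Q →ₗ[R] X) :
    pre e g = 0 ↔ ∃ a, pre0 f a = g := by
  constructor
  · intro h
    have hk : LinearMap.ker f ≤ LinearMap.ker g := by
      intro x hx
      obtain ⟨y, rfl⟩ := (h0 x).mp hx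
      exact LinearMap.congr_fun h y
    let E : (Q ⧸ LinearMap.ker f) ≃ₗ[R] X := f.quotKerEquivOfSurjective hf
    refine ⟨((LinearMap.ker f).liftQ g hk) ∘ₗ E.symm.toLinearMap, ?_⟩
    apply LinearMap.ext
    intro x
    change ((LinearMap.ker f).liftQ g hk) (E.symm (f x)) = g x
    have : E.symm (f x) = Submodule.Quotient.mk x := by
      rw [LinearEquiv.symm_apply_eq]
      rfl
    rw [this]
    rfl
  · rintro ⟨a, rfl⟩
    apply LinearMap.ext
    intro y
    change a (f (e y)) = 0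
    rw [(h0 (e y)).mpr ⟨y, rfl⟩, map_zero]

end Ring

end T1Aux

open T1Aux

/-- The dominant dimension of `A = End_S(S × N)` is infinite. -/
theorem Frob.domDim (hF : Frob K S lam σ) (P : ℕ → Type) [∀ n, AddCommGroup (P n)]
    [∀ n, Module S (P n)] (hP : ∀ n, Module.Finite S (P n) ∧ Module.Projective S (P n))
    (ε : P 0 →ₗ[S] N) (d : ∀ n, P (n + 1) →ₗ[S] P n) (hε : Function.Surjective ε)
    (h0 : ∀ x : P 0, ε x = 0 ↔ ∃ y, d 0 y = x)
    (hd : ∀ n (x : P (n + 1)), d n x = 0 ↔ ∃ y, d (n + 1) y = x)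
    (h1 : ∀ n (f : P (n + 1) →ₗ[S] S × N), (∀ y, f (d (n + 1) y) = 0) →
      ∃ g : P n →ₗ[S] S × N, ∀ x, g (d n x) = f x) :
    DomDimInf (Module.End S (S × N)) := by
  have hp : ∀ s, LinearMap.fst S S N (LinearMap.inl S S N s) = s := fun _ => rfl
  refine ⟨fun n => (S × P n) →ₗ[S] S × N, fun _ => inferInstance, fun _ => inferInstance,
    pre0 (eQ ε), fun n => pre (dQ d n), fun n => ?_, pre0_inj (eQ_surj hε), ?_, ?_⟩
  · have := (hP n).1
    have := (hP n).2
    exact ⟨hom_finite hp, hom_projective hp, hom_injective hF hp⟩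
  · intro x
    exact factor (eQ_surj hε) (eQ_exact h0) x
  · intro n x
    constructor
    · intro hx
      obtain ⟨g, hg⟩ := lift_aux h1 n x (fun y => LinearMap.congr_fun hx y)
      exact ⟨g, LinearMap.ext hg⟩
    · rintro ⟨y, rfl⟩
      apply LinearMap.ext
      intro z
      change y (dQ d n (dQ d (n + 1) z)) = 0
      rw [(dQ_exact hd n _).mpr ⟨z, rfl⟩, map_zero]

/-- `Ext^i_A(D A, A) = 0` for `i ≥ 1`, `A = End_S(S × N)`. -/
theorem Frob.extZero (hF : Frob K S lam σ) (P : ℕ → Type) [∀ n, AddCommGroup (P n)]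
    [∀ n, Module S (P n)] (hP : ∀ n, Module.Finite S (P n) ∧ Module.Projective S (P n))
    (ε : P 0 →ₗ[S] N) (d : ∀ n, P (n + 1) →ₗ[S] P n) (hε : Function.Surjective ε)
    (h0 : ∀ x : P 0, ε x = 0 ↔ ∃ y, d 0 y = x)
    (hd : ∀ n (x : P (n + 1)), d n x = 0 ↔ ∃ y, d (n + 1) y = x)
    (h1 : ∀ n (f : P (n + 1) →ₗ[S] S × N), (∀ y, f (d (n + 1) y) = 0) →
      ∃ g : P n →ₗ[S] S × N, ∀ x, g (d n x) = f x)
    (h2 : ∀ n (f : P (n + 1) →ₛₗ[σ] S × N), (∀ y, f (d (n + 1) y) = 0) →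
      ∃ g : P n →ₛₗ[σ] S × N, ∀ x, g (d n x) = f x) :
    ExtZero (Module.End S (S × N)) (DL K (Module.End S (S × N))) (Module.End S (S × N)) := by
  have hp : ∀ s, LinearMap.fst S S N (LinearMap.inl S S N s) = s := fun _ => rfl
  refine extZero_of_cores (R := Module.End S (S × N)) (fun n => (S × P n) →ₗ[S] S × N)
    (fun n => ?_) (pre0 (eQ ε)) (fun n => pre (dQ d n)) (pre0_inj (eQ_surj hε)) ?_ ?_ ?_
  · have := (hP n).1
    have := (hP n).2
    exact hom_injective hF hp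
  · intro x
    exact factor (eQ_surj hε) (eQ_exact h0) x
  · intro n x
    constructor
    · intro hx
      obtain ⟨g, hg⟩ := lift_aux h1 n x (fun y => LinearMap.congr_fun hx y)
      exact ⟨g, LinearMap.ext hg⟩
    · rintro ⟨y, rfl⟩
      apply LinearMap.ext
      intro z
      change y (dQ d n (dQ d (n + 1) z)) = 0
      rw [(dQ_exact hd n _).mpr ⟨z, rfl⟩, map_zero]
  · intro n G hG
    obtain ⟨G', hG'⟩ := Frob.lift_dual hF hp (dQ d n) (dQ d (n + 1))
      (fun g hg => lift_aux h2 n g hg) G (fun φ y => LinearMap.congr_fun (hG φ) y)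
    exact ⟨G', fun w => LinearMap.ext (hG' w)⟩

end Pool.Agent.Lib.P5dc868
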