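import Mathlib
import Pool.Agent.Lib.P5dc868.Defs
import Pool.Agent.Lib.P5dc868.Frob

/-!
# Selfinjectivity of endomorphism algebras of generators (MP_5dc868_al)
-/

namespace Pool.Agent.Lib.P5dc868

namespace T2Aux

/-- `Hom_S(X, M)` as a right `End_S(X)`-module. -/
def RH (S X M : Type) [Ring S] [AddCommGroup X] [Module S X] [AddCommGroup M] [Module S M] :
    Type := X →ₗ[S] M

variable {S X M : Type} [Ring S] [AddCommGroup X] [Module S X] [AddCommGroup M] [Module S M]

noncomputable instance : AddCommGroup (RH S X M) := inferInstanceAs (AddCommGroup (X →ₗ[S] M))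

/-- the identity map -/
def RH.mk (f : X →ₗ[S] M) : RH S X M := f

/-- the identity map -/
def RH.get (f : RH S X M) : X →ₗ[S] M := f

theorem RH.ext {f g : RH S X M} (h : ∀ x, f.get x = g.get x) : f = g := LinearMap.ext h

noncomputable instance : SMul (Module.End S X)ᵐᵒᵖ (RH S X M) where
  smul a f := RH.mk (f.get ∘ₗ a.unop)

theorem RH.smul_get (a : (Module.End S X)ᵐᵒᵖ) (f : RH S X M) (x : X) :
    (a • f).get x = f.get (a.unop x) := rfl

theorem RH.add_get (f g : RH S X M) (x : X) : (f + g).get x = f.get x + g.get x := rfl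

theorem RH.zero_get (x : X) : (0 : RH S X M).get x = 0 := rfl

noncomputable instance : Module (Module.End S X)ᵐᵒᵖ (RH S X M) where
  one_smul f := RH.ext fun x => rfl
  mul_smul a b f := RH.ext fun x => rfl
  smul_zero a := RH.ext fun x => rfl
  smul_add a f g := RH.ext fun x => rfl
  add_smul a b f := RH.ext fun x => by
    rw [RH.smul_get, RH.add_get, RH.smul_get, RH.smul_get, MulOpposite.unop_add,
      LinearMap.add_apply, map_add]
  zero_smul f := RH.ext fun x => by
    rw [RH.smul_get, RH.zero_get, MulOpposite.unop_zero, LinearMap.zero_apply, map_zero]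

/-- composition with `j` -/
noncomputable def post {M' : Type} [AddCommGroup M'] [Module S M'] (j : M →ₗ[S] M') :
    RH S X M →ₗ[(Module.End S X)ᵐᵒᵖ] RH S X M' where
  toFun f := RH.mk (j ∘ₗ f.get)
  map_add' f g := RH.ext fun x => map_add j _ _
  map_smul' a f := RH.ext fun x => rfl

/-- composition with `i : M → X` -/
noncomputable def toA (i : M →ₗ[S] X) :
    RH S X M →ₗ[(Module.End S X)ᵐᵒᵖ] Module.End S X where
  toFun f := i ∘ₗ f.get
  map_add' f g := LinearMap.ext fun _ => map_add i _ _
  map_smul' a f := LinearMap.ext fun x => rfl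

/-- `z ↦ z.1 • y` -/
noncomputable def scal {N : Type} [AddCommGroup N] [Module S N] (y : M) :
    (S × N) →ₗ[S] M where
  toFun z := z.1 • y
  map_add' z z' := by rw [Prod.fst_add, add_smul]
  map_smul' s z := by rw [Prod.smul_fst, smul_eq_mul, mul_smul, RingHom.id_apply]

/-- `z ↦ (z.1 * s, 0)` -/
noncomputable def rmul {N : Type} [AddCommGroup N] [Module S N] (s : S) :
    Module.End S (S × N) where
  toFun z := (z.1 * s, 0)
  map_add' z z' := by simp [add_mul]
  map_smul' t z := by simp [mul_assoc]

end T2Aux

open T2Aux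

/-- If the right regular module of `A = End_S(S × N)` is injective, `S` Frobenius, then `N` is
projective. (Embed `N` in `S ^ n`; the induced map `Hom_S(X, N) → Hom_S(X, S ^ n)` of right
`A`-modules splits.) -/
theorem Frob.projective_of_injective {K S : Type} [Field K] [Ring S] [Algebra K S]
    [FiniteDimensional K S] {lam : S →ₗ[K] K} {σ : S →+* S}
    {N : Type} [AddCommGroup N] [Module K N] [Module S N] [IsScalarTower K S N]
    [FiniteDimensional K N] (hF : Frob K S lam σ)
    (h : Module.Injective (Module.End S (S × N))ᵐᵒᵖ (Module.End S (S × N))) :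
    Module.Projective S N := by
  classical
  let b := Module.finBasis K N
  choose hh hhh using fun i => hF.exists_hom (X := N) (b.coord i)
  let j : N →ₗ[S] (Fin (Module.finrank K N) → S) := LinearMap.pi hh
  have hj : Function.Injective j := by
    rw [← LinearMap.ker_eq_bot, LinearMap.ker_eq_bot']
    intro x hx
    have h1 : ∀ i, b.coord i x = 0 := by
      intro i
      rw [← hhh i x]
      have h2 : hh i x = 0 := congrFun hx i
      rw [h2, map_zero]
    exact (b.forall_coord_eq_zero_iff).mp h1
  have hpost : Function.Injective (post (X := S × N) j) := by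
    intro f g hfg
    refine RH.ext fun x => hj ?_
    exact LinearMap.congr_fun (show (j ∘ₗ f.get : (S × N) →ₗ[S] _) = j ∘ₗ g.get from hfg) x
  obtain ⟨ρ, hρ⟩ := h.out (post (X := S × N) j) hpost (toA (LinearMap.inr S S N))
  -- the retraction
  let τ : (Fin (Module.finrank K N) → S) →ₗ[S] N :=
    { toFun := fun y => (ρ (RH.mk (scal y)) (1, 0)).2
      map_add' := fun y y' => by
        have h1 : (RH.mk (scal (N := N) (y + y')) : RH S (S × N) _) =
            RH.mk (scal y) + RH.mk (scal y') := RH.ext fun z => smul_add _ _ _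
        rw [h1, map_add]
        rfl
      map_smul' := fun s y => by
        have h1 : (RH.mk (scal (N := N) (s • y)) : RH S (S × N) _) =
            (MulOpposite.op (rmul s) : (Module.End S (S × N))ᵐᵒᵖ) •
              (RH.mk (scal (N := N) y) : RH S (S × N) (Fin (Module.finrank K N) → S)) :=
          RH.ext fun z => (mul_smul z.1 s y).symm
        have h2 : ((MulOpposite.op (rmul s) : (Module.End S (S × N))ᵐᵒᵖ) •
            (ρ (RH.mk (scal y)) : Module.End S (S × N)) : Module.End S (S × N)) (1, 0) =
            ρ (RH.mk (scal y)) (rmul s (1, 0)) := by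
          rw [op_smul_eq_mul]
          rfl
        have h3 : (rmul s (1, 0) : S × N) = s • (1, 0) := by
          change ((1 : S) * s, (0 : N)) = (s • (1 : S), s • (0 : N))
          rw [one_mul, smul_eq_mul, mul_one, smul_zero]
        rw [h1, map_smul, h2, h3, map_smul, RingHom.id_apply]
        rfl }
  refine Module.Projective.of_split j τ (LinearMap.ext fun x => ?_)
  change (ρ (RH.mk (scal (j x))) (1, 0)).2 = x
  have h1 : (RH.mk (scal (N := N) (j x)) : RH S (S × N) _) =
      post j (RH.mk (scal x)) := RH.ext fun z => (map_smul j z.1 x).symm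
  rw [h1, hρ]
  change (1 : S) • x = x
  rw [one_smul]

end Pool.Agent.Lib.P5dc868
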