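import Mathlib
import Pool.Agent.Lib.P5dc868.Defs

/-!
# Left selfinjectivity of endomorphism algebras of generators (MP_5dc868_al)
-/

namespace Pool.Agent.Lib.P5dc868

/-- If the left regular module of `A = End_S(S × N)` is injective, then the finitely generated
module `N` is projective. -/
theorem projective_of_left_injective {S N : Type} [Ring S] [AddCommGroup N] [Module S N]
    [Module.Finite S N]
    (h : Module.Injective (Module.End S (S × N)) (Module.End S (S × N))) :
    Module.Projective S N := by
  classical
  obtain ⟨n, π, hπ⟩ := Module.Finite.exists_fin' S N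
  let X := S × N
  let A := Module.End S (S × N)
  let j : (N →ₗ[S] X) →ₗ[A] ((Fin n → S) →ₗ[S] X) :=
    { toFun := fun f => f ∘ₗ π
      map_add' := fun f g => by
        apply LinearMap.ext
        intro x
        rfl
      map_smul' := fun a f => by
        apply LinearMap.ext
        intro x
        rfl }
  have hj : Function.Injective j := by
    intro f g hfg
    apply LinearMap.ext
    intro m
    obtain ⟨x, rfl⟩ := hπ m
    exact LinearMap.congr_fun hfg x
  let g : (N →ₗ[S] X) →ₗ[A] A :=
    { toFun := fun f => f ∘ₗ LinearMap.snd S S N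
      map_add' := fun f g => by
        apply LinearMap.ext
        intro x
        rfl
      map_smul' := fun a f => by
        apply LinearMap.ext
        intro x
        rfl }
  obtain ⟨H, hH⟩ := h.out j hj g
  let v : Fin n → N := fun i => π fun j => if i = j then 1 else 0
  have hv : ∀ x : Fin n → S, π x = ∑ i, x i • v i := fun x => LinearMap.pi_apply_eq_sum_univ π x
  let c : Fin n → ((Fin n → S) →ₗ[S] X) := fun i =>
    LinearMap.inl S S N ∘ₗ LinearMap.proj i
  let a : Fin n → A := fun i =>
    LinearMap.inr S S N ∘ₗ (LinearMap.toSpanSingleton S N (v i)) ∘ₗ LinearMap.fst S S N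
  have hsum : j (LinearMap.inr S S N) = ∑ i, a i • c i := by
    apply LinearMap.ext
    intro x
    have h1 : (∑ i, a i • c i) x = ∑ i, (a i) (c i x) := by
      rw [LinearMap.sum_apply]
      rfl
    rw [h1]
    have h2 : ∀ i, (a i) (c i x) = LinearMap.inr S S N (x i • v i) := fun i => rfl
    simp only [h2]
    rw [← map_sum, ← hv]
    rfl
  let τ : N →ₗ[S] (Fin n → S) := LinearMap.pi fun i =>
    LinearMap.fst S S N ∘ₗ (H (c i)) ∘ₗ LinearMap.inr S S N
  refine Module.Projective.of_split τ π ?_
  apply LinearMap.ext
  intro m
  have h3 : H (j (LinearMap.inr S S N)) = g (LinearMap.inr S S N) := hH _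
  rw [hsum, map_sum] at h3
  have h4 := LinearMap.congr_fun h3 (LinearMap.inr S S N m)
  have h5 : (∑ i, H (a i • c i)) (LinearMap.inr S S N m) =
      ∑ i, (a i) (H (c i) (LinearMap.inr S S N m)) := by
    rw [LinearMap.sum_apply]
    refine Finset.sum_congr rfl (fun i _ => ?_)
    rw [map_smul]
    rfl
  rw [h5] at h4
  have h6 : g (LinearMap.inr S S N) (LinearMap.inr S S N m) = LinearMap.inr S S N m := rfl
  rw [h6] at h4
  have h7 := congrArg Prod.snd h4
  have h8 : (LinearMap.inr S S N m).2 = m := rfl
  rw [h8, Prod.snd_sum] at h7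
  have h9 : ∀ i, ((a i) (H (c i) (LinearMap.inr S S N m))).2 = τ m i • v i := fun i => rfl
  simp only [h9] at h7
  rw [LinearMap.id_apply, LinearMap.comp_apply, hv, h7]

end Pool.Agent.Lib.P5dc868
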